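import Pool.Agent.Helper70.DU.Defs2

namespace Pool.Agent.Helper70.DU

universe u

namespace DUA1aux

/-- An upper bound for the arities. -/
def bound {M : Type} (E : AlterEgo M) : ℕ :=
  (E.G.map fun g => g.1 + 1).sum + (E.H.map fun g => g.1 + 1).sum + (E.R.map fun g => g.1).sum

theorem le_sum {α : Type} (L : List α) (f : α → ℕ) (a : α) (h : a ∈ L) : f a ≤ (L.map f).sum :=
  List.single_le_sum (fun _ _ => Nat.zero_le _) _ (List.mem_map.2 ⟨a, h, rfl⟩)

theorem has_le {M : Type} (E : AlterEgo M) {n : ℕ} {r : Set (Fin n → M)} (h : E.Has r) :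
    n ≤ bound E := by
  unfold bound
  rcases h with ⟨g, hg, h⟩ | ⟨g, hg, h⟩ | h
  · have h1 : n = g.1 + 1 := congrArg Sigma.fst h
    have h2 : g.1 + 1 ≤ _ := le_sum E.G (fun g => g.1 + 1) g hg
    omega
  · have h1 : n = g.1 + 1 := congrArg Sigma.fst h
    have h2 : g.1 + 1 ≤ _ := le_sum E.H (fun g => g.1 + 1) g hg
    omega
  · have h2 : n ≤ _ := le_sum E.R (fun g => g.1) _ h
    omega

end DUA1aux

/-- DU-A1. A dualisable algebra has the local property (`n` = maximal arity). -/
theorem local_of_dual {ι : Type} {ar : ι → ℕ} {M : Type} [Finite M] [TopologicalSpace M]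
    [DiscreteTopology M] (opM : ∀ i, (Fin (ar i) → M) → M)
    (h : ∃ E : AlterEgo M, E.Algebraic opM ∧ AlterEgo.Yields.{u} E opM) : LocalProp opM := by
  obtain ⟨E, _, hY⟩ := h
  refine ⟨DUA1aux.bound E, ?_⟩
  intro A opA hfin hisp φ hloc
  let opA' : ∀ i, (Fin (ar i) → ULift.{u} A) → ULift.{u} A :=
    fun i v => ULift.up (opA i (fun j => (v j).down))
  have hisp' : InISP opM opA' := by
    obtain ⟨hne, I, e, he, hh⟩ := hisp
    refine ⟨⟨ULift.up hne.some⟩, ULift.{u} I, fun a x => e a.down x.down, ?_, ?_⟩
    · intro a b hab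
      apply ULift.ext
      apply he
      funext x
      exact congrFun hab (ULift.up x)
    · intro x i a
      exact hh x.down i (fun j => (a j).down)
  let D : Dual opA' opM → Dual opA opM := fun x =>
    ⟨fun a => x.1 (ULift.up a), fun i a => x.2 i (fun j => ULift.up (a j))⟩
  have hfin' : Finite (ULift.{u} A) := inferInstance
  have hdisc : DiscreteTopology (Dual opA' opM) :=
    inferInstanceAs (DiscreteTopology {h : ULift.{u} A → M // IsHom opA' opM h})
  obtain ⟨a', ha'⟩ := hY (ULift.{u} A) opA' hisp' (fun x => φ (D x))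
    continuous_of_discreteTopology (by
      intro n r hr x hx
      rcases Nat.eq_zero_or_pos n with hn | hn
      · subst hn
        have h1 := hx (ULift.up hisp.1.some)
        have h2 : (fun i => φ (D (x i))) = fun i => (x i).1 (ULift.up hisp.1.some) := by
          funext i
          exact i.elim0
        rw [h2]
        exact h1
      · have hle := DUA1aux.has_le E hr
        obtain ⟨a, ha⟩ := hloc (fun j => if h : (j : ℕ) < n then D (x ⟨j, h⟩) else D (x ⟨0, hn⟩))
        have h2 : (fun i => φ (D (x i))) = fun i => (x i).1 (ULift.up a) := by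
          funext i
          have h3 := ha ⟨i, lt_of_lt_of_le i.2 hle⟩
          simp only [i.2, dif_pos] at h3
          exact h3
        rw [h2]
        exact hx (ULift.up a))
  refine ⟨a'.down, fun x => ?_⟩
  exact ha' ⟨fun a => x.1 a.down, fun i a => x.2 i (fun j => (a j).down)⟩

end Pool.Agent.Helper70.DU
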