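import Pool.Agent.Helper70.DU.Defs2

namespace Pool.Agent.Helper70.DU

universe u

/-- DU-A2. The finite subalgebras `Det opM opA S`. -/
theorem det_finite {ι : Type} {ar : ι → ℕ} {M : Type} [Finite M] {A : Type u}
    (opM : ∀ i, (Fin (ar i) → M) → M) (opA : ∀ i, (Fin (ar i) → A) → A)
    (h : InISP opM opA) (S : Finset A) : (Det opM opA S).Finite := by
  classical
  obtain ⟨-, I, e, he, hhom⟩ := h
  have hch : ∀ a : Det opM opA S, ∃ t : (S → M) → M,
      ∀ x : Dual opA opM, x.1 a.1 = t (fun s => x.1 s.1) := fun a => a.2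
  choose t ht using hch
  have hinj : Function.Injective t := by
    intro a b hab
    apply Subtype.ext
    apply he
    funext i
    have h1 := ht a ⟨fun a => e a i, hhom i⟩
    have h2 := ht b ⟨fun a => e a i, hhom i⟩
    rw [hab] at h1
    exact h1.trans h2.symm
  have : Finite ((S → M) → M) := inferInstance
  have : Finite (Det opM opA S) := Finite.of_injective t hinj
  exact Set.toFinite _

theorem det_mem {ι : Type} {ar : ι → ℕ} {M : Type} {A : Type u}
    (opM : ∀ i, (Fin (ar i) → M) → M) (opA : ∀ i, (Fin (ar i) → A) → A)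
    (S : Finset A) (a : A) (ha : a ∈ S) : a ∈ Det opM opA S :=
  ⟨fun w => w ⟨a, ha⟩, fun _ => rfl⟩

theorem det_mono {ι : Type} {ar : ι → ℕ} {M : Type} {A : Type u}
    (opM : ∀ i, (Fin (ar i) → M) → M) (opA : ∀ i, (Fin (ar i) → A) → A)
    (S S' : Finset A) (h : S ⊆ S') : Det opM opA S ⊆ Det opM opA S' := by
  rintro a ⟨t, ht⟩
  exact ⟨fun w => t (fun s => w ⟨s.1, h s.2⟩), fun x => ht x⟩

theorem det_op {ι : Type} {ar : ι → ℕ} {M : Type} {A : Type u}
    (opM : ∀ i, (Fin (ar i) → M) → M) (opA : ∀ i, (Fin (ar i) → A) → A)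
    (S : Finset A) (i : ι) (v : Fin (ar i) → A) (hv : ∀ j, v j ∈ Det opM opA S) :
    opA i v ∈ Det opM opA S := by
  choose t ht using hv
  refine ⟨fun w => opM i (fun j => t j w), fun x => ?_⟩
  rw [x.2 i v]
  congr 1
  funext j
  exact ht j x

end Pool.Agent.Helper70.DU
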