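import Pool.Agent.Helper70.DU.Defs2

namespace Pool.Agent.Helper70.DU

universe u

namespace DUA3aux

theorem exists_empty {A : Type*} {T : Type*} [TopologicalSpace T] [CompactSpace T]
    (C : Finset A → Set T) (hcl : ∀ S, IsClosed (C S)) (hanti : ∀ S S', S ⊆ S' → C S' ⊆ C S)
    (hem : ∀ t, ∃ S, t ∉ C S) : ∃ S, C S = ∅ := by
  classical
  by_contra h
  have hne : ∀ S, (C S).Nonempty := by
    intro S
    rw [Set.nonempty_iff_ne_empty]
    exact fun h2 => h ⟨S, h2⟩
  have hdir : Directed (· ⊇ ·) C := by
    intro S S'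
    exact ⟨S ∪ S', hanti _ _ Finset.subset_union_left, hanti _ _ Finset.subset_union_right⟩
  obtain ⟨t, ht⟩ := IsCompact.nonempty_iInter_of_directed_nonempty_isCompact_isClosed C hdir hne
    (fun S => (hcl S).isCompact) hcl
  obtain ⟨S, hS⟩ := hem t
  exact hS (Set.mem_iInter.1 ht S)

theorem isClosed_ne {M T : Type*} [TopologicalSpace M] [DiscreteTopology M] [TopologicalSpace T]
    {f g : T → M} (hf : Continuous f) (hg : Continuous g) : IsClosed {t | f t ≠ g t} := by
  have h : {t | f t ≠ g t} = (fun t => (f t, g t)) ⁻¹' {p : M × M | p.1 ≠ p.2} := rfl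
  rw [h]
  exact (isClosed_discrete _).preimage (hf.prodMk hg)

theorem isClosed_eq' {M T : Type*} [TopologicalSpace M] [DiscreteTopology M] [TopologicalSpace T]
    {f g : T → M} (hf : Continuous f) (hg : Continuous g) : IsClosed {t | f t = g t} := by
  have h : {t | f t = g t} = (fun t => (f t, g t)) ⁻¹' {p : M × M | p.1 = p.2} := rfl
  rw [h]
  exact (isClosed_discrete _).preimage (hf.prodMk hg)

/-- a function of finitely many coordinates -/
theorem continuous_fin {M T J : Type*} [TopologicalSpace M] [DiscreteTopology M]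
    [TopologicalSpace T] [Finite J] (F : (J → M) → M) {c : T → J → M}
    (hc : ∀ j, Continuous fun t => c t j) : Continuous fun t => F (c t) := by
  have h1 : Continuous c := continuous_pi hc
  exact continuous_of_discreteTopology.comp h1

end DUA3aux

/-- DU-A3. Compactness step. `P y i` = `y i` is a homomorphism on `Det S`. -/
theorem compact_step {ι : Type} {ar : ι → ℕ} {M : Type} [Finite M] [Nonempty M]
    [TopologicalSpace M] [DiscreteTopology M] {A : Type u}
    (opM : ∀ i, (Fin (ar i) → M) → M) (opA : ∀ i, (Fin (ar i) → A) → A)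
    (φ : Dual opA opM → M) (hφ : Continuous φ) (n : ℕ)
    (hloc : ∀ x : Fin n → Dual opA opM, ∃ a : A, ∀ i, φ (x i) = (x i).1 a) :
    ∃ (B S : Finset A) (at' : (B → M) → M), B ⊆ S ∧
      (∀ x : Dual opA opM, φ x = at' (fun b => x.1 b.1)) ∧
      ∀ y : Fin n → A → M,
        (∀ i, ∀ (k : ι) (v : Fin (ar k) → A), (∀ j, v j ∈ Det opM opA S) →
          y i (opA k v) = opM k (fun j => y i (v j))) →
        ∃ c ∈ Det opM opA S, ∀ i, at' (fun b => y i b.1) = y i c := by
  classical
  -- the dual is compact
  have hcoord : ∀ a : A, Continuous fun h : A → M => h a := fun a => continuous_apply a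
  have hclD : IsClosed {h : A → M | IsHom opA opM h} := by
    have e : {h : A → M | IsHom opA opM h} =
        ⋂ i, ⋂ a : Fin (ar i) → A, {h : A → M | h (opA i a) = opM i (fun j => h (a j))} := by
      ext h
      simp only [IsHom, Set.mem_ofPred_eq, Set.mem_iInter]
    rw [e]
    refine isClosed_iInter fun i => isClosed_iInter fun a => ?_
    exact DUA3aux.isClosed_eq' (hcoord _)
      (DUA3aux.continuous_fin (opM i) (c := fun (h : A → M) j => h (a j)) fun j => hcoord (a j))
  have hcomp : CompactSpace (Dual opA opM) := by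
    show CompactSpace {h : A → M // IsHom opA opM h}
    exact isCompact_iff_compactSpace.1 hclD.isCompact
  have hval : ∀ a : A, Continuous fun x : Dual opA opM => x.1 a := by
    intro a
    exact (hcoord a).comp continuous_subtype_val
  -- finitely many coordinates
  obtain ⟨B, hB⟩ := DUA3aux.exists_empty
    (fun B : Finset A => {p : Dual opA opM × Dual opA opM |
      (∀ b ∈ B, p.1.1 b = p.2.1 b) ∧ φ p.1 ≠ φ p.2})
    (by
      intro B
      have e : {p : Dual opA opM × Dual opA opM |
          (∀ b ∈ B, p.1.1 b = p.2.1 b) ∧ φ p.1 ≠ φ p.2} =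
          (⋂ b ∈ B, {p : Dual opA opM × Dual opA opM | p.1.1 b = p.2.1 b}) ∩
            {p | φ p.1 ≠ φ p.2} := by
        ext p
        simp only [Set.mem_ofPred_eq, Set.mem_inter_iff, Set.mem_iInter]
      rw [e]
      refine IsClosed.inter (isClosed_iInter fun b => isClosed_iInter fun _ => ?_) ?_
      · exact DUA3aux.isClosed_eq' ((hval b).comp continuous_fst) ((hval b).comp continuous_snd)
      · exact DUA3aux.isClosed_ne (hφ.comp continuous_fst) (hφ.comp continuous_snd))
    (by
      intro S S' hS p hp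
      exact ⟨fun b hb => hp.1 b (hS hb), hp.2⟩)
    (by
      intro p
      by_contra h
      push Not at h
      have h1 : p.1 = p.2 := by
        refine Subtype.ext (funext fun a => ?_)
        exact (h {a}).1 a (Finset.mem_singleton_self a)
      exact (h ∅).2 (by rw [h1]))
  have hB' : ∀ x x' : Dual opA opM, (∀ b ∈ B, x.1 b = x'.1 b) → φ x = φ x' := by
    intro x x' h
    by_contra hne
    have h1 : (x, x') ∈ ({p : Dual opA opM × Dual opA opM |
      (∀ b ∈ B, p.1.1 b = p.2.1 b) ∧ φ p.1 ≠ φ p.2}) := ⟨h, hne⟩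
    have h2 := hB ▸ h1
    exact h2
  obtain ⟨m0⟩ := (inferInstance : Nonempty M)
  obtain ⟨at', hat⟩ : ∃ at' : (B → M) → M,
      ∀ x : Dual opA opM, φ x = at' (fun b => x.1 b.1) := by
    refine ⟨fun u => if h : ∃ x : Dual opA opM, (fun b : B => x.1 b.1) = u then φ h.choose else m0,
      ?_⟩
    intro x
    have h : ∃ x' : Dual opA opM, (fun b : B => x'.1 b.1) = (fun b : B => x.1 b.1) := ⟨x, rfl⟩
    show φ x = if h : ∃ x' : Dual opA opM, (fun b : B => x'.1 b.1) = (fun b : B => x.1 b.1) then
      φ h.choose else m0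
    rw [dif_pos h]
    refine hB' _ _ fun b hb => ?_
    exact (congrFun h.choose_spec ⟨b, hb⟩).symm
  -- the bad tuples
  obtain ⟨S, hS⟩ := DUA3aux.exists_empty
    (fun S : Finset A => {y : Fin n → A → M |
      (∀ i, ∀ (k : ι) (v : Fin (ar k) → A), (∀ j, v j ∈ Det opM opA (S ∪ B)) →
          y i (opA k v) = opM k (fun j => y i (v j))) ∧
        ∀ c ∈ Det opM opA (S ∪ B), ∃ i, at' (fun b => y i b.1) ≠ y i c})
    (by
      intro S
      have e : {y : Fin n → A → M |
          (∀ i, ∀ (k : ι) (v : Fin (ar k) → A), (∀ j, v j ∈ Det opM opA (S ∪ B)) →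
            y i (opA k v) = opM k (fun j => y i (v j))) ∧
          ∀ c ∈ Det opM opA (S ∪ B), ∃ i, at' (fun b => y i b.1) ≠ y i c} =
          (⋂ i, ⋂ k : ι, ⋂ v : Fin (ar k) → A, ⋂ _ : ∀ j, v j ∈ Det opM opA (S ∪ B),
            {y : Fin n → A → M | y i (opA k v) = opM k (fun j => y i (v j))}) ∩
          ⋂ c ∈ Det opM opA (S ∪ B), ⋃ i, {y : Fin n → A → M | at' (fun b => y i b.1) ≠ y i c} := by
        ext y
        simp only [Set.mem_ofPred_eq, Set.mem_inter_iff, Set.mem_iInter, Set.mem_iUnion]
      rw [e]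
      have hyc : ∀ i (a : A), Continuous fun y : Fin n → A → M => y i a := by
        intro i a
        exact (hcoord a).comp (continuous_apply i)
      refine IsClosed.inter (isClosed_iInter fun i => isClosed_iInter fun k =>
        isClosed_iInter fun v => isClosed_iInter fun _ => ?_)
        (isClosed_iInter fun c => isClosed_iInter fun _ => ?_)
      · exact DUA3aux.isClosed_eq' (hyc i _)
          (DUA3aux.continuous_fin (opM k) (c := fun (y : Fin n → A → M) j => y i (v j))
            fun j => hyc i (v j))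
      · refine isClosed_iUnion_of_finite fun i => ?_
        exact DUA3aux.isClosed_ne
          (DUA3aux.continuous_fin at' (c := fun (y : Fin n → A → M) (b : B) => y i b.1)
            fun b => hyc i b.1) (hyc i c))
    (by
      intro S S' hSS y hy
      have hD : Det opM opA (S ∪ B) ⊆ Det opM opA (S' ∪ B) := by
        rintro a ⟨t, ht⟩
        refine ⟨fun u => t (fun s => u ⟨s.1, Finset.union_subset_union_left hSS s.2⟩), ?_⟩
        intro x
        exact ht x
      exact ⟨fun i k v hv => hy.1 i k v fun j => hD (hv j), fun c hc => hy.2 c (hD hc)⟩)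
    (by
      intro y
      by_contra h
      push Not at h
      have hmem : ∀ (S : Finset A) (a : A), a ∈ S → a ∈ Det opM opA (S ∪ B) := by
        intro S a ha
        exact ⟨fun u => u ⟨a, Finset.mem_union_left _ ha⟩, fun _ => rfl⟩
      have hhom : ∀ i, IsHom opA opM (y i) := by
        intro i k v
        refine (h (Finset.univ.image v)).1 i k v fun j => hmem _ _ ?_
        exact Finset.mem_image_of_mem v (Finset.mem_univ j)
      obtain ⟨a, ha⟩ := hloc fun i => ⟨y i, hhom i⟩
      obtain ⟨i, hi⟩ := (h {a}).2 a (hmem _ _ (Finset.mem_singleton_self a))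
      apply hi
      have h1 : φ ⟨y i, hhom i⟩ = y i a := ha i
      rw [← h1]
      exact (hat ⟨y i, hhom i⟩).symm)
  refine ⟨B, S ∪ B, at', Finset.subset_union_right, hat, ?_⟩
  intro y hy
  by_contra hno
  push Not at hno
  have h1 : y ∈ ({y : Fin n → A → M |
      (∀ i, ∀ (k : ι) (v : Fin (ar k) → A), (∀ j, v j ∈ Det opM opA (S ∪ B)) →
          y i (opA k v) = opM k (fun j => y i (v j))) ∧
        ∀ c ∈ Det opM opA (S ∪ B), ∃ i, at' (fun b => y i b.1) ≠ y i c}) := ⟨hy, hno⟩
  have h2 := hS ▸ h1
  exact h2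

end Pool.Agent.Helper70.DU
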