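import Pool.Agent.Helper70.DU.Defs2
import Pool.Agent.Helper70.DU.St.A2
import Pool.Agent.Helper70.DU.St.A3

namespace Pool.Agent.Helper70.DU

universe u

namespace DUA4aux

/-- The tuple of values of homomorphisms forms a subalgebra. -/
theorem values_subalg {ι : Type} {ar : ι → ℕ} {M : Type} {A : Type u} [Nonempty A]
    (opM : ∀ i, (Fin (ar i) → M) → M) (opA : ∀ i, (Fin (ar i) → A) → A) {n : ℕ}
    (x : Fin n → Dual opA opM) :
    IsSubalg opM {v : Fin n → M | ∃ a : A, ∀ i, v i = (x i).1 a} := by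
  refine ⟨⟨fun i => (x i).1 (Classical.arbitrary A), Classical.arbitrary A, fun i => rfl⟩, ?_⟩
  intro i v hv
  choose a ha using hv
  refine ⟨opA i a, fun j => ?_⟩
  rw [(x j).2 i a]
  simp only [ha]

end DUA4aux

/-- DU-A4. The local property implies dualisability (all `n`-ary subalgebras as relations).
Uses A2, A3. -/
theorem dual_of_local {ι : Type} {ar : ι → ℕ} {M : Type} [Finite M] [Nonempty M]
    [TopologicalSpace M] [DiscreteTopology M] (opM : ∀ i, (Fin (ar i) → M) → M)
    (h : LocalProp opM) :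
    ∃ E : AlterEgo M, E.FiniteType ∧ E.Algebraic opM ∧ AlterEgo.Yields.{u} E opM := by
  classical
  obtain ⟨n, hn⟩ := h
  let RL : Set (Σ n : ℕ, Set (Fin n → M)) :=
    {x | ∃ r : Set (Fin n → M), IsSubalg opM r ∧ x = ⟨n, r⟩}
  have hRL : ∀ (m : ℕ) (r : Set (Fin m → M)), (⟨m, r⟩ : Σ n : ℕ, Set (Fin n → M)) ∈ RL →
      IsSubalg opM r := by
    rintro m r ⟨r', h2, h3⟩
    cases h3
    exact h2
  have hRL2 : ∀ (r : Set (Fin n → M)), IsSubalg opM r →
      (⟨n, r⟩ : Σ n : ℕ, Set (Fin n → M)) ∈ RL := fun r hr => ⟨r, hr, rfl⟩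
  have hRLfin : RL.Finite := by
    have h1 : (Set.range (fun r : Set (Fin n → M) => (⟨n, r⟩ : Σ n : ℕ, Set (Fin n → M)))).Finite :=
      Set.finite_range _
    refine h1.subset ?_
    rintro x ⟨r, _, rfl⟩
    exact ⟨r, rfl⟩
  refine ⟨⟨∅, ∅, RL⟩, ⟨Set.finite_empty, Set.finite_empty, hRLfin⟩, ?_, ?_⟩
  · intro m r hr
    rcases hr with ⟨g, hg, _⟩ | ⟨g, hg, _⟩ | hr
    · exact absurd hg (by simp)
    · exact absurd hg (by simp)
    · exact hRL m r hr
  · intro A opA hISP φ hφ hpres
    have hA : Nonempty A := hISP.1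
    have hloc : ∀ x : Fin n → Dual opA opM, ∃ a : A, ∀ i, φ (x i) = (x i).1 a := by
      intro x
      have h1 := hpres n _ (Or.inr (Or.inr (hRL2 _ (DUA4aux.values_subalg opM opA x)))) x
        (fun a => ⟨a, fun i => rfl⟩)
      exact h1
    obtain ⟨B, S, at', hBS, hat, hy⟩ := compact_step opM opA φ hφ n hloc
    have hDne : (Det opM opA S).Nonempty := by
      by_contra hne
      have hemp : ∀ a, a ∉ Det opM opA S := fun a ha => hne ⟨a, ha⟩
      obtain ⟨c, hc, _⟩ := hy (fun _ _ => Classical.arbitrary M)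
        (fun i k v hv => absurd (det_op opM opA S k v hv) (hemp _))
      exact hemp c hc
    have hDfin := det_finite opM opA hISP S
    have hF : Finite (Det opM opA S) := hDfin
    obtain ⟨k, ⟨e0⟩⟩ := Finite.exists_equiv_fin (Det opM opA S)
    let e : Fin k ≃ Det opM opA S := e0.symm
    let opC : ∀ i, (Fin (ar i) → Fin k) → Fin k := fun i v =>
      e.symm ⟨opA i (fun j => (e (v j)).1), det_op opM opA S i _ (fun j => (e (v j)).2)⟩
    have hopC : ∀ i v, (e (opC i v)).1 = opA i (fun j => (e (v j)).1) := by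
      intro i v
      simp only [opC, Equiv.apply_symm_apply]
    -- restriction of homomorphisms
    have hres : ∀ x : Dual opA opM, IsHom opC opM (fun c => x.1 (e c).1) := by
      intro x i v
      simp only [hopC]
      exact x.2 i _
    let res : Dual opA opM → Dual opC opM := fun x => ⟨fun c => x.1 (e c).1, hres x⟩
    have hISPC : InISP opM opC := by
      refine ⟨⟨e.symm ⟨hDne.choose, hDne.choose_spec⟩⟩, Dual opC opM, fun c x => x.1 c, ?_,
        fun x => x.2⟩
      intro c c' hcc
      obtain ⟨_, I, emb, hinj, hhom⟩ := hISP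
      apply e.injective
      apply Subtype.ext
      apply hinj
      funext i
      have := congrFun hcc (res ⟨fun a => emb a i, hhom i⟩)
      exact this
    let ψ : Dual opC opM → M := fun y =>
      at' (fun b => y.1 (e.symm ⟨b.1, det_mem opM opA S b.1 (hBS b.2)⟩))
    have hψ : ∀ y : Fin n → Dual opC opM, ∃ c : Fin k, ∀ i, ψ (y i) = (y i).1 c := by
      intro y
      let y' : Fin n → A → M := fun i a =>
        if h : a ∈ Det opM opA S then (y i).1 (e.symm ⟨a, h⟩) else Classical.arbitrary M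
      have hy'1 : ∀ i a (h : a ∈ Det opM opA S), y' i a = (y i).1 (e.symm ⟨a, h⟩) := by
        intro i a h
        simp only [y', dif_pos h]
      obtain ⟨c, hc, hc2⟩ := hy y' (by
        intro i k' v hv
        rw [hy'1 i _ (det_op opM opA S k' v hv)]
        have h2 : (fun j => y' i (v j)) = fun j => (y i).1 (e.symm ⟨v j, hv j⟩) := by
          funext j
          exact hy'1 i _ (hv j)
        rw [h2, ← (y i).2 k' (fun j => e.symm ⟨v j, hv j⟩)]
        congr 1
        simp only [opC, Equiv.apply_symm_apply])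
      refine ⟨e.symm ⟨c, hc⟩, fun i => ?_⟩
      rw [← hy'1 i c hc, ← hc2 i]
      simp only [ψ]
      congr 1
      funext b
      rw [hy'1 i b.1 (det_mem opM opA S b.1 (hBS b.2))]
    obtain ⟨c, hc⟩ := hn (Fin k) opC inferInstance hISPC ψ hψ
    refine ⟨(e c).1, fun x => ?_⟩
    rw [hat x]
    have h3 := hc (res x)
    simp only [ψ, res, Equiv.apply_symm_apply] at h3
    exact h3

end Pool.Agent.Helper70.DU
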