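import Pool.Agent.Helper70.DU.Defs

namespace Pool.Agent.Helper70.DU

variable {R : ℕ} {Q W : Type} [DecidableEq Q]

/-- DU-M1. `k` and `r` of a value depend only on `k` and `r` of the arguments. -/
theorem opM_kr (T : Mach R Q W) (o : Op R W) (a b c d a' b' c' d' : El R Q)
    (ha : a.k = a'.k ∧ a.r = a'.r) (hb : b.k = b'.k ∧ b.r = b'.r)
    (hc : c.k = c'.k ∧ c.r = c'.r) (hd : d.k = d'.k ∧ d.r = d'.r) :
    (opM T o a b c d).k = (opM T o a' b' c' d').k ∧
      (opM T o a b c d).r = (opM T o a' b' c' d').r := by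
  obtain ⟨ha1, ha2⟩ := ha
  obtain ⟨hb1, hb2⟩ := hb
  obtain ⟨hc1, hc2⟩ := hc
  obtain ⟨hd1, hd2⟩ := hd
  cases o with
  | instr w =>
    simp only [opM]
    cases T.kind w <;> simp only [instrOp, ha1, ha2, hb1] <;> exact ⟨trivial, trivial⟩
  | _ => simp only [opM, ha1, ha2, hb1, hb2]; exact ⟨trivial, trivial⟩

end Pool.Agent.Helper70.DU
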