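import Pool.Agent.Helper70.DU.Defs

namespace Pool.Agent.Helper70.DU

namespace DUM2aux

variable {R : ℕ} {Q : Type} [DecidableEq Q]

theorem fmeet_self (x : Sym Q) : fmeet x x = x := by simp [fmeet]

theorem fmeet_bot_left (x : Sym Q) : fmeet .bot x = .bot := by
  unfold fmeet
  split_ifs <;> rfl

theorem fmeet_bot_right (x : Sym Q) : fmeet x .bot = .bot := by
  unfold fmeet
  split_ifs with h
  · exact h
  · rfl

theorem fmeet_four (a a' b b' : Sym Q) :
    fmeet (fmeet a a') (fmeet b b') = fmeet (fmeet a b) (fmeet a' b') := by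
  by_cases h1 : a = a'
  · by_cases h2 : b = b'
    · subst h1; subst h2
      rw [fmeet_self, fmeet_self, fmeet_self]
    · subst h1
      have e : fmeet b b' = .bot := by simp [fmeet, h2]
      rw [e, fmeet_bot_right]
      by_cases h3 : a = b
      · subst h3
        have e2 : fmeet a b' = .bot := by simp [fmeet, h2]
        rw [e2, fmeet_bot_right]
      · have e2 : fmeet a b = .bot := by simp [fmeet, h3]
        rw [e2, fmeet_bot_left]
  · have e : fmeet a a' = .bot := by simp [fmeet, h1]
    rw [e, fmeet_bot_left]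
    by_cases h3 : a = b
    · subst h3
      rw [fmeet_self]
      by_cases h4 : a' = b'
      · subst h4
        rw [fmeet_self]
        simp [fmeet, h1]
      · have e2 : fmeet a' b' = .bot := by simp [fmeet, h4]
        rw [e2, fmeet_bot_right]
    · have e2 : fmeet a b = .bot := by simp [fmeet, h3]
      rw [e2, fmeet_bot_left]

/-- strict maps which are injective where they are not `bot` preserve the flat meet. -/
theorem map_fmeet (φ : Sym Q → Sym Q) (hb : φ .bot = .bot)
    (hinj : ∀ x y, φ x = φ y → φ x ≠ .bot → x = y) (x y : Sym Q) :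
    φ (fmeet x y) = fmeet (φ x) (φ y) := by
  by_cases h : x = y
  · subst h
    rw [fmeet_self, fmeet_self]
  · have e : fmeet x y = .bot := by simp [fmeet, h]
    rw [e, hb]
    by_cases h2 : φ x = φ y
    · have h3 : φ x = .bot := by
        by_contra h3
        exact h (hinj x y h2 h3)
      rw [h3, fmeet_bot_left]
    · simp [fmeet, h2]

theorem shiftF_inj (s : Q → Option Q) (w : Flag → Option Flag)
    (hs : ∀ q q' r, s q = some r → s q' = some r → q = q')
    (hw : ∀ z z' r, w z = some r → w z' = some r → z = z') (x y : Sym Q)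
    (h : shiftF s w x = shiftF s w y) (hne : shiftF s w x ≠ .bot) : x = y := by
  have key : ∀ u : Sym Q, shiftF s w u ≠ .bot → ∃ q z q' z', u = .cfg q z ∧ s q = some q' ∧
      w z = some z' ∧ shiftF s w u = .cfg q' z' := by
    intro u hu
    cases u with
    | bot => exact absurd rfl hu
    | dlt => exact absurd rfl hu
    | acc => exact absurd rfl hu
    | cfg q z =>
      cases h1 : s q with
      | none => exact absurd (by simp [shiftF, h1]) hu
      | some q' =>
        cases h2 : w z with
        | none => exact absurd (by simp [shiftF, h1, h2]) hu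
        | some z' => exact ⟨q, z, q', z', rfl, h1, h2, by simp [shiftF, h1, h2]⟩
  obtain ⟨q, z, q', z', hx, h1, h2, h3⟩ := key x hne
  obtain ⟨p, v, p', v', hy, h4, h5, h6⟩ := key y (by rw [← h]; exact hne)
  rw [h3, h6] at h
  injection h with e1 e2
  subst e1; subst e2
  rw [hx, hy, hs q p _ h1 h4, hw z v _ h2 h5]

theorem shiftF_meet (s : Q → Option Q) (w : Flag → Option Flag)
    (hs : ∀ q q' r, s q = some r → s q' = some r → q = q')
    (hw : ∀ z z' r, w z = some r → w z' = some r → z = z') (x y : Sym Q) :
    shiftF s w (fmeet x y) = fmeet (shiftF s w x) (shiftF s w y) :=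
  map_fmeet (shiftF s w) rfl (shiftF_inj s w hs hw) x y

theorem wBuild_inj (u v : K3) : ∀ z z' r, wBuild u v z = some r → wBuild u v z' = some r → z = z' := by
  cases u <;> cases v <;> intro z z' r <;> cases z <;> cases z' <;> cases r <;> simp [wBuild]

theorem wInc_inj (u v : K3) : ∀ z z' r, wInc u v z = some r → wInc u v z' = some r → z = z' := by
  cases u <;> cases v <;> intro z z' r <;> cases z <;> cases z' <;> cases r <;> simp [wInc]

theorem wDec_inj (u v : K3) : ∀ z z' r, wDec u v z = some r → wDec u v z' = some r → z = z' := by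
  cases u <;> cases v <;> intro z z' r <;> cases z <;> cases z' <;> cases r <;> simp [wDec]

theorem wUnb_inj (u v : K3) : ∀ z z' r, wUnb u v z = some r → wUnb u v z' = some r → z = z' := by
  cases u <;> cases v <;> intro z z' r <;> cases z <;> cases z' <;> cases r <;> simp [wUnb]

theorem some_inj' {α : Type} : ∀ z z' r : α, some z = some r → some z' = some r → z = z' := by
  intro z z' r h1 h2
  rw [Option.some.injEq] at h1 h2
  rw [h1, h2]

theorem finF_meet (qh : Q) (k : K3) (x y : Sym Q) :
    finF qh k (fmeet x y) = fmeet (finF qh k x) (finF qh k y) := by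
  refine map_fmeet (finF qh k) rfl ?_ x y
  intro x y h hne
  have key : ∀ u : Sym Q, finF qh k u ≠ .bot → u = .cfg qh (if k = .st then .act else .und) := by
    intro u hu
    cases u with
    | bot => exact absurd rfl hu
    | dlt => exact absurd rfl hu
    | acc => exact absurd rfl hu
    | cfg q z =>
      by_cases h1 : q = qh
      · subst h1
        cases k <;> cases z <;> simp_all [finF]
      · exact absurd (by simp [finF, h1]) hu
  rw [key x hne, key y (by rw [← h]; exact hne)]

theorem ite_fmeet (p : Prop) [Decidable p] (x y : Sym Q) :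
    (if p then fmeet x y else .bot) = fmeet (if p then x else .bot) (if p then y else .bot) := by
  split_ifs
  · rfl
  · exact (fmeet_self _).symm

theorem fmeet_eq_acc (x y : Sym Q) : fmeet x y = .acc ↔ x = .acc ∧ y = .acc := by
  unfold fmeet
  split_ifs with h
  · subst h; simp
  · constructor
    · intro h'
      exact absurd h' (by simp)
    · rintro ⟨h1, h2⟩
      exact absurd (h1.trans h2.symm) h

theorem instr_meet (s : Q → Option Q) (hs : ∀ q q' r, s q = some r → s q' = some r → q = q')
    (kd : Kind R) (a c a' c' : El R Q) (ha : a.k = a'.k ∧ a.r = a'.r)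
    (hc : c.k = c'.k ∧ c.r = c'.r) :
    instrOp s kd (meet a a') (meet c c') = meet (instrOp s kd a c) (instrOp s kd a' c') := by
  obtain ⟨ak, ar, af⟩ := a
  obtain ⟨ak', ar', af'⟩ := a'
  obtain ⟨ck, cr, cf⟩ := c
  obtain ⟨ck', cr', cf'⟩ := c'
  obtain ⟨h1, h2⟩ := ha
  obtain ⟨h3, h4⟩ := hc
  dsimp only at h1 h2 h3 h4
  subst h1; subst h2; subst h3; subst h4
  cases kd with
  | inc i =>
    simp only [instrOp, meet]
    rw [shiftF_meet s _ hs (wInc_inj _ _)]
  | dec i =>
    simp only [instrOp, meet]
    rw [shiftF_meet s _ hs (wDec_inj _ _)]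
  | zero i =>
    simp only [instrOp, meet]
    rw [shiftF_meet s _ hs some_inj', ite_fmeet]
  | copy i j =>
    simp only [instrOp, meet]
    rw [shiftF_meet s _ hs some_inj']

end DUM2aux

open DUM2aux

variable {R : ℕ} {Q W : Type} [DecidableEq Q]

/-- DU-M2. Operations preserve the partial meet. (For `shiftF` use that `T.next w` and all flag maps `wBuild u v`, `wInc u v`, `wDec u v`, `wUnb u v` are injective where defined.) -/
theorem opM_meet (T : Mach R Q W) (o : Op R W) (a b c d a' b' c' d' : El R Q)
    (ha : a.k = a'.k ∧ a.r = a'.r) (hb : b.k = b'.k ∧ b.r = b'.r)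
    (hc : c.k = c'.k ∧ c.r = c'.r) (hd : d.k = d'.k ∧ d.r = d'.r) :
    opM T o (meet a a') (meet b b') (meet c c') (meet d d') =
      meet (opM T o a b c d) (opM T o a' b' c' d') := by
  obtain ⟨ak, ar, af⟩ := a
  obtain ⟨ak', ar', af'⟩ := a'
  obtain ⟨bk, br, bf⟩ := b
  obtain ⟨bk', br', bf'⟩ := b'
  obtain ⟨ck, cr, cf⟩ := c
  obtain ⟨ck', cr', cf'⟩ := c'
  obtain ⟨dk, dr, df⟩ := d
  obtain ⟨dk', dr', df'⟩ := d'
  obtain ⟨h1, h2⟩ := ha
  obtain ⟨h3, h4⟩ := hb
  obtain ⟨h5, h6⟩ := hc
  obtain ⟨h7, h8⟩ := hd
  dsimp only at h1 h2 h3 h4 h5 h6 h7 h8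
  subst h1; subst h2; subst h3; subst h4; subst h5; subst h6; subst h7; subst h8
  cases o with
  | instr w =>
    have hs : ∀ q q' r, T.next w q = some r → T.next w q' = some r → q = q' := T.inj w
    exact instr_meet (T.next w) hs (T.kind w) _ _ _ _ ⟨rfl, rfl⟩ ⟨rfl, rfl⟩
  | comb =>
    simp only [opM, meet]
  | inf =>
    simp only [opM, meet]
  | sup =>
    simp only [opM, meet]
  | pr i =>
    simp only [opM, meet]
  | g =>
    have e := fmeet_self (Q := Q) (if bk = .st then .bot else .dlt)
    exact congrArg (fun z => (⟨ak, ar, z⟩ : El R Q)) e.symm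
  | lab z v w =>
    simp only [opM, meet]
    cases lam z v w (ck, dk)
    · rfl
    · simp only [ite_fmeet]
    · simp only
      rw [fmeet_four, ite_fmeet]
    · simp only [fmeet_self]
  | fix i =>
    simp only [opM, meet, ite_fmeet]
  | merge =>
    simp only [opM, meet]
    by_cases h1 : df = .acc
    · by_cases h2 : df' = .acc
      · have h3 : fmeet df df' = .acc := (fmeet_eq_acc _ _).mpr ⟨h1, h2⟩
        rw [if_pos h3, if_pos h1, if_pos h2]
        split_ifs
        · rfl
        · rw [fmeet_self]
        · rfl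
      · have h3 : fmeet df df' ≠ .acc := fun h => h2 ((fmeet_eq_acc _ _).mp h).2
        rw [if_neg h3, if_neg h2, fmeet_bot_right]
    · have h3 : fmeet df df' ≠ .acc := fun h => h1 ((fmeet_eq_acc _ _).mp h).1
      rw [if_neg h3, if_neg h1, fmeet_bot_left]
  | init =>
    have e := fmeet_self (.cfg T.q0 (if ak = .st then .act else .und))
    exact congrArg (fun z => (⟨ak, fun _ => ak, z⟩ : El R Q)) e.symm
  | build =>
    simp only [opM, meet]
    rw [shiftF_meet some _ some_inj' (wBuild_inj _ _)]
  | unb =>
    simp only [opM, meet]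
    rw [shiftF_meet _ _ _ (wUnb_inj _ _)]
    intro q q' r h1 h2
    split_ifs at h1 h2 with h3 h4
    rw [h3, h4]
  | fin =>
    simp only [opM, meet]
    rw [finF_meet, ite_fmeet]

end Pool.Agent.Helper70.DU
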