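import Pool.Agent.Helper70.DU.Defs

namespace Pool.Agent.Helper70.DU

namespace DUP1aux

theorem toNat_inj {a b : K3} (h : a.toNat = b.toNat) : a = b := by
  cases a <;> cases b <;> simp_all [K3.toNat]

theorem toNat_inf (a b : K3) : (a.inf b).toNat = min a.toNat b.toNat := by
  cases a <;> cases b <;> simp [K3.inf, K3.toNat]

theorem toNat_sup (a b : K3) : (a.sup b).toNat = max a.toNat b.toNat := by
  cases a <;> cases b <;> simp [K3.sup, K3.toNat]

end DUP1aux

variable {R : ℕ} {Q W : Type} [DecidableEq Q]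

/-- DU-P1. (Baker-Pixley with `inf`, `sup`: `w = sup_x inf_y a_xy`, pointwise on `k`.) -/
theorem k_word (T : Mach R Q W) {X : Type} [Finite X] (A : Set (X → El R Q)) (hA : Closed T A)
    (hne : A.Nonempty) (w : X → K3)
    (h2 : ∀ x y, ∃ a ∈ A, (a x).k = w x ∧ (a y).k = w y) : ∃ a ∈ A, ∀ x, (a x).k = w x := by
  classical
  have : Fintype X := Fintype.ofFinite X
  -- infimum
  have hinf : ∀ (x : X) (Y : Finset X), ∃ a ∈ A, (a x).k = w x ∧
      ∀ y ∈ Y, (a y).k.toNat ≤ (w y).toNat := by
    intro x Y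
    induction Y using Finset.induction_on with
    | empty =>
      obtain ⟨a, ha, h, _⟩ := h2 x x
      exact ⟨a, ha, h, fun y hy => absurd hy (Finset.notMem_empty y)⟩
    | insert y0 Y _ ih =>
      obtain ⟨a, ha, hax, haY⟩ := ih
      obtain ⟨b, hb, hbx, hby⟩ := h2 x y0
      refine ⟨_, hA Op.inf a ha b hb a ha a ha, ?_, ?_⟩
      · apply DUP1aux.toNat_inj
        change ((a x).k.inf (b x).k).toNat = _
        rw [DUP1aux.toNat_inf, hax, hbx, min_self]
      · intro y hy
        change ((a y).k.inf (b y).k).toNat ≤ _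
        rw [DUP1aux.toNat_inf]
        rcases Finset.mem_insert.1 hy with rfl | hy
        · exact (min_le_right _ _).trans (by rw [hby])
        · exact (min_le_left _ _).trans (haY y hy)
  have hinf2 : ∀ x : X, ∃ a ∈ A, (a x).k = w x ∧ ∀ y, (a y).k.toNat ≤ (w y).toNat := by
    intro x
    obtain ⟨a, ha, h1, h3⟩ := hinf x Finset.univ
    exact ⟨a, ha, h1, fun y => h3 y (Finset.mem_univ y)⟩
  -- supremum
  have hsup : ∀ Z : Finset X, ∃ a ∈ A, (∀ y, (a y).k.toNat ≤ (w y).toNat) ∧
      ∀ x ∈ Z, (a x).k = w x := by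
    intro Z
    induction Z using Finset.induction_on with
    | empty =>
      rcases isEmpty_or_nonempty X with hX | ⟨⟨x⟩⟩
      · obtain ⟨a, ha⟩ := hne
        exact ⟨a, ha, fun y => hX.elim y, fun x => hX.elim x⟩
      · obtain ⟨a, ha, _, h3⟩ := hinf2 x
        exact ⟨a, ha, h3, fun y hy => absurd hy (Finset.notMem_empty y)⟩
    | insert x0 Z _ ih =>
      obtain ⟨a, ha, haY, haZ⟩ := ih
      obtain ⟨b, hb, hbx, hby⟩ := hinf2 x0
      refine ⟨_, hA Op.sup a ha b hb a ha a ha, ?_, ?_⟩
      · intro y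
        change ((a y).k.sup (b y).k).toNat ≤ _
        rw [DUP1aux.toNat_sup]
        exact max_le (haY y) (hby y)
      · intro x hx
        apply DUP1aux.toNat_inj
        change ((a x).k.sup (b x).k).toNat = _
        rw [DUP1aux.toNat_sup]
        rcases Finset.mem_insert.1 hx with rfl | hx
        · rw [hbx]
          exact max_eq_right (haY x)
        · rw [haZ x hx]
          exact max_eq_left (hby x)
  obtain ⟨a, ha, _, h⟩ := hsup Finset.univ
  exact ⟨a, ha, fun x => h x (Finset.mem_univ x)⟩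

end Pool.Agent.Helper70.DU
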