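import Pool.Agent.Helper70.DU.Defs

namespace Pool.Agent.Helper70.DU

variable {R : ℕ} {Q W : Type} [DecidableEq Q]

/-- DU-P10. Extraction of a long chain. `N` bounds the number of values of `f`. (`s ↦ (f s, restrictions)` is injective on `S`, so there are at least `κ + 1` restrictions of `k`-words to `S`; they are strictly totally ordered by `Vw`.) -/
theorem chain_exists {X : Type} (A : Set (X → El R Q)) (S : Finset X) (al : X → El R Q)
    [Fintype (Sym Q)] (κ : ℕ) (hcard : Fintype.card (Sym Q) * 3 ^ (κ + 1) < S.card)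
    (hsep : ∀ y ∈ S, ∀ y' ∈ S, y ≠ y' → (al y).f = (al y').f → Sep A y y')
    (htri : ∀ k ∈ A, ∀ k' ∈ A, (∀ s ∈ S, (k s).k = (k' s).k) ∨
      (∀ s ∈ S, Vw (k s).k (k' s).k) ∨ (∀ s ∈ S, Vw (k' s).k (k s).k))
    (h3 : ∀ k ∈ A, ∃ s ∈ S, (k s).k = .st) :
    ∃ ch : ℕ → X → El R Q, (∀ j ≤ κ, ch j ∈ A) ∧
      ∀ i j, i < j → j ≤ κ → ∀ s ∈ S, Vw (ch i s).k (ch j s).k := by
  classical
  let Wt : Type := {w : S → K3 // ∃ k ∈ A, ∀ s : S, w s = (k s).k}
  have : Finite Wt := Subtype.finite
  let _ : Fintype Wt := Fintype.ofFinite Wt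
  let r : Wt → Wt → Prop := fun w w' => ∀ s, Vw (w.1 s) (w'.1 s)
  have hirr : ∀ w : Wt, ¬ r w w := by
    rintro ⟨w, k, hk, hw⟩ h
    obtain ⟨s, hs, hst⟩ := h3 k hk
    have h1 := h ⟨s, hs⟩
    have h2 : w ⟨s, hs⟩ = K3.st := by rw [hw]; exact hst
    change Vw (w ⟨s, hs⟩) (w ⟨s, hs⟩) at h1
    rw [h2] at h1
    rcases h1 with h1 | h1 <;> cases h1
  have htrans : ∀ w₁ w₂ w₃ : Wt, r w₁ w₂ → r w₂ w₃ → r w₁ w₃ := by
    intro w₁ w₂ w₃ h12 h23 s
    rcases h12 s with h | h
    · exact Or.inl h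
    · rcases h23 s with h' | h'
      · rw [h] at h'
        cases h'
      · exact Or.inr h'
  have htri' : ∀ w w' : Wt, r w w' ∨ w = w' ∨ r w' w := by
    rintro ⟨w, k, hk, hw⟩ ⟨w', k', hk', hw'⟩
    rcases htri k hk k' hk' with h | h | h
    · refine Or.inr (Or.inl (Subtype.ext (funext fun s => ?_)))
      show w s = w' s
      rw [hw, hw', h s s.2]
    · refine Or.inl fun s => ?_
      show Vw (w s) (w' s)
      rw [hw, hw']
      exact h s s.2
    · refine Or.inr (Or.inr fun s => ?_)
      show Vw (w' s) (w s)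
      rw [hw, hw']
      exact h s s.2
  have hSTO : IsStrictTotalOrder Wt r :=
    { irrefl := hirr
      trans := htrans
      trichotomous := fun a b h1 h2 => by
        rcases htri' a b with h | h | h
        · exact absurd h h1
        · exact h
        · exact absurd h h2 }
  let _ : LinearOrder Wt := linearOrderOfSTO r
  -- the number of restrictions
  have hcardW : κ + 1 < Fintype.card Wt := by
    let F : S → Sym Q × (Wt → K3) := fun s => ((al s).f, fun w => w.1 s)
    have hF : Function.Injective F := by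
      intro s s' hss
      by_contra hne
      have h1 : (al s).f = (al s').f := congrArg Prod.fst hss
      have h2 : (s : X) ≠ s' := fun h => hne (Subtype.ext h)
      obtain ⟨k, hk, hkk⟩ := hsep s s.2 s' s'.2 h2 h1
      apply hkk
      have h3' := congrFun (congrArg Prod.snd hss) (⟨fun x => (k x).k, k, hk, fun _ => rfl⟩ : Wt)
      exact h3'
    have h4 := Fintype.card_le_of_injective F hF
    rw [Fintype.card_prod, Fintype.card_fun, Fintype.card_coe] at h4
    have h5 : Fintype.card K3 = 3 := rfl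
    rw [h5] at h4
    by_contra hle
    push Not at hle
    have h6 : 3 ^ Fintype.card Wt ≤ 3 ^ (κ + 1) := Nat.pow_le_pow_right (by norm_num) hle
    have h7 := Nat.mul_le_mul_left (Fintype.card (Sym Q)) h6
    omega
  let n := Fintype.card Wt
  let emb : Fin n ↪o Wt := Finset.univ.orderEmbOfFin (k := n) Finset.card_univ
  have hex : ∀ w : Wt, ∃ k ∈ A, ∀ s : S, w.1 s = (k s).k := fun w => w.2
  choose kk hkA hkk using hex
  have hpos : 0 < n := by omega
  refine ⟨fun j => if h : j < n then kk (emb ⟨j, h⟩) else kk (emb ⟨0, hpos⟩), ?_, ?_⟩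
  · intro j hj
    have hjn : j < n := by omega
    simp only [hjn, dif_pos]
    exact hkA _
  · intro i j hij hj s hs
    have hjn : j < n := by omega
    have hin : i < n := by omega
    simp only [hjn, hin, dif_pos]
    have hlt : emb ⟨i, hin⟩ < emb ⟨j, hjn⟩ := by
      rw [emb.lt_iff_lt]
      exact hij
    have hr : r (emb ⟨i, hin⟩) (emb ⟨j, hjn⟩) := hlt
    have h8 := hr ⟨s, hs⟩
    rw [hkk, hkk] at h8
    exact h8

end Pool.Agent.Helper70.DU
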