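import Pool.Agent.Helper70.DU.Defs

namespace Pool.Agent.Helper70.DU

variable {R : ℕ} {Q W : Type} [DecidableEq Q]

namespace DUP11aux

theorem fl_zero {X : Type} (ch : ℕ → X → El R Q) (s : X) :
    fl ch 0 s = if (ch 0 s).k = K3.st then Flag.act else Flag.und := by
  classical
  unfold fl
  by_cases h : (ch 0 s).k = K3.st
  · rw [if_pos h, if_pos ⟨0, le_refl 0, h⟩]
  · rw [if_neg h, if_neg, if_neg]
    · rintro ⟨h1, h2⟩
      rw [h1] at h2
      exact K3.noConfusion h2
    · rintro ⟨i, hi, hi'⟩
      rw [Nat.le_zero.1 hi] at hi'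
      exact h hi'

/-- the flag if some pointer has its star at `s` -/
theorem fl_star {X : Type} (ch : ℕ → X → El R Q) (s : X) {j i : ℕ} (hi : i ≤ j)
    (h : (ch i s).k = K3.st) : fl ch j s = Flag.act := by
  classical
  unfold fl
  exact if_pos ⟨i, hi, h⟩

/-- one step: the flag after moving the top from `ch j` to `ch (j+1)` -/
theorem wBuild_fl {X : Type} (ch : ℕ → X → El R Q) (s : X) (j : ℕ)
    (hV : ∀ i i', i < i' → i' ≤ j + 1 → Vw (ch i s).k (ch i' s).k) :
    wBuild (ch j s).k (ch (j + 1) s).k (fl ch j s) = some (fl ch (j + 1) s) := by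
  classical
  have hj := hV j (j + 1) (Nat.lt_succ_self j) (le_refl _)
  -- if the last pointer is `hi` then all previous are `hi`
  have hhi : (ch j s).k = K3.hi → ∀ i ≤ j, (ch i s).k = K3.hi := by
    intro h i hi
    rcases Nat.lt_or_ge i j with hlt | hge
    · rcases hV i j hlt (Nat.le_succ j) with h1 | h1
      · exact h1
      · rw [h] at h1
        exact K3.noConfusion h1
    · rw [Nat.le_antisymm hi hge]
      exact h
  have hund : (ch j s).k = K3.hi → fl ch j s = Flag.und := by
    intro h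
    unfold fl
    rw [if_neg, if_neg]
    · rintro ⟨-, h2⟩
      rw [h] at h2
      exact K3.noConfusion h2
    · rintro ⟨i, hi, hi'⟩
      rw [hhi h i hi] at hi'
      exact K3.noConfusion hi'
  -- equal non-star views do not change the flag
  have hkeep : (ch (j + 1) s).k = (ch j s).k → (ch j s).k ≠ K3.st →
      fl ch (j + 1) s = fl ch j s := by
    intro h h'
    unfold fl
    have h1 : (∃ i ≤ j + 1, (ch i s).k = K3.st) ↔ ∃ i ≤ j, (ch i s).k = K3.st := by
      constructor
      · rintro ⟨i, hi, hi'⟩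
        rcases Nat.lt_or_ge i (j + 1) with hlt | hge
        · exact ⟨i, Nat.le_of_lt_succ hlt, hi'⟩
        · rw [Nat.le_antisymm hi hge, h] at hi'
          exact (h' hi').elim
      · rintro ⟨i, hi, hi'⟩
        exact ⟨i, Nat.le_succ_of_le hi, hi'⟩
    rw [h]
    by_cases h2 : ∃ i ≤ j, (ch i s).k = K3.st
    · rw [if_pos h2, if_pos (h1.2 h2)]
    · rw [if_neg h2, if_neg fun h3 => h2 (h1.1 h3)]
  rcases hu : (ch j s).k with _ | _ | _
  · -- lo
    rcases hv : (ch (j + 1) s).k with _ | _ | _
    · rw [hkeep (by rw [hu, hv]) (by rw [hu]; exact fun h => K3.noConfusion h)]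
      rfl
    · rw [hu, hv] at hj
      rcases hj with h | h <;> exact K3.noConfusion h
    · rw [hu, hv] at hj
      rcases hj with h | h <;> exact K3.noConfusion h
  · -- st
    rw [fl_star ch s (le_refl j) hu, fl_star ch s (Nat.le_succ j) hu]
    rcases hv : (ch (j + 1) s).k with _ | _ | _
    · rfl
    · rw [hu, hv] at hj
      rcases hj with h | h <;> exact K3.noConfusion h
    · rw [hu, hv] at hj
      rcases hj with h | h <;> exact K3.noConfusion h
  · -- hi
    rcases hv : (ch (j + 1) s).k with _ | _ | _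
    · rw [hund hu]
      have h1 : fl ch (j + 1) s = Flag.pas := by
        unfold fl
        rw [if_neg, if_pos ⟨hhi hu 0 (Nat.zero_le j), hv⟩]
        rintro ⟨i, hi, hi'⟩
        rcases Nat.lt_or_ge i (j + 1) with hlt | hge
        · rw [hhi hu i (Nat.le_of_lt_succ hlt)] at hi'
          exact K3.noConfusion hi'
        · rw [Nat.le_antisymm hi hge, hv] at hi'
          exact K3.noConfusion hi'
      rw [h1]
      rfl
    · rw [hund hu, fl_star ch s (le_refl (j + 1)) hv]
      rfl
    · rw [hkeep (by rw [hu, hv]) (by rw [hu]; exact fun h => K3.noConfusion h)]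
      rfl

end DUP11aux

open DUP11aux in
/-- DU-P11. Building the tape. -/
theorem sim_build (T : Mach R Q W) {X : Type} (A : Set (X → El R Q)) (hA : Closed T A)
    (S : Finset X) (ch : ℕ → X → El R Q) (κ : ℕ) (hch : ∀ j ≤ κ, ch j ∈ A)
    (hV : ∀ i j, i < j → j ≤ κ → ∀ s ∈ S, Vw (ch i s).k (ch j s).k) :
    ∃ e ∈ A, ∀ s ∈ S, (e s).r .b = (ch 0 s).k ∧ (e s).r .t = (ch κ s).k ∧
      (∀ i, (e s).r (.c i) = (ch 0 s).k) ∧ (e s).f = .cfg T.q0 (fl ch κ s) := by
  have key : ∀ j, j ≤ κ → ∃ e ∈ A, ∀ s ∈ S, (e s).r .b = (ch 0 s).k ∧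
      (e s).r .t = (ch j s).k ∧ (∀ i, (e s).r (.c i) = (ch 0 s).k) ∧
      (e s).f = .cfg T.q0 (fl ch j s) := by
    intro j
    induction j with
    | zero =>
      intro hj
      have h0 := hch 0 hj
      refine ⟨_, hA .init _ h0 _ h0 _ h0 _ h0, fun s _ => ⟨rfl, rfl, fun _ => rfl, ?_⟩⟩
      rw [fl_zero]
      rfl
    | succ j ih =>
      intro hj
      obtain ⟨e, he, hes⟩ := ih (Nat.le_of_succ_le hj)
      have h1 := hch (j + 1) hj
      refine ⟨_, hA .build e he _ h1 _ h1 _ h1, fun s hs => ?_⟩
      obtain ⟨e1, e2, e3, e4⟩ := hes s hs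
      refine ⟨?_, ?_, ?_, ?_⟩
      · show Function.update (e s).r .t (ch (j + 1) s).k .b = _
        rw [Function.update_of_ne (by rintro ⟨⟩)]
        exact e1
      · show Function.update (e s).r .t (ch (j + 1) s).k .t = _
        rw [Function.update_self]
      · intro i
        show Function.update (e s).r .t (ch (j + 1) s).k (.c i) = _
        rw [Function.update_of_ne (by rintro ⟨⟩)]
        exact e3 i
      · show shiftF some (wBuild ((e s).r .t) (ch (j + 1) s).k) (e s).f = _
        rw [e4, e2]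
        show (match some T.q0, wBuild (ch j s).k (ch (j + 1) s).k (fl ch j s) with
          | some q', some z' => Sym.cfg q' z'
          | _, _ => .bot) = _
        rw [wBuild_fl ch s j fun i i' hi hi' => hV i i' hi (le_trans hi' hj) s hs]
  exact key κ (le_refl κ)

end Pool.Agent.Helper70.DU
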