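import Pool.Agent.Helper70.DU.Defs
import Pool.Agent.Helper70.DU.St.P11

namespace Pool.Agent.Helper70.DU

variable {R : ℕ} {Q W : Type} [DecidableEq Q]

namespace DUP12aux

theorem fl_act {X : Type} (ch : ℕ → X → El R Q) (κ : ℕ) (s : X) {j : ℕ} (hj : j ≤ κ)
    (h : (ch j s).k = .st) : fl ch κ s = .act := by
  unfold fl
  rw [if_pos ⟨j, hj, h⟩]

theorem fl_pas {X : Type} (ch : ℕ → X → El R Q) (κ : ℕ) (s : X)
    (hV : ∀ i j, i < j → j ≤ κ → Vw (ch i s).k (ch j s).k) {j : ℕ} (hj : j + 1 ≤ κ)
    (h1 : (ch j s).k = .hi) (h2 : (ch (j + 1) s).k = .lo) : fl ch κ s = .pas := by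
  have hlow : ∀ i ≤ j, (ch i s).k = .hi := by
    intro i hi
    rcases Nat.lt_or_ge i j with h | h
    · rcases hV i j h (by omega) with h3 | h3
      · exact h3
      · rw [h1] at h3; exact absurd h3 (by decide)
    · have : i = j := by omega
      rw [this]; exact h1
  have hup : ∀ i, j + 1 ≤ i → i ≤ κ → (ch i s).k = .lo := by
    intro i hi hκ
    rcases Nat.lt_or_ge (j + 1) i with h | h
    · rcases hV (j + 1) i h hκ with h3 | h3
      · rw [h2] at h3; exact absurd h3 (by decide)
      · exact h3
    · have : i = j + 1 := by omega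
      rw [this]; exact h2
  unfold fl
  rw [if_neg, if_pos ⟨hlow 0 (Nat.zero_le _), hup κ hj le_rfl⟩]
  rintro ⟨i, hi, h⟩
  rcases Nat.lt_or_ge j i with h3 | h3
  · rw [hup i h3 hi] at h; exact absurd h (by decide)
  · rw [hlow i h3] at h; exact absurd h (by decide)

theorem wInc_ok {X : Type} (ch : ℕ → X → El R Q) (κ : ℕ) (s : X)
    (hV : ∀ i j, i < j → j ≤ κ → Vw (ch i s).k (ch j s).k) {j : ℕ} (hj : j + 1 ≤ κ) :
    wInc (ch j s).k (ch (j + 1) s).k (fl ch κ s) = some (fl ch κ s) := by
  have hv := hV j (j + 1) (by omega) hj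
  rcases h1 : (ch j s).k with _ | _ | _ <;> rcases h2 : (ch (j + 1) s).k with _ | _ | _
  · rfl
  · rw [h1, h2] at hv
    rcases hv with h | h <;> exact absurd h (by decide)
  · rw [h1, h2] at hv
    rcases hv with h | h <;> exact absurd h (by decide)
  · rw [fl_act ch κ s (by omega) h1]; rfl
  · rw [h1, h2] at hv
    rcases hv with h | h <;> exact absurd h (by decide)
  · rw [h1, h2] at hv
    rcases hv with h | h <;> exact absurd h (by decide)
  · rw [fl_pas ch κ s hV hj h1 h2]; rfl
  · rw [fl_act ch κ s hj h2]; rfl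
  · rfl

theorem wDec_ok {X : Type} (ch : ℕ → X → El R Q) (κ : ℕ) (s : X)
    (hV : ∀ i j, i < j → j ≤ κ → Vw (ch i s).k (ch j s).k) {j : ℕ} (hj : j + 1 ≤ κ) :
    wDec (ch (j + 1) s).k (ch j s).k (fl ch κ s) = some (fl ch κ s) := by
  have hv := hV j (j + 1) (by omega) hj
  rcases h1 : (ch j s).k with _ | _ | _ <;> rcases h2 : (ch (j + 1) s).k with _ | _ | _
  · rfl
  · rw [h1, h2] at hv
    rcases hv with h | h <;> exact absurd h (by decide)
  · rw [h1, h2] at hv
    rcases hv with h | h <;> exact absurd h (by decide)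
  · rw [fl_act ch κ s (by omega) h1]; rfl
  · rw [h1, h2] at hv
    rcases hv with h | h <;> exact absurd h (by decide)
  · rw [h1, h2] at hv
    rcases hv with h | h <;> exact absurd h (by decide)
  · rw [fl_pas ch κ s hV hj h1 h2]; rfl
  · rw [fl_act ch κ s hj h2]; rfl
  · rfl

end DUP12aux

open DUP12aux in
/-- DU-P12. Running the machine on the tape. -/
theorem sim_run (T : Mach R Q W) {X : Type} (A : Set (X → El R Q)) (hA : Closed T A)
    (S : Finset X) (ch : ℕ → X → El R Q) (κ : ℕ) (hch : ∀ j ≤ κ, ch j ∈ A)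
    (hV : ∀ i j, i < j → j ≤ κ → ∀ s ∈ S, Vw (ch i s).k (ch j s).k)
    (q : Q) (c : Fin R → ℕ) (hr : Reach T (some κ) q c) :
    ∃ e ∈ A, ∀ s ∈ S, (e s).r .b = (ch 0 s).k ∧ (e s).r .t = (ch κ s).k ∧
      (∀ i, (e s).r (.c i) = (ch (c i) s).k) ∧ (e s).f = .cfg q (fl ch κ s) := by
  have hle : ∀ i, c i ≤ κ := by
    cases hr with
    | start => intro i; exact Nat.zero_le _
    | step q0 _ c0 _ w h1 h2 h3 h4 => exact h4 κ rfl
  induction hr with
  | start => exact sim_build T A hA S ch κ hch hV
  | step q q' c c' w hr hn hk hb ih =>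
    have hle0 : ∀ i, c i ≤ κ := by
      cases hr with
      | start => intro i; exact Nat.zero_le _
      | step q0 _ c0 _ w h1 h2 h3 h4 => exact h4 κ rfl
    obtain ⟨e, heA, he⟩ := ih hle0
    cases hkd : T.kind w with
    | inc i =>
      rw [hkd] at hk
      have hc' : c' = Function.update c i (c i + 1) := hk
      have hi : c i + 1 ≤ κ := by
        have := hle i
        rw [hc', Function.update_self] at this
        exact this
      refine ⟨_, hA (.instr w) e heA (ch (c i + 1)) (hch _ hi) e heA e heA, ?_⟩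
      intro s hs
      obtain ⟨hb1, ht1, hc1, hf1⟩ := he s hs
      have hV' : ∀ i j, i < j → j ≤ κ → Vw (ch i s).k (ch j s).k :=
        fun i j h1 h2 => hV i j h1 h2 s hs
      simp only [opM, hkd, instrOp]
      refine ⟨?_, ?_, ?_, ?_⟩
      · rw [Function.update_of_ne (by simp), hb1]
      · rw [Function.update_of_ne (by simp), ht1]
      · intro l
        by_cases h : l = i
        · subst h
          rw [Function.update_self, hc', Function.update_self]
        · rw [Function.update_of_ne (by simpa using h), hc1, hc', Function.update_of_ne h]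
      · rw [hf1, hc1, shiftF]
        simp only [hn, wInc_ok ch κ s hV' hi]
    | dec i =>
      rw [hkd] at hk
      obtain ⟨hpos, hc'⟩ : 0 < c i ∧ c' = Function.update c i (c i - 1) := hk
      have hi : c i - 1 + 1 ≤ κ := by
        have := hle0 i
        omega
      refine ⟨_, hA (.instr w) e heA (ch (c i - 1)) (hch _ (by omega)) e heA e heA, ?_⟩
      intro s hs
      obtain ⟨hb1, ht1, hc1, hf1⟩ := he s hs
      have hV' : ∀ i j, i < j → j ≤ κ → Vw (ch i s).k (ch j s).k :=
        fun i j h1 h2 => hV i j h1 h2 s hs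
      simp only [opM, hkd, instrOp]
      refine ⟨?_, ?_, ?_, ?_⟩
      · rw [Function.update_of_ne (by simp), hb1]
      · rw [Function.update_of_ne (by simp), ht1]
      · intro l
        by_cases h : l = i
        · subst h
          rw [Function.update_self, hc', Function.update_self]
        · rw [Function.update_of_ne (by simpa using h), hc1, hc', Function.update_of_ne h]
      · have h5 := wDec_ok ch κ s hV' hi
        have h6 : c i - 1 + 1 = c i := by omega
        rw [h6] at h5
        rw [hf1, hc1, shiftF]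
        simp only [hn, h5]
    | zero i =>
      rw [hkd] at hk
      obtain ⟨hz, hc'⟩ : c i = 0 ∧ c' = c := hk
      refine ⟨_, hA (.instr w) e heA e heA e heA e heA, ?_⟩
      intro s hs
      obtain ⟨hb1, ht1, hc1, hf1⟩ := he s hs
      simp only [opM, hkd, instrOp]
      refine ⟨hb1, ht1, ?_, ?_⟩
      · intro l
        rw [hc1, hc']
      · rw [if_pos (by rw [hc1, hz, hb1]), hf1, shiftF]
        simp only [hn]
    | copy i j =>
      rw [hkd] at hk
      have hc' : c' = Function.update c i (c j) := hk
      refine ⟨_, hA (.instr w) e heA e heA e heA e heA, ?_⟩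
      intro s hs
      obtain ⟨hb1, ht1, hc1, hf1⟩ := he s hs
      simp only [opM, hkd, instrOp]
      refine ⟨?_, ?_, ?_, ?_⟩
      · rw [Function.update_of_ne (by simp), hb1]
      · rw [Function.update_of_ne (by simp), ht1]
      · intro l
        by_cases h : l = i
        · subst h
          rw [Function.update_self, hc', Function.update_self, hc1]
        · rw [Function.update_of_ne (by simpa using h), hc1, hc', Function.update_of_ne h]
      · rw [hf1, shiftF]
        simp only [hn]

end Pool.Agent.Helper70.DU
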