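import Pool.Agent.Helper70.DU.Defs

namespace Pool.Agent.Helper70.DU

variable {R : ℕ} {Q W : Type} [DecidableEq Q]

namespace DUP14aux

omit [DecidableEq Q] in
theorem mono {T : Mach R Q W} {κ κ' : ℕ} (hκ : κ ≤ κ') {q : Q} {c : Fin R → ℕ}
    (h : Reach T (some κ) q c) : Reach T (some κ') q c := by
  induction h with
  | start => exact Reach.start
  | step q q' c c' w _ hn hk hb ih =>
    refine Reach.step q q' c c' w ih hn hk ?_
    intro n hn' i
    rw [Option.mem_def, Option.some.injEq] at hn'
    subst hn'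
    exact (hb κ rfl i).trans hκ

omit [DecidableEq Q] in
theorem bdd {T : Mach R Q W} {q : Q} {c : Fin R → ℕ} (h : Reach T none q c) :
    ∃ κ, Reach T (some κ) q c := by
  induction h with
  | start => exact ⟨0, Reach.start⟩
  | step q q' c c' w _ hn hk _ ih =>
    obtain ⟨κ, hκ⟩ := ih
    refine ⟨κ + ∑ i, c' i, Reach.step q q' c c' w (mono (Nat.le_add_right _ _) hκ) hn hk ?_⟩
    intro n hn' i
    rw [Option.mem_def, Option.some.injEq] at hn'
    subst hn'
    exact (Finset.single_le_sum (f := c') (fun _ _ => Nat.zero_le _) (Finset.mem_univ i)).trans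
      (Nat.le_add_left _ _)

end DUP14aux

/-- DU-P14. A halting machine halts within bounded registers. -/
theorem halts_bdd (T : Mach R Q W) (hT : Halts T) : ∃ κ c, Reach T (some κ) T.qh c := by
  obtain ⟨c, hc⟩ := hT
  obtain ⟨κ, hκ⟩ := DUP14aux.bdd hc
  exact ⟨κ, c, hκ⟩

end Pool.Agent.Helper70.DU
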