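import Pool.Agent.Helper70.DU.Defs

namespace Pool.Agent.Helper70.DU

variable {R : ℕ} {Q W : Type} [DecidableEq Q]

/-- DU-P15. The merge. -/
theorem merge_contra (T : Mach R Q W) {X : Type} (A : Set (X → El R Q)) (hA : Closed T A)
    (al : X → El R Q) (S : Finset X) (hS : ¬ ∃ e ∈ A, Ag al S e) (b : X → X → El R Q)
    (hb : ∀ y, b y ∈ A) (hbr : ∀ y x, (b y x).r = (al x).r)
    (hbf : ∀ y ∈ S, ∀ x ∈ S, x ≠ y → (b y x).f = (al x).f) (k H : X → El R Q) (hk : k ∈ A)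
    (hH : H ∈ A) (hHS : ∀ s ∈ S, (H s).f = .acc) (y y' : X) (hy : y ∈ S) (hy' : y' ∈ S)
    (hky : (k y).k = .st) (hky' : (k y').k ≠ .st) : False := by
  classical
  apply hS
  refine ⟨_, hA .merge (b y) (hb y) (b y') (hb y') k hk H hH, ?_⟩
  intro s hs
  have hr : (b y s).r = (b y' s).r := by rw [hbr, hbr]
  refine ⟨hbr y s, ?_⟩
  simp only [opM]
  rw [if_pos (hHS s hs)]
  by_cases hks : (k s).k = .st
  · rw [if_pos hks, if_pos hr]
    exact hbf y' hy' s hs (fun h => hky' (h ▸ hks))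
  · rw [if_neg hks]
    exact hbf y hy s hs (fun h => hks (h ▸ hky))

end Pool.Agent.Helper70.DU
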