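import Pool.Agent.Helper70.DU.Defs

namespace Pool.Agent.Helper70.DU

variable {R : ℕ} {Q W : Type} [DecidableEq Q]

/-- DU-P2. Rebinding all registers with `fix`. -/
theorem rebind (T : Mach R Q W) {X : Type} (A : Set (X → El R Q)) (hA : Closed T A)
    (al : X → El R Q) (kp : Reg R → X → El R Q) (hk : ∀ i, kp i ∈ A)
    (hkp : ∀ i x, (kp i x).k = (al x).r i) (e : X → El R Q) (he : e ∈ A) :
    ∃ e' ∈ A, (∀ x, (e' x).r = (al x).r) ∧ ∀ x, (e x).r = (al x).r → (e' x).f = (e x).f := by
  classical
  have key : ∀ S : Finset (Reg R), ∃ e' ∈ A, (∀ x, ∀ i ∈ S, (e' x).r i = (al x).r i) ∧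
      (∀ x, ∀ i, i ∉ S → (e' x).r i = (e x).r i) ∧
      ∀ x, (e x).r = (al x).r → (e' x).f = (e x).f := by
    intro S
    induction S using Finset.induction_on with
    | empty => exact ⟨e, he, by simp, by simp, by simp⟩
    | insert i S hi ih =>
      obtain ⟨e', he', h1, h2, h3⟩ := ih
      refine ⟨fun x => opM T (.fix i) (e' x) (kp i x) (e' x) (e' x),
        hA (.fix i) e' he' (kp i) (hk i) e' he' e' he', ?_, ?_, ?_⟩
      · intro x j hj
        change Function.update (e' x).r i (kp i x).k j = _
        by_cases hji : j = i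
        · subst hji
          rw [Function.update_self, hkp]
        · rw [Function.update_of_ne hji]
          exact h1 x j ((Finset.mem_insert.1 hj).resolve_left hji)
      · intro x j hj
        change Function.update (e' x).r i (kp i x).k j = _
        have hji : j ≠ i := fun h => hj (h ▸ Finset.mem_insert_self _ _)
        rw [Function.update_of_ne hji]
        exact h2 x j (fun h => hj (Finset.mem_insert_of_mem h))
      · intro x hx
        change (if (e' x).r i = (kp i x).k then (e' x).f else Sym.bot) = _
        rw [if_pos, h3 x hx]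
        rw [h2 x i hi, hx, hkp]
  obtain ⟨e', he', h1, _, h3⟩ := key Finset.univ
  exact ⟨e', he', fun x => funext fun i => h1 x i (Finset.mem_univ i), h3⟩

end Pool.Agent.Helper70.DU
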