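import Pool.Agent.Helper70.DU.Defs
import Pool.Agent.Helper70.DU.St.P1
import Pool.Agent.Helper70.DU.St.P2

namespace Pool.Agent.Helper70.DU

variable {R : ℕ} {Q W : Type} [DecidableEq Q]

/-- DU-P3. For a minimal bad set there are the words `b_y` with all registers right everywhere. -/
theorem exists_by (T : Mach R Q W) {X : Type} [Finite X] (A : Set (X → El R Q)) (hA : Closed T A)
    (al : X → El R Q) (h2 : Loc A 2 al) (S : Finset X) (hS : MinBad A al S) :
    ∃ b : X → X → El R Q, (∀ y, b y ∈ A) ∧ (∀ y x, (b y x).r = (al x).r) ∧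
      (∀ y ∈ S, ∀ x ∈ S, x ≠ y → (b y x).f = (al x).f) := by
  classical
  rcases isEmpty_or_nonempty X with hX | ⟨⟨x0⟩⟩
  · exact ⟨fun y => (hX.false y).elim, fun y => (hX.false y).elim, fun y => (hX.false y).elim,
      fun y => (hX.false y).elim⟩
  obtain ⟨a0, ha0, -⟩ := h2 (fun _ => x0)
  have hkp : ∀ i : Reg R, ∃ a ∈ A, ∀ x, (a x).k = (al x).r i := by
    intro i
    refine k_word T A hA ⟨a0, ha0⟩ (fun x => (al x).r i) ?_
    intro x y
    obtain ⟨a, ha, hax⟩ := h2 ![x, y]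
    refine ⟨_, hA (.pr i) a ha a ha a ha a ha, ?_, ?_⟩
    · have h0 := hax 0
      simp only [Matrix.cons_val_zero] at h0
      simp only [opM, h0]
    · have h1 := hax 1
      simp only [Matrix.cons_val_one, Matrix.cons_val_fin_one] at h1
      simp only [opM, h1]
  choose kp hkA hkp' using hkp
  have hy : ∀ y : X, ∃ b ∈ A, (∀ x, (b x).r = (al x).r) ∧
      (y ∈ S → ∀ x ∈ S, x ≠ y → (b x).f = (al x).f) := by
    intro y
    by_cases hyS : y ∈ S
    · obtain ⟨e, he, hag⟩ := hS.2 (S.erase y) (Finset.card_erase_lt_of_mem hyS)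
      obtain ⟨e', he', hr, hf⟩ := rebind T A hA al kp hkA hkp' e he
      refine ⟨e', he', hr, fun _ x hx hxy => ?_⟩
      have := hag x (Finset.mem_erase.2 ⟨hxy, hx⟩)
      rw [hf x this.1, this.2]
    · obtain ⟨e', he', hr, hf⟩ := rebind T A hA al kp hkA hkp' a0 ha0
      exact ⟨e', he', hr, fun h => absurd h hyS⟩
  choose b hb1 hb2 hb3 using hy
  exact ⟨b, hb1, hb2, fun y hyS x hx hxy => hb3 y hyS x hx hxy⟩

end Pool.Agent.Helper70.DU
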