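import Pool.Agent.Helper70.DU.Defs

namespace Pool.Agent.Helper70.DU

variable {R : ℕ} {Q W : Type} [DecidableEq Q]

/-- DU-P4. Key lemma: a label function separating `y` (label `R`) from `y'` (label `L`), and never `N` on `S`, contradicts badness. -/
theorem lab_contra (T : Mach R Q W) {X : Type} (A : Set (X → El R Q)) (hA : Closed T A)
    (al : X → El R Q) (S : Finset X) (hS : ¬ ∃ e ∈ A, Ag al S e) (b : X → X → El R Q)
    (hb : ∀ y, b y ∈ A) (hbr : ∀ y x, (b y x).r = (al x).r)
    (hbf : ∀ y ∈ S, ∀ x ∈ S, x ≠ y → (b y x).f = (al x).f) (y y' : X) (hy : y ∈ S) (hy' : y' ∈ S)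
    (hne : y ≠ y') (z : Bool) (v w : K3 × K3) (c d : X → El R Q) (hc : c ∈ A) (hd : d ∈ A)
    (hR : lam z v w ((c y).k, (d y).k) = .R ∨
      (lam z v w ((c y).k, (d y).k) = .B ∧ (al y).f = .bot))
    (hL : lam z v w ((c y').k, (d y').k) = .L ∨
      (lam z v w ((c y').k, (d y').k) = .B ∧ (al y').f = .bot))
    (hN : ∀ s ∈ S, lam z v w ((c s).k, (d s).k) ≠ .N) : False := by
  refine hS ⟨fun x => opM T (.lab z v w) (b y x) (b y' x) (c x) (d x),
    hA _ _ (hb y) _ (hb y') _ hc _ hd, fun x hx => ⟨?_, ?_⟩⟩
  · exact hbr y x
  · have hr : (b y x).r = (b y' x).r := (hbr y x).trans (hbr y' x).symm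
    simp only [opM, if_pos hr]
    by_cases hxy : x = y
    · subst hxy
      have h1 : (b y' x).f = (al x).f := hbf y' hy' x hy hne
      rcases hR with h | ⟨h, h2⟩
      · rw [h]
        exact h1
      · rw [h]
        show fmeet (b x x).f (b y' x).f = (al x).f
        rw [h1, h2]
        unfold fmeet
        split_ifs with h3
        · exact h3
        · rfl
    · have h0 : (b y x).f = (al x).f := hbf y hy x hx hxy
      by_cases hxy' : x = y'
      · subst hxy'
        rcases hL with h | ⟨h, h2⟩
        · rw [h]
          exact h0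
        · rw [h]
          show fmeet (b y x).f (b x x).f = (al x).f
          rw [h0, h2]
          unfold fmeet
          split_ifs with h3
          · rfl
          · rfl
      · have h1 : (b y' x).f = (al x).f := hbf y' hy' x hx hxy'
        have h2 := hN x hx
        rcases h : lam z v w ((c x).k, (d x).k) with _ | _ | _ | _
        · exact h0
        · exact h1
        · show fmeet (b y x).f (b y' x).f = (al x).f
          rw [h0, h1]
          unfold fmeet
          rw [if_pos rfl]
        · exact absurd h h2

end Pool.Agent.Helper70.DU
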