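import Pool.Agent.Helper70.DU.Defs
import Pool.Agent.Helper70.DU.St.P3
import Pool.Agent.Helper70.DU.St.P4

namespace Pool.Agent.Helper70.DU

variable {R : ℕ} {Q W : Type} [DecidableEq Q]

namespace DUP5aux

omit [DecidableEq Q] in
theorem loc_two {X : Type} (A : Set (X → El R Q)) (al : X → El R Q) (h3 : Loc A 3 al) :
    Loc A 2 al := by
  intro x
  obtain ⟨a, ha, hax⟩ := h3 ![x 0, x 1, x 1]
  refine ⟨a, ha, ?_⟩
  intro i
  fin_cases i
  · exact hax 0
  · exact hax 1

theorem lam_same (z : Bool) (v u : K3 × K3) : lam z v v u = Label.B := by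
  unfold lam
  have h : ¬ GoodPair z v v := fun h => h.1 rfl
  rw [if_neg h]

theorem fmeet_eq_of_ne_bot {x y z : Sym Q} (h : fmeet x y = z) (hz : z ≠ .bot) :
    x = z ∧ y = z := by
  unfold fmeet at h
  split_ifs at h with h1
  · exact ⟨h, h1 ▸ h⟩
  · exact absurd h.symm hz

/-- Members of `A` have the same `r` at points which are not separated. -/
theorem r_eq_of_not_sep (T : Mach R Q W) {X : Type} (A : Set (X → El R Q)) (hA : Closed T A)
    (y y' : X) (hns : ∀ a ∈ A, (a y).k = (a y').k) (e : X → El R Q) (he : e ∈ A) :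
    (e y).r = (e y').r := by
  funext i
  have h := hns _ (hA (.pr i) e he e he e he e he)
  simpa [opM] using h

end DUP5aux

/-- DU-P5. In a minimal bad set two different points with the same `f` are separated (if `f = bot` use `lab_contra` with the constant label `B`; if `f ≠ bot` use the meet point). -/
theorem sep_of_eq (T : Mach R Q W) {X : Type} [Finite X] (A : Set (X → El R Q))
    (hA : Closed T A) (hX : HasMeets A) (al : X → El R Q) (h3 : Loc A 3 al) (S : Finset X)
    (hS : MinBad A al S) (y y' : X) (hy : y ∈ S) (hy' : y' ∈ S) (hne : y ≠ y')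
    (hf : (al y).f = (al y').f) : Sep A y y' := by
  classical
  by_cases hbot : (al y).f = .bot
  · exfalso
    obtain ⟨b, hb, hbr, hbf⟩ := exists_by T A hA al (DUP5aux.loc_two A al h3) S hS
    refine lab_contra T A hA al S hS.1 b hb hbr hbf y y' hy hy' hne false (.lo, .lo) (.lo, .lo)
      (b y) (b y) (hb y) (hb y) (Or.inr ⟨DUP5aux.lam_same _ _ _, hbot⟩)
      (Or.inr ⟨DUP5aux.lam_same _ _ _, hf ▸ hbot⟩) ?_
    intro s _
    rw [DUP5aux.lam_same]
    intro h
    cases h
  · by_contra hns
    have hns' : ∀ a ∈ A, (a y).k = (a y').k := by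
      intro a ha
      by_contra hk
      exact hns ⟨a, ha, hk⟩
    obtain ⟨z, hz⟩ := hX y y' hns'
    obtain ⟨a, ha, hax⟩ := h3 ![y, y', z]
    have h1 : a y = al y := hax 0
    have h2 : a y' = al y' := hax 1
    have h4 : a z = al z := hax 2
    have halz : al z = meet (al y) (al y') := by
      rw [← h4, hz a ha, h1, h2]
    have halzf : (al z).f = (al y).f := by
      rw [halz]
      show fmeet (al y).f (al y').f = (al y).f
      unfold fmeet
      rw [if_pos hf]
    have halzr : (al z).r = (al y).r := by
      rw [halz]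
      rfl
    have halr : (al y).r = (al y').r := by
      rw [← h1, ← h2]
      exact DUP5aux.r_eq_of_not_sep T A hA y y' hns' a ha
    have hcard : (insert z ((S.erase y).erase y')).card < S.card := by
      have e1 : (S.erase y).card = S.card - 1 := Finset.card_erase_of_mem hy
      have hy'' : y' ∈ S.erase y := Finset.mem_erase.mpr ⟨hne.symm, hy'⟩
      have e2 : ((S.erase y).erase y').card = (S.erase y).card - 1 :=
        Finset.card_erase_of_mem hy''
      have e3 := Finset.card_insert_le z ((S.erase y).erase y')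
      have e4 : 0 < (S.erase y).card := Finset.card_pos.mpr ⟨y', hy''⟩
      omega
    obtain ⟨e, he, hag⟩ := hS.2 _ hcard
    have hez := hag z (Finset.mem_insert_self _ _)
    have hem := hz e he
    have hef : fmeet (e y).f (e y').f = (al y).f := by
      have h5 : (e z).f = fmeet (e y).f (e y').f := by
        rw [hem]
        rfl
      rw [← h5, hez.2, halzf]
    obtain ⟨hf1, hf2⟩ := DUP5aux.fmeet_eq_of_ne_bot hef hbot
    have her : (e y).r = (al y).r := by
      have h6 : (e z).r = (e y).r := by
        rw [hem]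
        rfl
      rw [← h6, hez.1, halzr]
    have her' : (e y').r = (al y').r := by
      rw [← DUP5aux.r_eq_of_not_sep T A hA y y' hns' e he, her, halr]
    apply hS.1
    refine ⟨e, he, ?_⟩
    intro x hx
    by_cases hxy : x = y
    · subst hxy
      exact ⟨her, hf1⟩
    · by_cases hxy' : x = y'
      · subst hxy'
        exact ⟨her', hf2.trans hf⟩
      · exact hag x (Finset.mem_insert_of_mem
          (Finset.mem_erase.mpr ⟨hxy', Finset.mem_erase.mpr ⟨hxy, hx⟩⟩))

end Pool.Agent.Helper70.DU
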