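import Pool.Agent.Helper70.DU.Defs
import Pool.Agent.Helper70.DU.St.P3
import Pool.Agent.Helper70.DU.St.P4

namespace Pool.Agent.Helper70.DU

variable {R : ℕ} {Q W : Type} [DecidableEq Q]

/-- DU-P6.  -/
theorem no_two_stars (T : Mach R Q W) {X : Type} [Finite X] (A : Set (X → El R Q))
    (hA : Closed T A) (al : X → El R Q) (h2 : Loc A 2 al) (S : Finset X)
    (hS : MinBad A al S) (y y' : X) (hy : y ∈ S) (hy' : y' ∈ S) (hsep : Sep A y y')
    (k : X → El R Q) (hk : k ∈ A) : ¬ ((k y).k = .st ∧ (k y').k = .st) := by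
  rintro ⟨h1, h1'⟩
  obtain ⟨k', hk', hne⟩ := hsep
  obtain ⟨b, hb, hbr, hbf⟩ := exists_by T A hA al h2 S hS
  have hyy : y ≠ y' := by
    rintro rfl
    exact hne rfl
  have hgood : GoodPair false (K3.st, (k' y).k) (K3.st, (k' y').k) := by
    unfold GoodPair
    refine ⟨fun h => hne (congrArg Prod.snd h), ?_⟩
    rw [if_neg (by decide)]
    exact Or.inl ⟨rfl, rfl⟩
  refine lab_contra T A hA al S hS.1 b hb hbr hbf y y' hy hy' hyy false
    (K3.st, (k' y).k) (K3.st, (k' y').k) k k' hk hk' (Or.inl ?_) (Or.inl ?_) ?_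
  · rw [h1]
    unfold lam
    rw [if_pos hgood, if_neg (fun h => absurd h.1 (by decide)), if_pos rfl]
  · rw [h1']
    unfold lam
    rw [if_pos hgood, if_neg (fun h => absurd h.1 (by decide)),
      if_neg (fun h => hne (congrArg Prod.snd h).symm), if_pos rfl]
  · intro s _
    unfold lam
    rw [if_pos hgood, if_neg (fun h => absurd h.1 (by decide))]
    split_ifs <;> decide

end Pool.Agent.Helper70.DU
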