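import Pool.Agent.Helper70.DU.Defs
import Pool.Agent.Helper70.DU.St.P3
import Pool.Agent.Helper70.DU.St.P4

namespace Pool.Agent.Helper70.DU

variable {R : ℕ} {Q W : Type} [DecidableEq Q]

/-- DU-P7.  -/
theorem no_inversion (T : Mach R Q W) {X : Type} [Finite X] (A : Set (X → El R Q))
    (hA : Closed T A) (al : X → El R Q) (h2 : Loc A 2 al) (S : Finset X)
    (hS : MinBad A al S) (y y' : X) (hy : y ∈ S) (hy' : y' ∈ S)
    (k k' : X → El R Q) (hk : k ∈ A) (hk' : k' ∈ A)
    (h1 : (k y).k.toNat < (k y').k.toNat) : ¬ ((k' y').k.toNat < (k' y).k.toNat) := by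
  intro h3
  obtain ⟨b, hb, hbr, hbf⟩ := exists_by T A hA al h2 S hS
  have hne : y ≠ y' := by
    rintro rfl
    exact lt_irrefl _ h1
  have hk12 : (k y).k ≠ (k y').k := by
    intro h
    rw [h] at h1
    exact lt_irrefl _ h1
  have hvw : ((k y).k, (k' y).k) ≠ ((k y').k, (k' y').k) := by
    intro h
    exact hk12 (Prod.ext_iff.mp h).1
  have hgood : GoodPair false ((k y).k, (k' y).k) ((k y').k, (k' y').k) := by
    refine ⟨hvw, ?_⟩
    simp only [Bool.false_eq_true, if_false]
    exact Or.inr ⟨h1, h3⟩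
  refine lab_contra T A hA al S hS.1 b hb hbr hbf y y' hy hy' hne false
    ((k y).k, (k' y).k) ((k y').k, (k' y').k) k k' hk hk' ?_ ?_ ?_
  · left
    unfold lam
    rw [if_pos hgood, if_neg (by simp), if_pos rfl]
  · left
    unfold lam
    rw [if_pos hgood, if_neg (by simp), if_neg (Ne.symm hvw), if_pos rfl]
  · intro s _
    unfold lam
    rw [if_pos hgood, if_neg (by simp)]
    split_ifs <;> simp

end Pool.Agent.Helper70.DU
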