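import Pool.Agent.Helper70.DU.Defs
import Pool.Agent.Helper70.DU.St.P3
import Pool.Agent.Helper70.DU.St.P4

namespace Pool.Agent.Helper70.DU

variable {R : ℕ} {Q W : Type} [DecidableEq Q]

/-- DU-P8.  -/
theorem has_star (T : Mach R Q W) {X : Type} [Finite X] (A : Set (X → El R Q))
    (hA : Closed T A) (al : X → El R Q) (h2 : Loc A 2 al) (S : Finset X)
    (hS : MinBad A al S) (y y' : X) (hy : y ∈ S) (hy' : y' ∈ S) (hsep : Sep A y y')
    (k : X → El R Q) (hk : k ∈ A) : ∃ s ∈ S, (k s).k = .st := by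
  by_contra hno
  have hk1 : ∀ s ∈ S, (k s).k ≠ .st := fun s hs h => hno ⟨s, hs, h⟩
  obtain ⟨k', hk', hsep'⟩ := hsep
  have hne : y ≠ y' := by
    intro h
    subst h
    exact hsep' rfl
  obtain ⟨b, hb, hbr, hbf⟩ := exists_by T A hA al h2 S hS
  have hvw : (((k y).k, (k' y).k) : K3 × K3) ≠ ((k y').k, (k' y').k) := by
    intro h
    exact hsep' (congrArg Prod.snd h)
  have hgood : GoodPair true ((k y).k, (k' y).k) ((k y').k, (k' y').k) := by
    refine ⟨hvw, ?_⟩
    rw [if_pos rfl]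
    exact ⟨hk1 y hy, hk1 y' hy'⟩
  have hlam : ∀ s ∈ S, lam true ((k y).k, (k' y).k) ((k y').k, (k' y').k) ((k s).k, (k' s).k) =
      if ((k s).k, (k' s).k) = ((k y).k, (k' y).k) then Label.R
      else if ((k s).k, (k' s).k) = ((k y').k, (k' y').k) then Label.L else Label.B := by
    intro s hs
    unfold lam
    rw [if_pos hgood, if_neg]
    exact fun h => hk1 s hs h.2
  refine lab_contra T A hA al S hS.1 b hb hbr hbf y y' hy hy' hne true ((k y).k, (k' y).k)
    ((k y').k, (k' y').k) k k' hk hk' (Or.inl ?_) (Or.inl ?_) ?_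
  · rw [hlam y hy, if_pos rfl]
  · rw [hlam y' hy', if_neg (fun h => hvw h.symm), if_pos rfl]
  · intro s hs
    rw [hlam s hs]
    split_ifs <;> exact fun h => nomatch h

end Pool.Agent.Helper70.DU
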