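import Pool.Agent.Helper70.DU.Defs

namespace Pool.Agent.Helper70.DU

variable {R : ℕ} {Q W : Type} [DecidableEq Q]

/-- DU-P9. Trichotomy for `k`-words on `S` (pure combinatorics of the three properties). -/
theorem trich {X : Type} (A : Set (X → El R Q)) (S : Finset X)
    (h1 : ∀ y ∈ S, ∀ y' ∈ S, Sep A y y' → ∀ k ∈ A, ¬ ((k y).k = .st ∧ (k y').k = .st))
    (h2 : ∀ y ∈ S, ∀ y' ∈ S, ∀ k ∈ A, ∀ k' ∈ A, (k y).k.toNat < (k y').k.toNat →
      ¬ ((k' y').k.toNat < (k' y).k.toNat))
    (h3 : ∀ k ∈ A, ∃ s ∈ S, (k s).k = .st) (k k' : X → El R Q) (hk : k ∈ A) (hk' : k' ∈ A) :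
    (∀ s ∈ S, (k s).k = (k' s).k) ∨ (∀ s ∈ S, Vw (k s).k (k' s).k) ∨
      (∀ s ∈ S, Vw (k' s).k (k s).k) := by
  have hst : ∀ a ∈ A, ∀ s ∈ S, ∀ s' ∈ S, (a s).k = .st → (a s').k = .st →
      ∀ b ∈ A, (b s).k = (b s').k := by
    intro a ha s hs s' hs' e e' b hb
    by_contra hne
    exact h1 s hs s' hs' ⟨b, hb, hne⟩ a ha ⟨e, e'⟩
  obtain ⟨s0, hs0, e0⟩ := h3 k hk
  cases h0 : (k' s0).k with
  | st =>
    left
    intro s hs
    cases hks : (k s).k with
    | st =>
      have := hst k hk s hs s0 hs0 hks e0 k' hk'
      rw [this, h0]
    | lo =>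
      cases hks' : (k' s).k with
      | lo => rfl
      | st =>
        have := hst k' hk' s hs s0 hs0 hks' h0 k hk
        rw [hks, e0] at this
        exact absurd this (by decide)
      | hi =>
        exfalso
        refine h2 s hs s0 hs0 k hk k' hk' ?_ ?_
        · rw [hks, e0]; decide
        · rw [h0, hks']; decide
    | hi =>
      cases hks' : (k' s).k with
      | hi => rfl
      | st =>
        have := hst k' hk' s hs s0 hs0 hks' h0 k hk
        rw [hks, e0] at this
        exact absurd this (by decide)
      | lo =>
        exfalso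
        refine h2 s0 hs0 s hs k hk k' hk' ?_ ?_
        · rw [hks, e0]; decide
        · rw [h0, hks']; decide
  | lo =>
    right; left
    intro s hs
    unfold Vw
    cases hks' : (k' s).k with
    | lo => exact Or.inr rfl
    | st =>
      cases hks : (k s).k with
      | hi => exact Or.inl rfl
      | st =>
        have := hst k hk s hs s0 hs0 hks e0 k' hk'
        rw [hks', h0] at this
        exact absurd this (by decide)
      | lo =>
        exfalso
        refine h2 s0 hs0 s hs k' hk' k hk ?_ ?_
        · rw [hks', h0]; decide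
        · rw [e0, hks]; decide
    | hi =>
      cases hks : (k s).k with
      | hi => exact Or.inl rfl
      | st =>
        have := hst k hk s hs s0 hs0 hks e0 k' hk'
        rw [hks', h0] at this
        exact absurd this (by decide)
      | lo =>
        exfalso
        refine h2 s0 hs0 s hs k' hk' k hk ?_ ?_
        · rw [hks', h0]; decide
        · rw [e0, hks]; decide
  | hi =>
    right; right
    intro s hs
    unfold Vw
    cases hks' : (k' s).k with
    | hi => exact Or.inl rfl
    | st =>
      cases hks : (k s).k with
      | lo => exact Or.inr rfl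
      | st =>
        have := hst k hk s hs s0 hs0 hks e0 k' hk'
        rw [hks', h0] at this
        exact absurd this (by decide)
      | hi =>
        exfalso
        refine h2 s hs s0 hs0 k' hk' k hk ?_ ?_
        · rw [hks', h0]; decide
        · rw [e0, hks]; decide
    | lo =>
      cases hks : (k s).k with
      | lo => exact Or.inr rfl
      | st =>
        have := hst k hk s hs s0 hs0 hks e0 k' hk'
        rw [hks', h0] at this
        exact absurd this (by decide)
      | hi =>
        exfalso
        refine h2 s hs s0 hs0 k' hk' k hk ?_ ?_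
        · rw [hks', h0]; decide
        · rw [e0, hks]; decide

end Pool.Agent.Helper70.DU
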