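import Pool.Agent.Helper70.DU.Defs
import Pool.Agent.Helper70.DU.St.P1
import Pool.Agent.Helper70.DU.St.P2
import Pool.Agent.Helper70.DU.St.P3
import Pool.Agent.Helper70.DU.St.P5
import Pool.Agent.Helper70.DU.St.P6
import Pool.Agent.Helper70.DU.St.P7
import Pool.Agent.Helper70.DU.St.P8
import Pool.Agent.Helper70.DU.St.P9
import Pool.Agent.Helper70.DU.St.P10
import Pool.Agent.Helper70.DU.St.P11
import Pool.Agent.Helper70.DU.St.P12
import Pool.Agent.Helper70.DU.St.P13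
import Pool.Agent.Helper70.DU.St.P14
import Pool.Agent.Helper70.DU.St.P15

namespace Pool.Agent.Helper70.DU

variable {R : ℕ} {Q W : Type} [DecidableEq Q]

namespace DUP16aux

/-- the type of flat parts is finite -/
theorem finite_sym (Q : Type) [Finite Q] : Finite (Sym Q) := by
  let g : Sym Q → Fin 3 ⊕ (Q × Flag) := fun x =>
    match x with
    | .bot => .inl 0
    | .dlt => .inl 1
    | .acc => .inl 2
    | .cfg q z => .inr (q, z)
  refine Finite.of_injective g ?_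
  intro x y h
  cases x <;> cases y <;> simp_all [g]

omit [DecidableEq Q] in
theorem loc_mono {X : Type} {A : Set (X → El R Q)} {al : X → El R Q} {m n : ℕ} (hm : 0 < m)
    (hmn : m ≤ n) (h : Loc A n al) : Loc A m al := by
  intro x
  obtain ⟨a, ha, hax⟩ := h (fun i => if hi : i.1 < m then x ⟨i.1, hi⟩ else x ⟨0, hm⟩)
  refine ⟨a, ha, fun i => ?_⟩
  have h1 := hax ⟨i.1, lt_of_lt_of_le i.2 hmn⟩
  simp only [i.2, dif_pos] at h1
  exact h1

omit [DecidableEq Q] in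
theorem small_good {X : Type} {A : Set (X → El R Q)} (hne : A.Nonempty) {al : X → El R Q} {n : ℕ}
    (h : Loc A n al) (S : Finset X) (hS : S.card ≤ n) : ∃ e ∈ A, Ag al S e := by
  classical
  rcases S.eq_empty_or_nonempty with rfl | ⟨x0, hx0⟩
  · obtain ⟨e, he⟩ := hne
    exact ⟨e, he, fun x hx => absurd hx (Finset.notMem_empty x)⟩
  · obtain ⟨a, ha, hax⟩ := h
      (fun i => if hi : i.1 < S.card then (S.equivFin.symm ⟨i.1, hi⟩ : X) else x0)
    refine ⟨a, ha, fun x hx => ?_⟩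
    have h1 := hax ⟨(S.equivFin ⟨x, hx⟩).1, lt_of_lt_of_le (S.equivFin ⟨x, hx⟩).2 hS⟩
    simp only [(S.equivFin ⟨x, hx⟩).2, dif_pos] at h1
    have h2 : S.equivFin.symm ⟨(S.equivFin ⟨x, hx⟩).1, (S.equivFin ⟨x, hx⟩).2⟩ = ⟨x, hx⟩ := by
      rw [Fin.eta, Equiv.symm_apply_apply]
    rw [h2] at h1
    exact ⟨congrArg El.r h1, congrArg El.f h1⟩

end DUP16aux

/-- DU-P16. Assembly of the positive direction (uses P1-P15). -/
theorem pos_abs (T : Mach R Q W) [Finite Q] (hT : Halts T) :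
    ∃ n : ℕ, ∀ (X : Type) [Finite X] (A : Set (X → El R Q)), A.Nonempty → Closed T A →
      HasMeets A → ∀ al : X → El R Q, Loc A n al → al ∈ A := by
  classical
  obtain ⟨κ, c, hreach⟩ := halts_bdd T hT
  haveI := DUP16aux.finite_sym Q
  letI : Fintype (Sym Q) := Fintype.ofFinite _
  refine ⟨3 + Fintype.card (Sym Q) * 3 ^ (κ + 1), ?_⟩
  intro X _ A hne hA hX al hloc
  letI : Fintype X := Fintype.ofFinite _
  have hl2 : Loc A 2 al := DUP16aux.loc_mono (by norm_num) (by omega) hloc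
  have hl3 : Loc A 3 al := DUP16aux.loc_mono (by norm_num) (by omega) hloc
  have hpair : ∀ x y : X, ∃ a ∈ A, a x = al x ∧ a y = al y := by
    intro x y
    obtain ⟨a, ha, hax⟩ := hl2 ![x, y]
    exact ⟨a, ha, by simpa using hax 0, by simpa using hax 1⟩
  -- the `k`-part of `al`
  obtain ⟨ka, hka, hka'⟩ := k_word T A hA hne (fun x => (al x).k) (by
    intro x y
    obtain ⟨a, ha, h1, h2⟩ := hpair x y
    exact ⟨a, ha, by rw [h1], by rw [h2]⟩)
  by_contra hnot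
  have hbad : ¬ ∃ e ∈ A, Ag al Finset.univ e := by
    rintro ⟨e, he, hag⟩
    apply hnot
    have h1 := hA .comb ka hka e he e he e he
    have h2 : (fun x => opM T .comb (ka x) (e x) (e x) (e x)) = al := by
      funext x
      obtain ⟨h3, h4⟩ := hag x (Finset.mem_univ x)
      simp only [opM]
      rw [hka' x, h3, h4]
    rwa [h2] at h1
  -- a minimal bad set
  obtain ⟨S, hS⟩ : ∃ S : Finset X, MinBad A al S := by
    have hex : ∃ n : ℕ, ∃ S : Finset X, S.card = n ∧ ¬ ∃ e ∈ A, Ag al S e :=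
      ⟨_, Finset.univ, rfl, hbad⟩
    obtain ⟨S, hSc, hSb⟩ := Nat.find_spec hex
    refine ⟨S, hSb, fun S' hS' => ?_⟩
    by_contra hcon
    exact Nat.find_min hex (by rw [← hSc]; exact hS') ⟨S', rfl, hcon⟩
  have hbig : 3 + Fintype.card (Sym Q) * 3 ^ (κ + 1) < S.card := by
    by_contra hcon
    exact hS.1 (DUP16aux.small_good hne hloc S (not_lt.1 hcon))
  have hsep : ∀ y ∈ S, ∀ y' ∈ S, y ≠ y' → (al y).f = (al y').f → Sep A y y' :=
    fun y hy y' hy' hyy hf => sep_of_eq T A hA hX al hl3 S hS y y' hy hy' hyy hf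
  -- a separated pair
  obtain ⟨y1, hy1, y2, hy2, hs12⟩ : ∃ y1 ∈ S, ∃ y2 ∈ S, Sep A y1 y2 := by
    have hlt : (Finset.univ : Finset (Sym Q)).card < S.card := by
      rw [Finset.card_univ]
      have h3 : 1 ≤ 3 ^ (κ + 1) := Nat.one_le_pow _ _ (by norm_num)
      nlinarith [Nat.zero_le (Fintype.card (Sym Q))]
    obtain ⟨y1, hy1, y2, hy2, hne12, hf⟩ := Finset.exists_ne_map_eq_of_card_lt_of_maps_to hlt
      (f := fun x => (al x).f) (fun x _ => Finset.mem_univ _)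
    exact ⟨y1, hy1, y2, hy2, hsep y1 hy1 y2 hy2 hne12 hf⟩
  have hstar : ∀ k ∈ A, ∃ s ∈ S, (k s).k = .st :=
    fun k hk => has_star T A hA al hl2 S hS y1 y2 hy1 hy2 hs12 k hk
  have htwo : ∀ y ∈ S, ∀ y' ∈ S, Sep A y y' → ∀ k ∈ A, ¬ ((k y).k = .st ∧ (k y').k = .st) :=
    fun y hy y' hy' hs k hk => no_two_stars T A hA al hl2 S hS y y' hy hy' hs k hk
  have hinv : ∀ y ∈ S, ∀ y' ∈ S, ∀ k ∈ A, ∀ k' ∈ A, (k y).k.toNat < (k y').k.toNat →
      ¬ ((k' y').k.toNat < (k' y).k.toNat) :=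
    fun y hy y' hy' k hk k' hk' h => no_inversion T A hA al hl2 S hS y y' hy hy' k k' hk hk' h
  obtain ⟨ch, hch, hV⟩ := chain_exists A S al κ (by omega) hsep
    (fun k hk k' hk' => trich A S htwo hinv hstar k k' hk hk') hstar
  obtain ⟨e, he, hes⟩ := sim_run T A hA S ch κ hch hV T.qh c hreach
  obtain ⟨H, hH, hHS⟩ := sim_unb T A hA S ch κ hch hV e he
    (fun s hs => ⟨(hes s hs).1, (hes s hs).2.1, (hes s hs).2.2.2⟩)
  obtain ⟨b, hb, hbr, hbf⟩ := exists_by T A hA al hl2 S hS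
  have hch0 : ch 0 ∈ A := hch 0 (Nat.zero_le _)
  obtain ⟨y, hy, hyst⟩ := hstar (ch 0) hch0
  obtain ⟨y', hy', hy'st⟩ : ∃ y' ∈ S, (ch 0 y').k ≠ .st := by
    by_cases h : (ch 0 y1).k = .st
    · exact ⟨y2, hy2, fun h2 => htwo y1 hy1 y2 hy2 hs12 (ch 0) hch0 ⟨h, h2⟩⟩
    · exact ⟨y1, hy1, h⟩
  exact merge_contra T A hA al S hS.1 b hb hbr hbf (ch 0) H hch0 hH hHS y y' hy hy' hyst hy'st

end Pool.Agent.Helper70.DU
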