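import Pool.Agent.Helper70.DU.Defs2
import Pool.Agent.Helper70.DU.St.M1
import Pool.Agent.Helper70.DU.St.M2
import Pool.Agent.Helper70.DU.St.P16

namespace Pool.Agent.Helper70.DU

universe u

namespace DUA5aux

variable {R : ℕ} {Q W : Type} [DecidableEq Q] (T : Mach R Q W) {s p : ℕ} (hs : 0 < s)
  (e : El R Q ≃ Fin s) (en : Fin p → Op R W)

/-- homomorphisms, in terms of the operations `opM` -/
theorem hom_apply {A : Type} {opA : ∀ i, (Fin ((algOf T hs e en).ar i) → A) → A}
    (x : Dual opA (algOf T hs e en).op) (i : Fin p) (a b c d : A) :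
    e.symm (x.1 (opA i ![a, b, c, d])) =
      opM T (en i) (e.symm (x.1 a)) (e.symm (x.1 b)) (e.symm (x.1 c)) (e.symm (x.1 d)) := by
  have h := x.2 i ![a, b, c, d]
  have h2 : (algOf T hs e en).op i (fun j => x.1 ((![a, b, c, d] : Fin 4 → A) j)) =
      e (opM T (en i) (e.symm (x.1 a)) (e.symm (x.1 b)) (e.symm (x.1 c)) (e.symm (x.1 d))) := rfl
  have h3 := h.trans h2
  rw [h3]
  exact e.symm_apply_apply _

end DUA5aux

open DUA5aux

/-- DU-A5. -/
theorem local_of_halts {R : ℕ} {Q W : Type} [DecidableEq Q] [Finite Q] (T : Mach R Q W)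
    {s p : ℕ} (hs : 0 < s) (e : El R Q ≃ Fin s) (en : Fin p → Op R W)
    (hen : Function.Surjective en) (hT : Halts T) : LocalProp (algOf T hs e en).op := by
  obtain ⟨n, hn⟩ := pos_abs T hT
  refine ⟨n, ?_⟩
  intro A opA hfin hISP φ hloc
  have := hfin
  let X : Type := Dual opA (algOf T hs e en).op
  have hXfin : Finite X := by
    have : Finite (Fin (algOf T hs e en).size) := inferInstance
    exact Subtype.finite
  let wdA : A → X → El R Q := fun a x => e.symm (x.1 a)
  let AS : Set (X → El R Q) := Set.range wdA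
  have hclosed : Closed T AS := by
    intro o a ha b hb c hc d hd
    obtain ⟨a, rfl⟩ := ha
    obtain ⟨b, rfl⟩ := hb
    obtain ⟨c, rfl⟩ := hc
    obtain ⟨d, rfl⟩ := hd
    obtain ⟨i, rfl⟩ := hen o
    refine ⟨opA i ![a, b, c, d], ?_⟩
    funext x
    exact hom_apply T hs e en x i a b c d
  have hr : ∀ y y' : X, (∀ a ∈ AS, (a y).k = (a y').k) → ∀ a ∈ AS, (a y).r = (a y').r := by
    intro y y' hk a ha
    funext i
    have h1 := hclosed (.pr i) a ha a ha a ha a ha
    have h2 := hk _ h1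
    exact h2
  have hmeets : HasMeets AS := by
    intro y y' hk
    have hr' := hr y y' hk
    have hz : IsHom opA (algOf T hs e en).op
        (fun a => e (meet (e.symm (y.1 a)) (e.symm (y'.1 a)))) := by
      intro i (v : Fin 4 → A)
      have hv : v = ![v 0, v 1, v 2, v 3] := by
        funext j
        fin_cases j <;> rfl
      have e1 : e.symm (y.1 (opA i v)) = opM T (en i) (e.symm (y.1 (v 0))) (e.symm (y.1 (v 1)))
          (e.symm (y.1 (v 2))) (e.symm (y.1 (v 3))) := by
        conv_lhs => rw [hv]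
        exact hom_apply T hs e en y i (v 0) (v 1) (v 2) (v 3)
      have e2 : e.symm (y'.1 (opA i v)) = opM T (en i) (e.symm (y'.1 (v 0)))
          (e.symm (y'.1 (v 1))) (e.symm (y'.1 (v 2))) (e.symm (y'.1 (v 3))) := by
        conv_lhs => rw [hv]
        exact hom_apply T hs e en y' i (v 0) (v 1) (v 2) (v 3)
      have hkr : ∀ a : A, (e.symm (y.1 a)).k = (e.symm (y'.1 a)).k ∧
          (e.symm (y.1 a)).r = (e.symm (y'.1 a)).r :=
        fun a => ⟨hk (wdA a) ⟨a, rfl⟩, hr' (wdA a) ⟨a, rfl⟩⟩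
      have e3 := opM_meet T (en i) (e.symm (y.1 (v 0))) (e.symm (y.1 (v 1)))
          (e.symm (y.1 (v 2))) (e.symm (y.1 (v 3))) (e.symm (y'.1 (v 0)))
          (e.symm (y'.1 (v 1))) (e.symm (y'.1 (v 2))) (e.symm (y'.1 (v 3)))
          (hkr _) (hkr _) (hkr _) (hkr _)
      have e4 : (algOf T hs e en).op i
          (fun j => e (meet (e.symm (y.1 (v j))) (e.symm (y'.1 (v j))))) =
          e (opM T (en i) (meet (e.symm (y.1 (v 0))) (e.symm (y'.1 (v 0))))
            (meet (e.symm (y.1 (v 1))) (e.symm (y'.1 (v 1))))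
            (meet (e.symm (y.1 (v 2))) (e.symm (y'.1 (v 2))))
            (meet (e.symm (y.1 (v 3))) (e.symm (y'.1 (v 3))))) := by
        show e (opM T (en i) (e.symm (e (meet (e.symm (y.1 (v 0))) (e.symm (y'.1 (v 0))))))
          (e.symm (e (meet (e.symm (y.1 (v 1))) (e.symm (y'.1 (v 1))))))
          (e.symm (e (meet (e.symm (y.1 (v 2))) (e.symm (y'.1 (v 2))))))
          (e.symm (e (meet (e.symm (y.1 (v 3))) (e.symm (y'.1 (v 3))))))) = _
        simp only [Equiv.symm_apply_apply]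
      show e (meet (e.symm (y.1 (opA i v))) (e.symm (y'.1 (opA i v)))) = _
      rw [e4, e1, e2, e3]
    refine ⟨⟨_, hz⟩, ?_⟩
    rintro a ⟨a, rfl⟩
    show e.symm (e (meet (e.symm (y.1 a)) (e.symm (y'.1 a)))) = _
    rw [Equiv.symm_apply_apply]
  have hne : AS.Nonempty := by
    obtain ⟨a⟩ := hISP.1
    exact ⟨wdA a, a, rfl⟩
  have hal : Loc AS n (fun x : X => e.symm (φ x)) := by
    intro x
    obtain ⟨a, ha⟩ := hloc x
    refine ⟨wdA a, ⟨a, rfl⟩, fun i => ?_⟩
    show e.symm ((x i).1 a) = e.symm (φ (x i))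
    rw [ha i]
  obtain ⟨a, ha⟩ := hn X AS hne hclosed hmeets _ hal
  refine ⟨a, fun x => ?_⟩
  have h1 := congrFun ha x
  exact (e.symm.injective h1).symm

end Pool.Agent.Helper70.DU
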