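import Pool.Agent.Helper70.DU.Defs2
import Pool.Agent.Helper70.DU.Om.NW

namespace Pool.Agent.Helper70.DU

universe u

/-- DU-A6. If the machine does not halt the algebra is not dualisable, even by all algebraic
relations.  `A := ULift {a // a ∈ AmW T}`, power with index set `ULift ℕ`; the map
`φ h = e (bt (extension of e.symm ∘ h))` is continuous because it depends on three coordinates. -/
theorem not_dualisable_of_not_halts {R : ℕ} {Q W : Type} [DecidableEq Q] (T : Mach R Q W)
    {s p : ℕ} (hs : 0 < s) (e : El R Q ≃ Fin s) (en : Fin p → Op R W)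
    (hen : Function.Surjective en) (hT : ¬ Halts T) :
    ¬ FinAlg.Dualisable.{u} (algOf T hs e en) := by
  classical
  rintro ⟨E, hAlg, hY⟩
  obtain ⟨hne, hcl, bt, a0, a1, a2, ha0, ha1, ha2, hdep, hbt, hno⟩ := neg_omega T hT
  let A : Type u := ULift.{u} {a : ℕ → El R Q // a ∈ AmW T}
  let mk : ∀ a : ℕ → El R Q, a ∈ AmW T → A := fun a ha => ⟨⟨a, ha⟩⟩
  let opA : ∀ i : Fin p, (Fin 4 → A) → A := fun i v =>
    mk (fun x => opM T (en i) ((v 0).down.1 x) ((v 1).down.1 x) ((v 2).down.1 x)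
      ((v 3).down.1 x)) (hcl (en i) _ (v 0).down.2 _ (v 1).down.2 _ (v 2).down.2 _ (v 3).down.2)
  let opF : ∀ i : Fin p, (Fin 4 → Fin s) → Fin s := fun i v =>
    e (opM T (en i) (e.symm (v 0)) (e.symm (v 1)) (e.symm (v 2)) (e.symm (v 3)))
  have hproj : ∀ x : ℕ, IsHom (ar := fun _ : Fin p => 4) opA opF
      (fun a : A => e (a.down.1 x)) := by
    intro x i v
    show e (opM T (en i) ((v 0).down.1 x) ((v 1).down.1 x) ((v 2).down.1 x)
      ((v 3).down.1 x)) = _
    simp only [opF, Equiv.symm_apply_apply]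
  have hISP : InISP (ar := fun _ : Fin p => 4) opF opA := by
    refine ⟨⟨mk hne.some hne.some_mem⟩, ULift.{u} ℕ, fun a x => e (a.down.1 x.down), ?_,
      fun x => hproj x.down⟩
    intro a b hab
    apply ULift.ext
    apply Subtype.ext
    funext x
    exact e.injective (congrFun hab ⟨x⟩)
  let proj : ℕ → Dual (ar := fun _ : Fin p => 4) opA opF := fun x => ⟨_, hproj x⟩
  let ext : Dual (ar := fun _ : Fin p => 4) opA opF → (ℕ → El R Q) → El R Q := fun h a =>
    if ha : a ∈ AmW T then e.symm (h.1 (mk a ha)) else e.symm ⟨0, hs⟩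
  have hext : ∀ h, ∀ a (ha : a ∈ AmW T), ext h a = e.symm (h.1 (mk a ha)) := by
    intro h a ha
    simp only [ext]
    rw [dif_pos ha]
  have hhom : ∀ h, HomOn T (AmW T) (ext h) := by
    intro h o a ha b hb c hc d hd
    obtain ⟨i, rfl⟩ := hen o
    rw [hext h _ (hcl (en i) a ha b hb c hc d hd), hext h a ha, hext h b hb, hext h c hc,
      hext h d hd]
    have h1 := h.2 i (![mk a ha, mk b hb, mk c hc, mk d hd] : Fin 4 → A)
    apply e.injective
    rw [Equiv.apply_symm_apply]
    exact h1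
  let φ : Dual (ar := fun _ : Fin p => 4) opA opF → Fin s := fun h => e (bt (ext h))
  have hφdep : ∀ h h' : Dual (ar := fun _ : Fin p => 4) opA opF,
      h.1 (mk a0 ha0) = h'.1 (mk a0 ha0) → h.1 (mk a1 ha1) = h'.1 (mk a1 ha1) →
      h.1 (mk a2 ha2) = h'.1 (mk a2 ha2) → φ h = φ h' := by
    intro h h' e0 e1 e2
    show e (bt (ext h)) = e (bt (ext h'))
    rw [hdep (ext h) (ext h') (by rw [hext h a0 ha0, hext h' a0 ha0, e0])
      (by rw [hext h a1 ha1, hext h' a1 ha1, e1]) (by rw [hext h a2 ha2, hext h' a2 ha2, e2])]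
  have hcoord : ∀ a : A, Continuous
      (fun h : Dual (ar := fun _ : Fin p => 4) opA opF => h.1 a) := fun a =>
    (continuous_apply a).comp continuous_subtype_val
  have hcont : Continuous φ := by
    apply IsLocallyConstant.continuous
    rw [IsLocallyConstant.iff_exists_open]
    intro h
    refine ⟨{h' | h'.1 (mk a0 ha0) = h.1 (mk a0 ha0)} ∩
      ({h' | h'.1 (mk a1 ha1) = h.1 (mk a1 ha1)} ∩ {h' | h'.1 (mk a2 ha2) = h.1 (mk a2 ha2)}),
      ?_, ⟨rfl, rfl, rfl⟩, ?_⟩
    · refine IsOpen.inter ?_ (IsOpen.inter ?_ ?_)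
      · exact (isOpen_discrete {h.1 (mk a0 ha0)}).preimage (hcoord (mk a0 ha0))
      · exact (isOpen_discrete {h.1 (mk a1 ha1)}).preimage (hcoord (mk a1 ha1))
      · exact (isOpen_discrete {h.1 (mk a2 ha2)}).preimage (hcoord (mk a2 ha2))
    · rintro h' ⟨e0, e1, e2⟩
      exact hφdep h' h e0 e1 e2
  obtain ⟨a, ha⟩ := hY A opA hISP φ hcont (by
    intro n r hr x hx
    obtain ⟨a, ha, hax⟩ := hbt n (fun i => ext (x i)) (fun i => hhom (x i))
    have h1 : (fun i => φ (x i)) = fun i => (x i).1 (mk a ha) := by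
      funext i
      show e (bt (ext (x i))) = _
      rw [hax i, hext _ a ha, Equiv.apply_symm_apply]
    rw [h1]
    exact hx (mk a ha))
  apply hno
  refine ⟨a.down.1, a.down.2, fun j => ?_⟩
  have h1 : e (bt (ext (proj j))) = e (a.down.1 j) := ha (proj j)
  have h2 : bt (ext (proj j)) = bt (fun a => a j) := by
    refine hdep _ _ ?_ ?_ ?_
    · rw [hext (proj j) a0 ha0]
      exact Equiv.symm_apply_apply e (a0 j)
    · rw [hext (proj j) a1 ha1]
      exact Equiv.symm_apply_apply e (a1 j)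
    · rw [hext (proj j) a2 ha2]
      exact Equiv.symm_apply_apply e (a2 j)
  rw [← h2]
  exact e.injective h1

end Pool.Agent.Helper70.DU
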