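import Pool.Agent.Helper70.DU.Defs2
import Pool.Agent.Helper70.DU.St.A4
import Pool.Agent.Helper70.DU.St.A5
import Pool.Agent.Helper70.DU.St.A6

namespace Pool.Agent.Helper70.DU

universe u

/-- DU-A7. -/
theorem finDualisable_of_halts {R : ℕ} {Q W : Type} [DecidableEq Q] [Finite Q] (T : Mach R Q W)
    {s p : ℕ} (hs : 0 < s) (e : El R Q ≃ Fin s) (en : Fin p → Op R W)
    (hen : Function.Surjective en) (hT : Halts T) :
    FinAlg.FinDualisable.{u} (algOf T hs e en) := by
  have hne : Nonempty (Fin (algOf T hs e en).size) := ⟨⟨0, (algOf T hs e en).size_pos⟩⟩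
  exact dual_of_local.{u} (algOf T hs e en).op (local_of_halts T hs e en hen hT)

end Pool.Agent.Helper70.DU
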