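import Pool.Agent.Helper70.DU.Defs2

namespace Pool.Agent.Helper70.DU

universe u

namespace DUB1aux

theorem ev_clear (i : ℕ) : ∀ (k : ℕ) (c : ℕ → ℕ), c i = k →
    Ev (.loop i .skip) c (Function.update c i 0) := by
  intro k
  induction k with
  | zero =>
    intro c hc
    have h : Function.update c i 0 = c := by
      rw [← hc, Function.update_eq_self]
    rw [h]
    exact Ev.loop0 i _ c hc
  | succ k ih =>
    intro c hc
    have h1 := ih (Function.update c i (c i - 1)) (by rw [Function.update_self, hc]; rfl)
    rw [Function.update_idem] at h1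
    exact Ev.loop1 i _ c _ _ (by omega) (Ev.skip _) h1

end DUB1aux

/-- DU-B1. Basic functions. -/
theorem impl_zero : Impl (n := 0) (fun _ => Part.some 0) := by
  intro ins out base _ _
  refine ⟨.loop out .skip, ?_⟩
  intro c y hy
  rw [Part.mem_some_iff] at hy
  refine ⟨Function.update c out 0, DUB1aux.ev_clear out (c out) c rfl, ?_, ?_⟩
  · rw [Function.update_self, hy]
  · intro r _ hr
    rw [Function.update_of_ne hr]

theorem impl_succ : Impl (n := 1) (fun v => Part.some (Nat.succ v.head)) := by
  intro ins out base _ _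
  refine ⟨.seq (.copy out (ins 0)) (.inc out), ?_⟩
  intro c y hy
  rw [Part.mem_some_iff] at hy
  refine ⟨_, Ev.seq _ _ _ _ _ (Ev.copy out (ins 0) c) (Ev.inc out _), ?_, ?_⟩
  · rw [Function.update_self, Function.update_self, hy]
    rfl
  · intro r _ hr
    rw [Function.update_of_ne hr, Function.update_of_ne hr]

theorem impl_get {n : ℕ} (i : Fin n) : Impl (n := n) (fun v => Part.some (v.get i)) := by
  intro ins out base _ _
  refine ⟨.copy out (ins i), ?_⟩
  intro c y hy
  rw [Part.mem_some_iff] at hy
  refine ⟨_, Ev.copy out (ins i) c, ?_, ?_⟩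
  · rw [Function.update_self, hy, List.Vector.get_ofFn]
  · intro r _ hr
    rw [Function.update_of_ne hr]

end Pool.Agent.Helper70.DU
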