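import Pool.Agent.Helper70.DU.Defs2

namespace Pool.Agent.Helper70.DU

universe u

namespace DUB2aux

theorem mem_mOfFn {α : Type} : ∀ {n : ℕ} (f : Fin n → Part α) (w : List.Vector α n),
    w ∈ List.Vector.mOfFn f → ∀ i, w.get i ∈ f i
  | 0, _, _, _, i => i.elim0
  | n + 1, f, w, h, i => by
    unfold List.Vector.mOfFn at h
    simp only [Part.bind_eq_bind, Part.mem_bind_iff] at h
    obtain ⟨a, ha, v, hv, hw⟩ := h
    have hw' : w = a ::ᵥ v := by simpa using hw
    subst hw'
    refine Fin.cases ?_ (fun j => ?_) i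
    · simpa using ha
    · simpa using mem_mOfFn (fun i => f i.succ) v hv j

theorem steps {m n : ℕ} (g : Fin n → List.Vector ℕ m →. ℕ) (ins : Fin m → ℕ) (base : ℕ)
    (p : Fin n → WP) (hins : ∀ i, ins i < base)
    (hp : ∀ i, ∀ (c : ℕ → ℕ) (y : ℕ), y ∈ g i (List.Vector.ofFn (fun j => c (ins j))) →
      ∃ c', Ev (p i) c c' ∧ c' (base + i) = y ∧ ∀ r, r < base + n → r ≠ base + i → c' r = c r) :
    ∀ k ≤ n, ∃ P : WP, ∀ (c : ℕ → ℕ) (y : Fin n → ℕ),
      (∀ i, y i ∈ g i (List.Vector.ofFn (fun j => c (ins j)))) →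
      ∃ c', Ev P c c' ∧ (∀ i : Fin n, (i : ℕ) < k → c' (base + i) = y i) ∧
        ∀ r, r < base → c' r = c r := by
  intro k
  induction k with
  | zero =>
    intro _
    exact ⟨.skip, fun c y _ => ⟨c, .skip c, fun i hi => absurd hi (Nat.not_lt_zero _),
      fun r _ => rfl⟩⟩
  | succ k ih =>
    intro hk
    obtain ⟨P, hP⟩ := ih (by omega)
    refine ⟨.seq P (p ⟨k, hk⟩), fun c y hy => ?_⟩
    obtain ⟨c1, he1, h1, h2⟩ := hP c y hy
    have hc : (fun j => c1 (ins j)) = fun j => c (ins j) := by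
      funext j; exact h2 _ (hins j)
    obtain ⟨c2, he2, h3, h4⟩ := hp ⟨k, hk⟩ c1 (y ⟨k, hk⟩) (by rw [hc]; exact hy _)
    refine ⟨c2, .seq _ _ _ _ _ he1 he2, ?_, ?_⟩
    · intro i hi
      by_cases hik : (i : ℕ) = k
      · have : i = ⟨k, hk⟩ := Fin.ext hik
        rw [this]; exact h3
      · have hlt : (i : ℕ) < k := by omega
        rw [h4 (base + i) (by have := i.2; omega) (by simp only [ne_eq]; omega)]
        exact h1 i hlt
    · intro r hr
      rw [h4 r (by omega) (by simp only [ne_eq]; omega)]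
      exact h2 r hr

end DUB2aux

/-- DU-B2. Composition. Compute `g i` into register `base + i` with base `base + n`, then `f`. -/
theorem impl_comp {m n : ℕ} (f : List.Vector ℕ n →. ℕ) (g : Fin n → List.Vector ℕ m →. ℕ)
    (hf : Impl f) (hg : ∀ i, Impl (g i)) :
    Impl (fun v => (List.Vector.mOfFn fun i => g i v) >>= f) := by
  intro ins out base hins hout
  have hg' : ∀ i : Fin n, ∃ p : WP, ∀ (c : ℕ → ℕ) (y : ℕ),
      y ∈ g i (List.Vector.ofFn (fun j => c (ins j))) →
      ∃ c', Ev p c c' ∧ c' (base + i) = y ∧ ∀ r, r < base + n → r ≠ base + i → c' r = c r :=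
    fun i => hg i ins (base + i) (base + n) (fun j => by have := hins j; omega)
      (by have := i.2; omega)
  choose p hp using hg'
  obtain ⟨P, hP⟩ := DUB2aux.steps g ins base p hins hp n le_rfl
  obtain ⟨q, hq⟩ := hf (fun i => base + i) out (base + n) (fun i => by have := i.2; omega)
    (by omega)
  refine ⟨.seq P q, fun c y hy => ?_⟩
  have hy' : y ∈ Part.bind (List.Vector.mOfFn fun i =>
      g i (List.Vector.ofFn (fun i => c (ins i)))) f := hy
  obtain ⟨w, hw, hy⟩ := Part.mem_bind_iff.mp hy'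
  have hwg := DUB2aux.mem_mOfFn _ w hw
  obtain ⟨c1, he1, h1, h2⟩ := hP c (fun i => w.get i) hwg
  have hwe : List.Vector.ofFn (fun i : Fin n => c1 (base + i)) = w := by
    have : (fun i : Fin n => c1 (base + i)) = fun i => w.get i := by
      funext i; exact h1 i i.2
    rw [this]
    exact List.Vector.ofFn_get w
  obtain ⟨c2, he2, h3, h4⟩ := hq c1 y (by rw [hwe]; exact hy)
  refine ⟨c2, .seq _ _ _ _ _ he1 he2, h3, fun r hr hne => ?_⟩
  rw [h4 r (by omega) hne, h2 r hr]

end Pool.Agent.Helper70.DU
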