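import Pool.Agent.Helper70.DU.Defs2

namespace Pool.Agent.Helper70.DU

universe u

namespace DUB3aux

theorem ev_clear (i : ℕ) : ∀ (m : ℕ) (c : ℕ → ℕ), c i = m →
    Ev (.loop i .skip) c (Function.update c i 0) := by
  intro m
  induction m with
  | zero =>
    intro c hc
    have h : Function.update c i 0 = c := by
      rw [← hc]; exact Function.update_eq_self i c
    rw [h]
    exact Ev.loop0 i _ c hc
  | succ m ih =>
    intro c hc
    have h := ih (Function.update c i (c i - 1)) (by rw [Function.update_self]; omega)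
    rw [Function.update_idem] at h
    exact Ev.loop1 i _ c _ _ (by omega) (Ev.skip _) h

end DUB3aux

open DUB3aux in
/-- DU-B3. Primitive recursion. Registers `base` (counter), `base + 1` (accumulator),
`base + 2` (index `y`), scratch from `base + 3`. -/
theorem impl_prec {n : ℕ} (f : List.Vector ℕ n → ℕ) (g : List.Vector ℕ (n + 2) → ℕ)
    (hf : Impl (fun v => Part.some (f v))) (hg : Impl (fun v => Part.some (g v))) :
    Impl (n := n + 1) (fun v => Part.some
      (v.head.rec (f v.tail) fun y IH => g (y ::ᵥ IH ::ᵥ v.tail))) := by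
  intro ins out base hins hout
  obtain ⟨pf, hpf⟩ := hf (fun i => ins i.succ) (base + 1) (base + 3)
    (fun i => by have := hins i.succ; omega) (by omega)
  obtain ⟨pg, hpg⟩ := hg (Fin.cons (base + 2) (Fin.cons (base + 1) (fun i => ins i.succ)))
    (base + 1) (base + 3) (by
      intro i
      refine Fin.cases ?_ (fun i => ?_) i
      · simp
      · refine Fin.cases ?_ (fun i => ?_) i
        · simp
        · have := hins i.succ
          simp only [Fin.cons_succ]
          omega) (by omega)
  refine ⟨.seq pf (.seq (.copy base (ins 0)) (.seq (.loop (base + 2) .skip)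
    (.seq (.loop base (.seq pg (.inc (base + 2)))) (.copy out (base + 1))))), ?_⟩
  intro c y hy
  rw [Part.mem_some_iff, List.Vector.head_ofFn, List.Vector.tail_ofFn] at hy
  obtain ⟨tl, htl⟩ : ∃ tl : List.Vector ℕ n, tl = List.Vector.ofFn (fun i => c (ins i.succ)) :=
    ⟨_, rfl⟩
  rw [← htl] at hy
  obtain ⟨F, hF⟩ : ∃ F : ℕ → ℕ, F = fun k => k.rec (f tl) fun y IH => g (y ::ᵥ IH ::ᵥ tl) :=
    ⟨_, rfl⟩
  have hF0 : F 0 = f tl := by rw [hF]; rfl
  have hFs : ∀ k, F (k + 1) = g (k ::ᵥ F k ::ᵥ tl) := by intro k; rw [hF]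
  have hy' : y = F (c (ins 0)) := by rw [hy, hF]
  obtain ⟨c1, e1, h11, h12⟩ := hpf c (f tl) (by rw [Part.mem_some_iff, htl])
  -- the loop
  have loop : ∀ (m : ℕ) (k : ℕ) (d : ℕ → ℕ), d base = m → d (base + 2) = k →
      d (base + 1) = F k → (∀ r < base, d r = c r) →
      ∃ d', Ev (.loop base (.seq pg (.inc (base + 2)))) d d' ∧ d' (base + 1) = F (k + m) ∧
        ∀ r < base, d' r = c r := by
    intro m
    induction m with
    | zero =>
      intro k d h1 h2 h3 h4
      exact ⟨d, Ev.loop0 _ _ d h1, h3, h4⟩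
    | succ m ih =>
      intro k d h1 h2 h3 h4
      obtain ⟨d1, hd1⟩ : ∃ d1, d1 = Function.update d base (d base - 1) := ⟨_, rfl⟩
      have d1b : d1 base = m := by rw [hd1, Function.update_self]; omega
      have d1o : ∀ r, r ≠ base → d1 r = d r := by
        intro r hr; rw [hd1, Function.update_of_ne hr]
      obtain ⟨d2, e2, h21, h22⟩ := hpg d1 (F (k + 1)) (by
        rw [Part.mem_some_iff, hFs]
        congr 1
        have h5 : List.Vector.ofFn (fun i : Fin (n + 2) => d1 ((Fin.cons (base + 2)
            (Fin.cons (base + 1) (fun i => ins i.succ)) : Fin (n + 2) → ℕ) i)) =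
            d1 (base + 2) ::ᵥ d1 (base + 1) ::ᵥ
              List.Vector.ofFn (fun i : Fin n => d1 (ins i.succ)) := rfl
        rw [h5, d1o _ (by omega), d1o _ (by omega), h2, h3, htl]
        congr 3
        funext i
        rw [d1o _ (by have := hins i.succ; omega), h4 _ (hins i.succ)])
      obtain ⟨d3, hd3⟩ : ∃ d3, d3 = Function.update d2 (base + 2) (d2 (base + 2) + 1) :=
        ⟨_, rfl⟩
      have d3o : ∀ r, r ≠ base + 2 → d3 r = d2 r := by
        intro r hr; rw [hd3, Function.update_of_ne hr]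
      have e3 : Ev (.seq pg (.inc (base + 2))) d1 d3 := by
        rw [hd3]; exact Ev.seq _ _ _ _ _ e2 (Ev.inc _ _)
      obtain ⟨d', e', h5, h6⟩ := ih (k + 1) d3
        (by rw [d3o _ (by omega), h22 _ (by omega) (by omega), d1b])
        (by rw [hd3, Function.update_self, h22 _ (by omega) (by omega), d1o _ (by omega), h2])
        (by rw [d3o _ (by omega), h21])
        (by
          intro r hr
          rw [d3o _ (by omega), h22 _ (by omega) (by omega), d1o _ (by omega), h4 r hr])
      refine ⟨d', Ev.loop1 _ _ d d3 d' (by omega) (by rw [← hd1]; exact e3) e', ?_, h6⟩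
      rw [h5]
      congr 1
      omega
  obtain ⟨c2, hc2⟩ : ∃ c2, c2 = Function.update c1 base (c1 (ins 0)) := ⟨_, rfl⟩
  obtain ⟨c3, hc3⟩ : ∃ c3, c3 = Function.update c2 (base + 2) 0 := ⟨_, rfl⟩
  have c2o : ∀ r, r ≠ base → c2 r = c1 r := by
    intro r hr; rw [hc2, Function.update_of_ne hr]
  have c3o : ∀ r, r ≠ base + 2 → c3 r = c2 r := by
    intro r hr; rw [hc3, Function.update_of_ne hr]
  have hi0 := hins 0
  obtain ⟨c4, e4, h41, h42⟩ := loop (c (ins 0)) 0 c3
    (by rw [c3o _ (by omega), hc2, Function.update_self, h12 _ (by omega) (by omega)])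
    (by rw [hc3, Function.update_self])
    (by rw [c3o _ (by omega), c2o _ (by omega), h11, hF0])
    (by
      intro r hr
      rw [c3o _ (by omega), c2o _ (by omega), h12 _ (by omega) (by omega)])
  refine ⟨Function.update c4 out (c4 (base + 1)), ?_, ?_, ?_⟩
  · refine Ev.seq _ _ _ _ _ e1 (Ev.seq _ _ _ c2 _ (by rw [hc2]; exact Ev.copy _ _ _)
      (Ev.seq _ _ _ c3 _ (by rw [hc3]; exact ev_clear _ _ _ rfl)
        (Ev.seq _ _ _ c4 _ e4 (Ev.copy _ _ _))))
  · rw [Function.update_self, h41, hy', Nat.zero_add]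
  · intro r hr hne
    rw [Function.update_of_ne hne, h42 r hr]

end Pool.Agent.Helper70.DU
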