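import Pool.Agent.Helper70.DU.Defs2

namespace Pool.Agent.Helper70.DU

universe u

namespace DUB4aux

theorem clear (i : ℕ) : ∀ (m : ℕ) (c : ℕ → ℕ), c i = m →
    Ev (.loop i .skip) c (Function.update c i 0) := by
  intro m
  induction m with
  | zero =>
    intro c hc
    have h : Function.update c i 0 = c := by
      rw [← hc]
      exact Function.update_eq_self i c
    rw [h]
    exact Ev.loop0 i .skip c hc
  | succ m ih =>
    intro c hc
    have h1 := ih (Function.update c i (c i - 1)) (by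
      rw [Function.update_self, hc]
      rfl)
    rw [Function.update_idem] at h1
    exact Ev.loop1 i .skip c _ _ (by omega) (Ev.skip _) h1

theorem main_loop {n : ℕ} (f : List.Vector ℕ (n + 1) → ℕ) (ins : Fin n → ℕ) (base : ℕ)
    (hins : ∀ i, ins i < base) (p : WP)
    (hp : ∀ c : ℕ → ℕ, ∃ c', Ev p c c' ∧
      c' (base + 1) = f (c base ::ᵥ List.Vector.ofFn (fun i => c (ins i))) ∧
      ∀ r, r < base + 2 → r ≠ base + 1 → c' r = c r)
    (c : ℕ → ℕ) (y : ℕ)
    (hy : f (y ::ᵥ List.Vector.ofFn (fun i => c (ins i))) = 0)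
    (hm : ∀ m, m < y → f (m ::ᵥ List.Vector.ofFn (fun i => c (ins i))) ≠ 0) :
    ∀ (d k : ℕ) (c1 : ℕ → ℕ), k + d = y → c1 base = k →
      c1 (base + 1) = f (k ::ᵥ List.Vector.ofFn (fun i => c (ins i))) →
      (∀ r, r < base → c1 r = c r) →
      ∃ c2, Ev (.loop (base + 1) (.seq (.inc base) p)) c1 c2 ∧ c2 base = y ∧
        ∀ r, r < base → c2 r = c r := by
  intro d
  induction d with
  | zero =>
    intro k c1 hk h1 h2 h3
    rw [add_zero] at hk
    subst hk
    exact ⟨c1, Ev.loop0 _ _ _ (by rw [h2, hy]), h1, h3⟩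
  | succ d ih =>
    intro k c1 hk h1 h2 h3
    have hpos : 0 < c1 (base + 1) := by
      rw [h2]
      exact Nat.pos_of_ne_zero (hm k (by omega))
    obtain ⟨c1', hc1'⟩ : ∃ c1', c1' = Function.update c1 (base + 1) (c1 (base + 1) - 1) := ⟨_, rfl⟩
    obtain ⟨c1'', hc1''⟩ : ∃ c1'', c1'' = Function.update c1' base (c1' base + 1) := ⟨_, rfl⟩
    have e1 : c1' base = k := by
      rw [hc1', Function.update_of_ne (by omega), h1]
    have e2 : c1'' base = k + 1 := by
      rw [hc1'', Function.update_self, e1]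
    have e3 : ∀ r, r < base → c1'' r = c r := by
      intro r hr
      rw [hc1'', Function.update_of_ne (by omega), hc1', Function.update_of_ne (by omega), h3 r hr]
    obtain ⟨c3, hev, hv, hr⟩ := hp c1''
    have e4 : List.Vector.ofFn (fun i => c1'' (ins i)) = List.Vector.ofFn (fun i => c (ins i)) := by
      congr 1
      funext i
      exact e3 _ (hins i)
    rw [e2, e4] at hv
    obtain ⟨c2, hev2, hb, hr2⟩ := ih (k + 1) c3 (by omega)
      (by rw [hr base (by omega) (by omega), e2]) hv
      (fun r hrr => by rw [hr r (by omega) (by omega), e3 r hrr])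
    refine ⟨c2, ?_, hb, hr2⟩
    refine Ev.loop1 _ _ _ c3 _ hpos ?_ hev2
    rw [← hc1']
    refine Ev.seq _ _ _ c1'' _ ?_ hev
    rw [hc1'']
    exact Ev.inc base c1'

end DUB4aux

/-- DU-B4. Minimisation: `n := 0; k := f(n :: v); loop k (inc n; k := f(n :: v)); out := n`. -/
theorem impl_rfind {n : ℕ} (f : List.Vector ℕ (n + 1) → ℕ)
    (hf : Impl (fun v => Part.some (f v))) :
    Impl (n := n) (fun v => Nat.rfind fun k => Part.some (decide (f (k ::ᵥ v) = 0))) := by
  intro ins out base hins hout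
  obtain ⟨p, hp0⟩ := hf (Fin.cons base ins) (base + 1) (base + 2)
    (by
      intro i
      refine Fin.cases ?_ (fun j => ?_) i
      · rw [Fin.cons_zero]
        omega
      · rw [Fin.cons_succ]
        have := hins j
        omega) (by omega)
  have hp : ∀ c : ℕ → ℕ, ∃ c', Ev p c c' ∧
      c' (base + 1) = f (c base ::ᵥ List.Vector.ofFn (fun i => c (ins i))) ∧
      ∀ r, r < base + 2 → r ≠ base + 1 → c' r = c r := by
    intro c
    exact hp0 c _ (Part.mem_some _)
  refine ⟨.seq (.loop base .skip) (.seq p (.seq (.loop (base + 1) (.seq (.inc base) p))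
    (.copy out base))), fun c y hy => ?_⟩
  rw [Nat.mem_rfind] at hy
  obtain ⟨hy1, hy2⟩ := hy
  rw [Part.mem_some_iff] at hy1
  have hy1' : f (y ::ᵥ List.Vector.ofFn (fun i => c (ins i))) = 0 := of_decide_eq_true hy1.symm
  have hy2' : ∀ m, m < y → f (m ::ᵥ List.Vector.ofFn (fun i => c (ins i))) ≠ 0 := by
    intro m hm
    have h := hy2 hm
    rw [Part.mem_some_iff] at h
    exact of_decide_eq_false h.symm
  obtain ⟨c0, hc0⟩ : ∃ c0, c0 = Function.update c base 0 := ⟨_, rfl⟩
  have e0 : ∀ r, r < base → c0 r = c r := by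
    intro r hr
    rw [hc0, Function.update_of_ne (by omega)]
  have eb : c0 base = 0 := by rw [hc0, Function.update_self]
  obtain ⟨c1, hev, hv, hr⟩ := hp c0
  have e4 : List.Vector.ofFn (fun i => c0 (ins i)) = List.Vector.ofFn (fun i => c (ins i)) := by
    congr 1
    funext i
    exact e0 _ (hins i)
  rw [eb, e4] at hv
  obtain ⟨c2, hev2, hb, hr2⟩ := DUB4aux.main_loop f ins base hins p hp c y hy1' hy2' y 0 c1
    (by omega) (by rw [hr base (by omega) (by omega), eb]) hv
    (fun r hrr => by rw [hr r (by omega) (by omega), e0 r hrr])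
  refine ⟨Function.update c2 out (c2 base), ?_, ?_, ?_⟩
  · refine Ev.seq _ _ _ c0 _ ?_ (Ev.seq _ _ _ c1 _ hev (Ev.seq _ _ _ c2 _ hev2 (Ev.copy out base c2)))
    rw [hc0]
    exact DUB4aux.clear base (c base) c rfl
  · rw [Function.update_self, hb]
  · intro r hrb hro
    rw [Function.update_of_ne hro, hr2 r hrb]

end Pool.Agent.Helper70.DU
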