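import Pool.Agent.Helper70.DU.Defs2
import Pool.Agent.Helper70.DU.St.B1
import Pool.Agent.Helper70.DU.St.B2
import Pool.Agent.Helper70.DU.St.B3
import Pool.Agent.Helper70.DU.St.B4

namespace Pool.Agent.Helper70.DU

universe u

namespace DUB5aux

theorem impl_prim {n : ℕ} (f : List.Vector ℕ n → ℕ) (hf : Nat.Primrec' f) :
    Impl (fun v => Part.some (f v)) := by
  induction hf with
  | zero => exact impl_zero
  | succ => exact impl_succ
  | get i => exact impl_get i
  | @comp m n f g _ _ hf hg =>
    have h := impl_comp (fun v => Part.some (f v)) (fun i v => Part.some (g i v)) hf hg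
    have e : (fun v : List.Vector ℕ m => (List.Vector.mOfFn fun i => Part.some (g i v)) >>=
        fun w => Part.some (f w)) =
        fun v => Part.some (f (List.Vector.ofFn fun i => g i v)) := by
      funext v
      rw [Vector.mOfFn_part_some]
      exact Part.bind_some _ _
    rw [e] at h
    exact h
  | prec _ _ hf hg => exact impl_prec _ _ hf hg

end DUB5aux

/-- DU-B5. -/
theorem impl_partrec' {n : ℕ} (f : List.Vector ℕ n →. ℕ) (hf : Nat.Partrec' f) : Impl f := by
  induction hf with
  | prim hf => exact DUB5aux.impl_prim _ hf
  | comp g _ _ hf hg => exact impl_comp _ g hf hg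
  | @rfind n f _ hf => exact impl_rfind f hf

end Pool.Agent.Helper70.DU
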