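import Pool.Agent.Helper70.DU.Defs2
import Pool.Agent.Helper70.DU.St.B5

namespace Pool.Agent.Helper70.DU

universe u

/-- DU-B6. A program for the diagonal of the universal function. -/
theorem diag_prog : ∃ P : WP, ∀ n y : ℕ,
    y ∈ (Denumerable.ofNat Nat.Partrec.Code n).eval n →
      ∃ c', Ev P (Function.update (fun _ => 0) 0 n) c' ∧ c' 1 = y := by
  have h1 : _root_.Partrec (fun n : ℕ => (Denumerable.ofNat Nat.Partrec.Code n).eval n) :=
    Nat.Partrec.Code.eval_part.comp (Computable.ofNat _) Computable.id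
  have h2 := Nat.Partrec'.part_iff₁.mpr h1
  obtain ⟨P, hP⟩ := impl_partrec' _ h2 (fun _ => 0) 1 2 (fun _ => by norm_num) (by norm_num)
  refine ⟨P, fun n y hy => ?_⟩
  obtain ⟨c', h, h', _⟩ := hP (Function.update (fun _ => 0) 0 n) y (by
    have e : (List.Vector.ofFn fun _ : Fin 1 => Function.update (fun _ => 0 : ℕ → ℕ) 0 n 0).head =
        n := by
      rw [List.Vector.ofFn]
      simp
    change y ∈ (Denumerable.ofNat Nat.Partrec.Code (List.Vector.ofFn fun _ : Fin 1 =>
      Function.update (fun _ => 0 : ℕ → ℕ) 0 n 0).head).eval (List.Vector.ofFn fun _ : Fin 1 =>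
      Function.update (fun _ => 0 : ℕ → ℕ) 0 n 0).head
    rw [e]; exact hy)
  exact ⟨c', h, h'⟩

end Pool.Agent.Helper70.DU
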