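import Pool.Agent.Helper70.DU.Defs2

namespace Pool.Agent.Helper70.DU

universe u

namespace DUB8aux

/-- An instruction of a program piece ending at address `e` has registers at most `r` and jump
targets at most `e`. -/
def Ok (r e : ℕ) (x : FI) : Prop :=
  match x with
  | .inc i => i ≤ r
  | .copy i j => i ≤ r ∧ j ≤ r
  | .djz i q => i ≤ r ∧ q ≤ e
  | .jmp q => q ≤ e

theorem Ok.mono {r r' e e' : ℕ} (hr : r ≤ r') (he : e ≤ e') {x : FI} (h : Ok r e x) :
    Ok r' e' x := by
  cases x with
  | inc i => exact le_trans h hr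
  | copy i j => exact ⟨le_trans h.1 hr, le_trans h.2 hr⟩
  | djz i q => exact ⟨le_trans h.1 hr, le_trans h.2 he⟩
  | jmp q => exact le_trans h he

theorem key (p : WP) : ∃ r, ∀ a, ∀ x ∈ cmp p a, Ok r (a + (cmp p a).length) x := by
  induction p with
  | skip => exact ⟨0, fun a x hx => by simp [cmp] at hx⟩
  | inc i =>
    refine ⟨i, fun a x hx => ?_⟩
    simp only [cmp, List.mem_singleton] at hx
    subst hx
    exact le_refl i
  | copy i j =>
    refine ⟨max i j, fun a x hx => ?_⟩
    simp only [cmp, List.mem_singleton] at hx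
    subst hx
    exact ⟨le_max_left _ _, le_max_right _ _⟩
  | seq p q ihp ihq =>
    obtain ⟨r1, h1⟩ := ihp
    obtain ⟨r2, h2⟩ := ihq
    refine ⟨max r1 r2, fun a x hx => ?_⟩
    simp only [cmp, List.mem_append] at hx
    rw [cmp, List.length_append]
    rcases hx with hx | hx
    · exact (h1 a x hx).mono (le_max_left _ _) (by omega)
    · exact (h2 _ x hx).mono (le_max_right _ _) (by omega)
  | loop i p ih =>
    obtain ⟨r, h⟩ := ih
    refine ⟨max i r, fun a x hx => ?_⟩
    have hlen : (cmp (.loop i p) a).length = (cmp p (a + 1)).length + 2 := by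
      simp [cmp]
    rw [hlen]
    simp only [cmp, List.mem_cons, List.mem_append, List.not_mem_nil, or_false] at hx
    rcases hx with hx | hx | hx
    · subst hx
      exact ⟨le_max_left _ _, by omega⟩
    · exact (h _ x hx).mono (le_max_right _ _) (by omega)
    · subst hx
      exact Nat.le_add_right _ _

end DUB8aux

/-- DU-B8. -/
theorem cmp_good (p : WP) : ∃ r, FGood (cmp p 0) r := by
  obtain ⟨r, h⟩ := DUB8aux.key p
  refine ⟨r, fun x hx => ?_⟩
  have h1 := h 0 x hx
  rw [Nat.zero_add] at h1
  cases x with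
  | inc i => exact h1
  | copy i j => exact h1
  | djz i q => exact h1
  | jmp q => exact h1

end Pool.Agent.Helper70.DU
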