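import Pool.Agent.Helper70.DU.Defs2

namespace Pool.Agent.Helper70.DU

universe u

/-- DU-B7. Forward simulation of the compiled program. -/
theorem cmp_sim (p : WP) (c c' : ℕ → ℕ) (h : Ev p c c') (L : List FI) (a : ℕ)
    (hL : ∀ k, k < (cmp p a).length → L[a + k]? = (cmp p a)[k]?) :
    Relation.ReflTransGen (FStep L) (a, c) (a + (cmp p a).length, c') := by
  induction h generalizing a with
  | skip c => exact Relation.ReflTransGen.refl
  | inc i c =>
    have h0 := hL 0 (by simp [cmp])
    rw [Nat.add_zero] at h0
    exact Relation.ReflTransGen.single ⟨.inc i, by rw [h0]; rfl, rfl⟩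
  | copy i j c =>
    have h0 := hL 0 (by simp [cmp])
    rw [Nat.add_zero] at h0
    exact Relation.ReflTransGen.single ⟨.copy i j, by rw [h0]; rfl, rfl⟩
  | seq p q c c' c'' _ _ ih1 ih2 =>
    have hlen : (cmp (.seq p q) a).length =
        (cmp p a).length + (cmp q (a + (cmp p a).length)).length := by
      simp [cmp]
    have h1 := ih1 a (fun k hk => by
      rw [hL k (by rw [hlen]; omega)]
      simp only [cmp]
      rw [List.getElem?_append_left hk])
    have h2 := ih2 (a + (cmp p a).length) (fun k hk => by
      rw [Nat.add_assoc, hL ((cmp p a).length + k) (by rw [hlen]; omega)]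
      simp only [cmp]
      rw [List.getElem?_append_right (by omega)]
      congr 1
      omega)
    rw [hlen, ← Nat.add_assoc]
    exact h1.trans h2
  | loop0 i p c hc =>
    have hlen : (cmp (.loop i p) a).length = (cmp p (a + 1)).length + 2 := by
      simp [cmp]
    have h0 := hL 0 (by rw [hlen]; omega)
    rw [Nat.add_zero] at h0
    refine Relation.ReflTransGen.single ⟨.djz i (a + (cmp p (a + 1)).length + 2), ?_, ?_⟩
    · rw [h0]; rfl
    · simp only [fexec, hc, if_true, hlen]
      rfl
  | loop1 i p c c' c'' hc _ _ ih1 ih2 =>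
    have hlen : (cmp (.loop i p) a).length = (cmp p (a + 1)).length + 2 := by
      simp [cmp]
    have h0 := hL 0 (by rw [hlen]; omega)
    rw [Nat.add_zero] at h0
    have s1 : FStep L (a, c) (a + 1, Function.update c i (c i - 1)) := by
      refine ⟨.djz i (a + (cmp p (a + 1)).length + 2), ?_, ?_⟩
      · rw [h0]; rfl
      · simp only [fexec, if_neg hc.ne']
    have s2 := ih1 (a + 1) (fun k hk => by
      rw [Nat.add_assoc, Nat.add_comm 1 k, hL (k + 1) (by rw [hlen]; omega)]
      simp only [cmp]
      rw [List.getElem?_cons_succ, List.getElem?_append_left hk])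
    have s3 : FStep L (a + 1 + (cmp p (a + 1)).length, c') (a, c') := by
      refine ⟨.jmp a, ?_, rfl⟩
      change L[a + 1 + (cmp p (a + 1)).length]? = _
      rw [Nat.add_assoc, Nat.add_comm 1, hL ((cmp p (a + 1)).length + 1) (by rw [hlen]; omega)]
      simp only [cmp]
      rw [List.getElem?_cons_succ, List.getElem?_append_right (le_refl _), Nat.sub_self]
      rfl
    have s4 := ih2 a hL
    exact (Relation.ReflTransGen.head s1 (s2.trans (Relation.ReflTransGen.head s3 s4)))

end Pool.Agent.Helper70.DU
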