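import Pool.Agent.Helper70.DU.Defs2
import Pool.Agent.Helper70.DU.St.B7

namespace Pool.Agent.Helper70.DU

universe u

namespace DUB9aux

theorem fstep_unique (L : List FI) : Relator.RightUnique (FStep L) := by
  rintro s t t' ⟨x, hx, ht⟩ ⟨y, hy, ht'⟩
  rw [hx] at hy
  obtain rfl := Option.some.inj hy
  rw [ht, ht']

theorem get_tail (P : WP) :
    cmp (.seq P (.loop 1 (.inc 1))) 0 =
      cmp P 0 ++ [.djz 1 ((cmp P 0).length + 3), .inc 1, .jmp (cmp P 0).length] := by
  simp [cmp]

end DUB9aux

open DUB9aux in
/-- DU-B9. The program `P; loop 1 (inc 1)` halts iff the output of `P` is `0`. -/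
theorem cmp_halt (P : WP) (n : ℕ) (c' : ℕ → ℕ)
    (h : Ev P (Function.update (fun _ => 0) 0 n) c') :
    FHalts (cmp (.seq P (.loop 1 (.inc 1))) 0) n ↔ c' 1 = 0 := by
  rw [get_tail]
  obtain ⟨l, hl⟩ : ∃ l, l = (cmp P 0).length := ⟨_, rfl⟩
  obtain ⟨L, hL⟩ : ∃ L, L = cmp P 0 ++ [FI.djz 1 ((cmp P 0).length + 3), .inc 1,
    .jmp (cmp P 0).length] := ⟨_, rfl⟩
  rw [← hL]
  have hlen : L.length = l + 3 := by rw [hL, hl]; simp
  have h0 : L[l]? = some (.djz 1 (l + 3)) := by
    rw [hL, hl]; simp
  have h1 : L[l + 1]? = some (.inc 1) := by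
    rw [hL, hl, List.getElem?_append_right (by omega)]; simp
  have h2 : L[l + 2]? = some (.jmp l) := by
    rw [hL, hl, List.getElem?_append_right (by omega)]; simp
  have hsim : Relation.ReflTransGen (FStep L) (0, Function.update (fun _ => 0) 0 n) (l, c') := by
    have := cmp_sim P _ c' h L 0 (by
      intro k hk
      rw [hL, Nat.zero_add, List.getElem?_append_left hk])
    rw [Nat.zero_add, ← hl] at this
    exact this
  constructor
  · rintro ⟨d, hd⟩
    by_contra hne
    rcases Relation.ReflTransGen.total_of_right_unique (fstep_unique L) hd hsim with h3 | h3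
    · -- the end has no successor
      rcases Relation.ReflTransGen.cases_head h3 with h4 | ⟨t, ⟨x, hx, -⟩, -⟩
      · have := congrArg Prod.fst h4
        simp only at this
        omega
      · rw [List.getElem?_eq_none (le_refl _)] at hx
        cases hx
    · have inv : ∀ s, Relation.ReflTransGen (FStep L) (l, c') s →
          (s.1 = l ∧ s.2 1 ≠ 0) ∨ s.1 = l + 1 ∨ (s.1 = l + 2 ∧ s.2 1 ≠ 0) := by
        intro s hs
        induction hs with
        | refl => exact Or.inl ⟨rfl, hne⟩
        | tail _ hst ih =>
          rename_i s t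
          obtain ⟨x, hx, rfl⟩ := hst
          rcases ih with ⟨ha, hb⟩ | ha | ⟨ha, hb⟩
          · rw [ha, h0] at hx
            obtain rfl := Option.some.inj hx
            right; left
            simp only [fexec, if_neg hb, ha]
          · rw [ha, h1] at hx
            obtain rfl := Option.some.inj hx
            right; right
            simp [fexec, ha]
          · rw [ha, h2] at hx
            obtain rfl := Option.some.inj hx
            left
            exact ⟨rfl, hb⟩
      have := inv _ h3
      simp only [hlen] at this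
      omega
  · intro h3
    refine ⟨c', hsim.tail ⟨_, h0, ?_⟩⟩
    simp only [fexec, if_pos h3, hlen]

end Pool.Agent.Helper70.DU
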