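import Pool.Agent.Helper70.DU.Defs2
import Pool.Agent.Helper70.DU.St.B6
import Pool.Agent.Helper70.DU.St.B8
import Pool.Agent.Helper70.DU.St.B9

namespace Pool.Agent.Helper70.DU

universe u

/-- DU-B10. A flat program with undecidable halting problem. -/
theorem flat_undec : ∃ (L : List FI) (r : ℕ), FGood L r ∧ ¬ ComputablePred (FHalts L) := by
  obtain ⟨P, hP⟩ := diag_prog
  obtain ⟨r, hr⟩ := cmp_good (.seq P (.loop 1 (.inc 1)))
  refine ⟨cmp (.seq P (.loop 1 (.inc 1))) 0, r, hr, fun hcomp => ?_⟩
  obtain ⟨f, hf, hfp⟩ := ComputablePred.computable_iff.mp hcomp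
  -- the contrarian function
  have hg : Computable fun n : ℕ => cond (f n) 1 0 :=
    Computable.cond hf (Computable.const 1) (Computable.const 0)
  obtain ⟨e, he⟩ := Nat.Partrec.Code.exists_code.mp (Partrec.nat_iff.mp hg.partrec)
  have h1 : (cond (f (Encodable.encode e)) 1 0 : ℕ) ∈
      (Denumerable.ofNat Nat.Partrec.Code (Encodable.encode e)).eval (Encodable.encode e) := by
    rw [Denumerable.ofNat_encode, he]
    exact Part.mem_some _
  obtain ⟨c', hc', hy⟩ := hP _ _ h1
  have h2 := cmp_halt P _ c' hc'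
  rw [hfp, hy] at h2
  cases hb : f (Encodable.encode e) with
  | true => simp [hb] at h2
  | false => simp [hb] at h2

end Pool.Agent.Helper70.DU
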