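import Pool.Agent.Helper70.DU.Defs2

namespace Pool.Agent.Helper70.DU

universe u

namespace DUB11aux

theorem mkR_val {r i : ℕ} (hi : i ≤ r) : (mkR r i : ℕ) = i := by
  simp [mkR, hi]

theorem res_update {r : ℕ} (c : ℕ → ℕ) {i : ℕ} (hi : i ≤ r) (v : ℕ) :
    (fun k : Fin (r + 1) => Function.update c i v (k : ℕ)) =
      Function.update (fun k : Fin (r + 1) => c (k : ℕ)) (mkR r i) v := by
  funext k
  by_cases h : k = mkR r i
  · subst h
    rw [Function.update_self, mkR_val hi, Function.update_self]
  · have h' : (k : ℕ) ≠ i := fun h2 => h (Fin.ext (by rw [mkR_val hi, h2]))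
    rw [Function.update_of_ne h, Function.update_of_ne h']

theorem next_eq (L : List FI) (r n : ℕ) (w : MI L.length) (q : Fin (numSt L n)) (z : ℕ)
    (h : nextW L w q.val = some z) (hz : z < numSt L n) :
    (machF L r n).next w q = some ⟨z, hz⟩ := by
  change cutN _ (nextW L w q.val) = _
  rw [h]
  simp [cutN, hz]

/-- one step of `machF` -/
theorem reach_step (L : List FI) (r n : ℕ) (w : MI L.length) {q z : ℕ} (hq : q < numSt L n)
    (c c' : Fin (r + 1) → ℕ) (h : Reach (machF L r n) none ⟨q, hq⟩ c)
    (h1 : nextW L w q = some z) (hz : z < numSt L n) (h2 : KStep (kindW L r w) c c') :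
    Reach (machF L r n) none ⟨z, hz⟩ c' := by
  refine Reach.step (T := machF L r n) (N := none) (⟨q, hq⟩ : Fin (numSt L n)) ⟨z, hz⟩ c c' w h
    (next_eq L r n w ⟨q, hq⟩ z h1 hz) h2 ?_
  intro m hm
  exact absurd hm (by simp)

/-- feeding the input -/
theorem feed (L : List FI) (r n : ℕ) (j : ℕ) (hj : j ≤ n) :
    ∀ h : L.length + 1 + n - j < numSt L n,
      Reach (machF L r n) none ⟨L.length + 1 + n - j, h⟩
        (fun k : Fin (r + 1) => Function.update (fun _ => 0) 0 j (k : ℕ)) := by
  induction j with
  | zero =>
    intro h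
    have h1 : (fun k : Fin (r + 1) => Function.update (fun _ => 0) 0 0 (k : ℕ)) =
        fun _ => (0 : ℕ) := by
      funext k
      by_cases hk : (k : ℕ) = 0
      · rw [hk, Function.update_self]
      · rw [Function.update_of_ne hk]
    rw [h1]
    exact Reach.start
  | succ j ih =>
    intro h
    have hlt : L.length + 1 + n - j < numSt L n := by unfold numSt; omega
    refine reach_step L r n .feed hlt _ _ (ih (by omega) hlt) ?_ h ?_
    · simp only [nextW]
      rw [if_pos (by omega)]
      congr 1
    · simp only [kindW, KStep]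
      rw [← res_update _ (Nat.zero_le r)]
      funext k
      rw [mkR_val (Nat.zero_le r), Function.update_self, Function.update_idem]

theorem go (L : List FI) (r n : ℕ) (h : 0 < numSt L n) :
    Reach (machF L r n) none ⟨0, h⟩
      (fun k : Fin (r + 1) => Function.update (fun _ => 0) 0 n (k : ℕ)) := by
  have hlt : L.length + 1 + n - n < numSt L n := by unfold numSt; omega
  refine reach_step L r n .go hlt _ _ (feed L r n n le_rfl hlt) ?_ h ?_
  · simp only [nextW]
    rw [if_pos (by omega)]
  · simp only [kindW, KStep]
    rw [Function.update_eq_self]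

end DUB11aux

open DUB11aux

/-- DU-B11. -/
theorem mach_fwd (L : List FI) (r n : ℕ) (hL : FGood L r) (h : FHalts L n) :
    Halts (machF L r n) := by
  obtain ⟨c, hc⟩ := h
  have key : ∀ s : ℕ × (ℕ → ℕ),
      Relation.ReflTransGen (FStep L) (0, Function.update (fun _ => 0) 0 n) s →
      ∃ h : s.1 < numSt L n, Reach (machF L r n) none ⟨s.1, h⟩
        (fun k : Fin (r + 1) => s.2 (k : ℕ)) := by
    intro s hs
    induction hs with
    | refl => exact ⟨by unfold numSt; omega, go L r n _⟩
    | @tail s t _ hst ih =>
      obtain ⟨hq, hr⟩ := ih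
      obtain ⟨x, hx, rfl⟩ := hst
      obtain ⟨ha, hx'⟩ := List.getElem?_eq_some_iff.1 hx
      have hxm : x ∈ L := by rw [← hx']; exact List.getElem_mem ha
      have hg := hL x hxm
      have hLa : L[(⟨s.1, ha⟩ : Fin L.length)] = x := hx'
      cases x with
      | inc i =>
        have hlt : s.1 + 1 < numSt L n := by unfold numSt; omega
        refine ⟨hlt, reach_step L r n (.main ⟨s.1, ha⟩ false) hq _ _ hr ?_ hlt ?_⟩
        · simp only [nextW, if_true, hLa]
        · simp only [kindW, hLa, KStep, fexec]
          rw [res_update _ hg, mkR_val hg]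
      | copy i j =>
        have hlt : s.1 + 1 < numSt L n := by unfold numSt; omega
        refine ⟨hlt, reach_step L r n (.main ⟨s.1, ha⟩ false) hq _ _ hr ?_ hlt ?_⟩
        · simp only [nextW, if_true, hLa]
        · simp only [kindW, hLa, KStep, fexec]
          rw [res_update _ hg.1, mkR_val hg.2]
      | djz i q =>
        by_cases h0 : s.2 i = 0
        · have e : fexec (.djz i q) s.1 s.2 = (q, s.2) := by simp [fexec, h0]
          rw [e]
          have hlt : q < numSt L n := by
            have := hg.2
            unfold numSt; omega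
          refine ⟨hlt, reach_step L r n (.main ⟨s.1, ha⟩ true) hq _ _ hr ?_ hlt ?_⟩
          · simp only [nextW, if_true, hLa]
          · simp only [kindW, hLa, KStep]
            rw [mkR_val hg.1]
            exact ⟨h0, trivial⟩
        · have e : fexec (.djz i q) s.1 s.2 = (s.1 + 1, Function.update s.2 i (s.2 i - 1)) := by
            simp [fexec, h0]
          rw [e]
          have hlt : s.1 + 1 < numSt L n := by unfold numSt; omega
          refine ⟨hlt, reach_step L r n (.main ⟨s.1, ha⟩ false) hq _ _ hr ?_ hlt ?_⟩
          · simp only [nextW, if_true, hLa]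
          · simp only [kindW, hLa, KStep]
            rw [mkR_val hg.1]
            exact ⟨Nat.pos_of_ne_zero h0, res_update _ hg.1 _⟩
      | jmp q =>
        have hlt : q < numSt L n := by
          have : q ≤ L.length := hg
          unfold numSt; omega
        refine ⟨hlt, reach_step L r n (.main ⟨s.1, ha⟩ false) hq _ _ hr ?_ hlt ?_⟩
        · simp only [nextW, if_true, hLa]
        · simp only [kindW, hLa, KStep, fexec]
          rw [Function.update_eq_self]
  obtain ⟨hlt, hr⟩ := key _ hc
  exact ⟨_, hr⟩

end Pool.Agent.Helper70.DU
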