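import Pool.Agent.Helper70.DU.Defs2

namespace Pool.Agent.Helper70.DU

universe u

namespace B12aux

/-- extension of the register contents to all natural numbers -/
def ext (r : ℕ) (c : Fin (r + 1) → ℕ) : ℕ → ℕ := fun i => if i ≤ r then c (mkR r i) else 0

theorem ext_of_le {r : ℕ} (c : Fin (r + 1) → ℕ) {i : ℕ} (h : i ≤ r) :
    ext r c i = c (mkR r i) := by
  simp [ext, h]

theorem mkR_inj {r i j : ℕ} (hi : i ≤ r) (hj : j ≤ r) (h : mkR r i = mkR r j) : i = j := by
  have := congrArg Fin.val h
  simp only [mkR] at this
  omega

theorem ext_update {r : ℕ} (c : Fin (r + 1) → ℕ) {i : ℕ} (h : i ≤ r) (v : ℕ) :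
    ext r (Function.update c (mkR r i) v) = Function.update (ext r c) i v := by
  funext x
  by_cases hx : x = i
  · subst hx
    simp [ext, h]
  · rw [Function.update_of_ne hx]
    unfold ext
    by_cases hxr : x ≤ r
    · rw [if_pos hxr, if_pos hxr, Function.update_of_ne]
      intro hh
      exact hx (mkR_inj hxr h hh)
    · rw [if_neg hxr, if_neg hxr]

theorem cutN_some {N : ℕ} {x : Option ℕ} {y : Fin N} (h : cutN N x = some y) :
    x = some y.val := by
  unfold cutN at h
  split at h
  · rename_i z
    split_ifs at h with h1
    simp only [Option.some.injEq] at h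
    rw [← h]
  · exact absurd h (by simp)

/-- the invariant -/
def IV (L : List FI) (r n : ℕ) (q : ℕ) (c : Fin (r + 1) → ℕ) : Prop :=
  (q ≤ L.length →
    Relation.ReflTransGen (FStep L) (0, Function.update (fun _ => 0) 0 n) (q, ext r c)) ∧
  (∀ j, q = L.length + 1 + j → j ≤ n ∧ c = Function.update (fun _ => 0) (mkR r 0) (n - j))

theorem step_main (L : List FI) (r : ℕ) (hL : FGood L r) (a : Fin L.length) (z : Bool)
    (q q' : ℕ) (c c' : Fin (r + 1) → ℕ) (h1 : nextW L (.main a z) q = some q')
    (h2 : KStep (kindW L r (.main a z)) c c') :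
    q = a ∧ FStep L (q, ext r c) (q', ext r c') ∧ q' ≤ L.length := by
  have hx := hL L[a] (List.getElem_mem _)
  have hget : L[(a : ℕ)]? = some L[a] := by simp
  simp only [nextW] at h1
  split_ifs at h1 with hq
  refine ⟨hq, ?_⟩
  subst hq
  have ha := a.isLt
  simp only [kindW] at h2
  revert h1 h2 hx hget
  generalize L[a] = x
  intro h2 hx hget h1
  cases x with
  | inc i =>
    cases z with
    | false =>
      simp only [Option.some.injEq] at h1
      simp only [KStep] at h2
      subst h1
      refine ⟨⟨_, hget, ?_⟩, ha⟩
      simp only [fexec]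
      rw [h2, ext_update c hx, ext_of_le c hx]
    | true => simp at h1
  | copy i j =>
    cases z with
    | false =>
      simp only [Option.some.injEq] at h1
      simp only [KStep] at h2
      subst h1
      refine ⟨⟨_, hget, ?_⟩, ha⟩
      simp only [fexec]
      rw [h2, ext_update c hx.1, ext_of_le c hx.2]
    | true => simp at h1
  | djz i t =>
    cases z with
    | false =>
      simp only [Option.some.injEq] at h1
      simp only [KStep] at h2
      subst h1
      refine ⟨⟨_, hget, ?_⟩, ha⟩
      simp only [fexec]
      rw [h2.2, ext_update c hx.1, ext_of_le c hx.1, if_neg (by omega)]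
    | true =>
      simp only [Option.some.injEq] at h1
      simp only [KStep] at h2
      subst h1
      refine ⟨⟨_, hget, ?_⟩, hx.2⟩
      simp only [fexec]
      rw [h2.2, ext_of_le c hx.1, if_pos h2.1]
  | jmp t =>
    cases z with
    | false =>
      simp only [Option.some.injEq] at h1
      simp only [KStep] at h2
      subst h1
      refine ⟨⟨_, hget, ?_⟩, hx⟩
      simp only [fexec]
      rw [h2, Function.update_eq_self]
    | true => simp at h1

theorem step_IV (L : List FI) (r n : ℕ) (hL : FGood L r) (w : MI L.length)
    (q q' : ℕ) (c c' : Fin (r + 1) → ℕ) (hI : IV L r n q c) (h1 : nextW L w q = some q')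
    (h2 : KStep (kindW L r w) c c') : IV L r n q' c' := by
  cases w with
  | main a z =>
    obtain ⟨ha, hs, hq'⟩ := step_main L r hL a z q q' c c' h1 h2
    have hal := a.isLt
    refine ⟨fun _ => (hI.1 (by omega)).tail hs, fun j hj => ?_⟩
    omega
  | feed =>
    simp only [nextW] at h1
    split_ifs at h1 with hq
    simp only [Option.some.injEq] at h1
    simp only [kindW, KStep] at h2
    refine ⟨fun hh => by omega, fun j hj => ?_⟩
    obtain ⟨hj1, hc⟩ := hI.2 (j + 1) (by omega)
    refine ⟨by omega, ?_⟩
    rw [h2, hc, Function.update_self, Function.update_idem]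
    congr 1
    omega
  | go =>
    simp only [nextW] at h1
    split_ifs at h1 with hq
    simp only [Option.some.injEq] at h1
    simp only [kindW, KStep] at h2
    rw [Function.update_eq_self] at h2
    obtain ⟨_, hc⟩ := hI.2 0 (by omega)
    subst h1
    refine ⟨fun _ => ?_, fun j hj => by omega⟩
    rw [h2, hc, ext_update _ (Nat.zero_le r)]
    have : ext r (fun _ => 0) = fun _ => 0 := by
      funext x
      simp [ext]
    rw [this]
    exact Relation.ReflTransGen.refl

theorem reach_IV (L : List FI) (r n : ℕ) (hL : FGood L r) (N : Option ℕ)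
    (q : Fin (numSt L n)) (c : Fin (r + 1) → ℕ) (h : Reach (machF L r n) N q c) :
    IV L r n q.val c := by
  induction h with
  | start =>
    refine ⟨fun hh => ?_, fun j hj => ?_⟩
    · simp only [machF] at hh
      omega
    · simp only [machF] at hj
      have : j = n := by omega
      subst this
      refine ⟨le_rfl, ?_⟩
      rw [Nat.sub_self]
      funext x
      simp [Function.update_apply]
  | step q q' c c' w _ h1 h2 _ ih =>
    exact step_IV L r n hL w q.val q'.val c c' ih (cutN_some h1) h2

end B12aux

/-- DU-B12. -/
theorem mach_bwd (L : List FI) (r n : ℕ) (hL : FGood L r) (h : Halts (machF L r n)) :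
    FHalts L n := by
  obtain ⟨c, hc⟩ := h
  exact ⟨B12aux.ext r c, (B12aux.reach_IV L r n hL none _ c hc).1 le_rfl⟩

end Pool.Agent.Helper70.DU
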