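import Pool.Agent.Helper70.DU.Defs2

namespace Pool.Agent.Helper70.DU

universe u

namespace DUF1aux

theorem toFx_ofFx {R : ℕ} (x : Fx R × ℕ) : toFx (ofFx x) = x := by
  obtain ⟨⟨k, r, z⟩, n⟩ := x
  cases z <;> cases n <;> rfl

theorem ofFx_toFx {R : ℕ} (a : El R ℕ) : ofFx (toFx a) = a := by
  obtain ⟨k, r, f⟩ := a
  rcases f with _ | _ | _ | ⟨q, z⟩
  · rfl
  · rfl
  · rfl
  · cases z <;> rfl

end DUF1aux

open DUF1aux in
/-- DU-F1. -/
theorem encN_decN {R : ℕ} (x : ℕ) : encN (decN (R := R) x) = x := by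
  unfold encN decN
  rw [toFx_ofFx]
  simp only [Equiv.apply_symm_apply]
  exact Nat.mod_add_div x (CF R)

open DUF1aux in
theorem decN_encN {R : ℕ} (a : El R ℕ) : decN (encN a) = a := by
  unfold encN decN
  have h1 : ((eFx R (toFx a).1 : ℕ) + CF R * (toFx a).2) % CF R = (eFx R (toFx a).1 : ℕ) := by
    rw [Nat.add_mul_mod_self_left, Nat.mod_eq_of_lt (eFx R (toFx a).1).2]
  have h2 : ((eFx R (toFx a).1 : ℕ) + CF R * (toFx a).2) / CF R = (toFx a).2 := by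
    rw [Nat.add_mul_div_left _ _ (CF_pos R), Nat.div_eq_of_lt (eFx R (toFx a).1).2, Nat.zero_add]
  have h3 : (⟨((eFx R (toFx a).1 : ℕ) + CF R * (toFx a).2) % CF R,
      Nat.mod_lt _ (CF_pos R)⟩ : Fin (CF R)) = eFx R (toFx a).1 := Fin.ext h1
  rw [h3, h2, Equiv.symm_apply_apply]
  exact ofFx_toFx a

end Pool.Agent.Helper70.DU
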