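import Pool.Agent.Helper70.DU.Defs2

namespace Pool.Agent.Helper70.DU

universe u

namespace DUF10aux

/-- a surjection from a visibly finite type onto the operation names -/
def toOp {R : ℕ} {W : Type} :
    (Fin 9 ⊕ Reg R) ⊕ ((Bool × (K3 × K3) × (K3 × K3)) ⊕ (Reg R ⊕ W)) → Op R W
  | .inl (.inl i) =>
    match i with
    | 0 => .comb
    | 1 => .inf
    | 2 => .sup
    | 3 => .g
    | 4 => .merge
    | 5 => .init
    | 6 => .build
    | 7 => .unb
    | 8 => .fin
  | .inl (.inr i) => .pr i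
  | .inr (.inl (z, v, w)) => .lab z v w
  | .inr (.inr (.inl i)) => .fix i
  | .inr (.inr (.inr w)) => .instr w

theorem toOp_surj {R : ℕ} {W : Type} : Function.Surjective (toOp (R := R) (W := W)) := by
  intro o
  cases o with
  | comb => exact ⟨.inl (.inl 0), rfl⟩
  | inf => exact ⟨.inl (.inl 1), rfl⟩
  | sup => exact ⟨.inl (.inl 2), rfl⟩
  | pr i => exact ⟨.inl (.inr i), rfl⟩
  | g => exact ⟨.inl (.inl 3), rfl⟩
  | lab z v w => exact ⟨.inr (.inl (z, v, w)), rfl⟩
  | fix i => exact ⟨.inr (.inr (.inl i)), rfl⟩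
  | merge => exact ⟨.inl (.inl 4), rfl⟩
  | init => exact ⟨.inl (.inl 5), rfl⟩
  | build => exact ⟨.inl (.inl 6), rfl⟩
  | instr w => exact ⟨.inr (.inr (.inr w)), rfl⟩
  | unb => exact ⟨.inl (.inl 7), rfl⟩
  | fin => exact ⟨.inl (.inl 8), rfl⟩

/-- a surjection from a visibly finite type onto the instruction names -/
def toMI {D : ℕ} : (Fin D × Bool) ⊕ Bool → MI D
  | .inl (a, z) => .main a z
  | .inr true => .feed
  | .inr false => .go

theorem toMI_surj {D : ℕ} : Function.Surjective (toMI (D := D)) := by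
  intro o
  cases o with
  | main a z => exact ⟨.inl (a, z), rfl⟩
  | feed => exact ⟨.inr true, rfl⟩
  | go => exact ⟨.inr false, rfl⟩

end DUF10aux

/-- DU-F10. -/
theorem exists_en (R D : ℕ) : ∃ (p : ℕ) (en : Fin p → Op R (MI D)), Function.Surjective en := by
  have hMI : Finite (MI D) := Finite.of_surjective _ DUF10aux.toMI_surj
  have hfin : Finite (Op R (MI D)) := Finite.of_surjective _ DUF10aux.toOp_surj
  obtain ⟨p, ⟨e⟩⟩ := Finite.exists_equiv_fin (Op R (MI D))
  exact ⟨p, e.symm, e.symm.surjective⟩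

end Pool.Agent.Helper70.DU
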