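import Pool.Agent.Helper70.DU.Defs2

namespace Pool.Agent.Helper70.DU

universe u

namespace DUF11aux

theorem table_inj {s r : ℕ} {f g : (Fin r → Fin s) → Fin s} (h : table f = table g) : f = g := by
  unfold table at h
  have h1 := List.ofFn_injective h
  funext v
  have h2 := congrFun h1 (finFunctionFinEquiv v)
  simp only [Equiv.symm_apply_apply] at h2
  exact Fin.ext h2

end DUF11aux

/-- DU-F11. -/
theorem code_injective : Function.Injective FinAlg.code := by
  rintro ⟨s, hs, p, ar, op⟩ ⟨s', hs', p', ar', op'⟩ h
  simp only [FinAlg.code, Prod.mk.injEq] at h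
  obtain ⟨h1, h2⟩ := h
  subst h1
  have hp : p = p' := by
    have := congrArg List.length h2
    simpa using this
  subst hp
  have h3 := List.ofFn_injective h2
  have har : ar = ar' := funext fun i => (Prod.mk.inj (congrFun h3 i)).1
  subst har
  have hop : op = op' := funext fun i => DUF11aux.table_inj (Prod.mk.inj (congrFun h3 i)).2
  subst hop
  rfl

end Pool.Agent.Helper70.DU
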