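import Pool.Agent.Helper70.DU.Defs2

namespace Pool.Agent.Helper70.DU

universe u

namespace DUF2aux

theorem mapSym_inj {Q Q' : Type} {g : Q → Q'} (hg : Function.Injective g) (x y : Sym Q) :
    mapSym g x = mapSym g y ↔ x = y := by
  constructor
  · intro h
    cases x <;> cases y <;> simp only [mapSym, Sym.cfg.injEq, reduceCtorEq] at h ⊢
    exact ⟨hg h.1, h.2⟩
  · rintro rfl
    rfl

theorem mapSym_fmeet {Q Q' : Type} [DecidableEq Q] [DecidableEq Q'] {g : Q → Q'}
    (hg : Function.Injective g) (x y : Sym Q) :
    mapSym g (fmeet x y) = fmeet (mapSym g x) (mapSym g y) := by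
  unfold fmeet
  by_cases h : x = y
  · rw [if_pos h, if_pos ((mapSym_inj hg x y).mpr h)]
  · rw [if_neg h, if_neg (fun h' => h ((mapSym_inj hg x y).mp h'))]
    rfl

theorem mapSym_shiftF {Q Q' : Type} {g : Q → Q'} (s : Q → Option Q) (s' : Q' → Option Q')
    (hs : ∀ q, s' (g q) = (s q).map g) (w : Flag → Option Flag) (x : Sym Q) :
    mapSym g (shiftF s w x) = shiftF s' w (mapSym g x) := by
  cases x with
  | bot => rfl
  | dlt => rfl
  | acc => rfl
  | cfg q z =>
    simp only [mapSym, shiftF, hs]
    cases s q <;> cases w z <;> rfl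

theorem mapSym_finF {Q Q' : Type} [DecidableEq Q] [DecidableEq Q'] {g : Q → Q'}
    (hg : Function.Injective g) (qh : Q) (k : K3) (x : Sym Q) :
    mapSym g (finF qh k x) = finF (g qh) k (mapSym g x) := by
  cases x with
  | bot => rfl
  | dlt => rfl
  | acc => rfl
  | cfg q z =>
    simp only [mapSym, finF]
    by_cases h : q = qh
    · rw [if_pos h, if_pos (congrArg g h)]
      cases k <;> cases z <;> rfl
    · rw [if_neg h, if_neg (fun h' => h (hg h'))]

theorem mapSym_ite {Q Q' : Type} {g : Q → Q'} (p : Prop) [Decidable p] (x y : Sym Q) :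
    mapSym g (if p then x else y) = if p then mapSym g x else mapSym g y := by
  split_ifs <;> rfl

theorem mapSym_acc {Q Q' : Type} (g : Q → Q') (x : Sym Q) : mapSym g x = .acc ↔ x = .acc := by
  cases x <;> simp [mapSym]

theorem nextW_lt (L : List FI) (r n : ℕ) (hL : FGood L r) (w : MI L.length) (q q' : ℕ)
    (hq : q < numSt L n) (h : nextW L w q = some q') : q' < numSt L n := by
  unfold numSt at hq ⊢
  cases w with
  | main a z =>
    simp only [nextW] at h
    have ha : (a : ℕ) < L.length := a.2
    have hmem : L[a] ∈ L := List.getElem_mem _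
    have hg := hL _ hmem
    split_ifs at h with h1
    cases hLa : L[a] with
    | inc i =>
      rw [hLa] at h
      cases z <;> simp at h
      omega
    | copy i j =>
      rw [hLa] at h
      cases z <;> simp at h
      omega
    | djz i p =>
      rw [hLa] at h hg
      cases z <;> simp at h hg
      · omega
      · omega
    | jmp p =>
      rw [hLa] at h hg
      cases z <;> simp at h hg
      omega
  | feed =>
    simp only [nextW] at h
    split_ifs at h with h1
    simp only [Option.some.injEq] at h
    omega
  | go =>
    simp only [nextW] at h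
    split_ifs at h with h1
    simp only [Option.some.injEq] at h
    omega

theorem next_map (L : List FI) (r n : ℕ) (hL : FGood L r) (w : MI L.length)
    (q : Fin (numSt L n)) :
    (machN L r n).next w q.val = ((machF L r n).next w q).map Fin.val := by
  change nextW L w q.val = (cutN _ (nextW L w q.val)).map Fin.val
  cases h : nextW L w q.val with
  | none => rfl
  | some q' =>
    have h1 := nextW_lt L r n hL w q.val q' q.2 h
    simp only [cutN, dif_pos h1, Option.map_some]

theorem instr_map {R : ℕ} {Q Q' : Type} {g : Q → Q'} (s : Q → Option Q) (s' : Q' → Option Q')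
    (hs : ∀ q, s' (g q) = (s q).map g) (kd : Kind R) (a c : El R Q) :
    mapEl g (instrOp s kd a c) = instrOp s' kd (mapEl g a) (mapEl g c) := by
  cases kd with
  | inc i => simp only [instrOp, mapEl, mapSym_shiftF s s' hs]
  | dec i => simp only [instrOp, mapEl, mapSym_shiftF s s' hs]
  | zero i =>
    simp only [instrOp, mapEl, mapSym_ite, mapSym_shiftF s s' hs]
    rfl
  | copy i j => simp only [instrOp, mapEl, mapSym_shiftF s s' hs]

end DUF2aux

open DUF2aux

/-- DU-F2. -/
theorem opM_map (L : List FI) (r n : ℕ) (hL : FGood L r) (o : Op (r + 1) (MI L.length))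
    (a b c d : El (r + 1) (Fin (numSt L n))) :
    mapEl Fin.val (opM (machF L r n) o a b c d) =
      opM (machN L r n) o (mapEl Fin.val a) (mapEl Fin.val b) (mapEl Fin.val c)
        (mapEl Fin.val d) := by
  have hinj : Function.Injective (Fin.val : Fin (numSt L n) → ℕ) := Fin.val_injective
  cases o with
  | comb => rfl
  | inf => rfl
  | sup => rfl
  | pr i => rfl
  | g =>
    simp only [opM, mapEl, mapSym_ite]
    rfl
  | lab z v w =>
    simp only [opM, mapEl]
    cases lam z v w (c.k, d.k)
    · rfl
    · simp only [mapSym_ite]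
      rfl
    · simp only [mapSym_ite, mapSym_fmeet hinj]
      rfl
    · rfl
  | fix i =>
    simp only [opM, mapEl, mapSym_ite]
    rfl
  | merge =>
    simp only [opM, mapEl, mapSym_ite, mapSym_acc]
    rfl
  | init =>
    simp only [opM, mapEl, mapSym]
    rfl
  | build =>
    simp only [opM, mapEl]
    rw [mapSym_shiftF (g := Fin.val) some some (fun q => rfl)]
  | instr w =>
    simp only [opM]
    exact instr_map _ _ (next_map L r n hL w) (kindW L r w) a b
  | unb =>
    simp only [opM, mapEl]
    rw [mapSym_shiftF (g := Fin.val) _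
      (fun q => if q = (machN L r n).qh then some q else none)]
    intro q
    have h : q.val = (machN L r n).qh ↔ q = (machF L r n).qh := by
      rw [Fin.ext_iff]
      rfl
    by_cases h1 : q = (machF L r n).qh
    · rw [if_pos h1, if_pos (h.mpr h1)]
      rfl
    · rw [if_neg h1, if_neg (fun h2 => h1 (h.mp h2))]
      rfl
  | fin =>
    simp only [opM, mapEl, mapSym_ite, mapSym_finF hinj]
    rfl

end Pool.Agent.Helper70.DU
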