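import Pool.Agent.Helper70.DU.Defs2
import Pool.Agent.Helper70.DU.St.F1

namespace Pool.Agent.Helper70.DU

universe u

namespace DUF3aux

theorem bound {R N : ℕ} (a : El R (Fin N)) : (toFx (mapEl Fin.val a)).2 ≤ N := by
  obtain ⟨k, r, f⟩ := a
  cases f with
  | bot => simp [toFx, mapEl, mapSym]
  | dlt => simp [toFx, mapEl, mapSym]
  | acc => simp [toFx, mapEl, mapSym]
  | cfg q z =>
    have := q.isLt
    simp only [toFx, mapEl, mapSym]
    omega

theorem pre {R N : ℕ} (b : El R ℕ) (hb : (toFx b).2 ≤ N) :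
    ∃ a : El R (Fin N), mapEl Fin.val a = b := by
  obtain ⟨k, r, f⟩ := b
  cases f with
  | bot => exact ⟨⟨k, r, .bot⟩, rfl⟩
  | dlt => exact ⟨⟨k, r, .dlt⟩, rfl⟩
  | acc => exact ⟨⟨k, r, .acc⟩, rfl⟩
  | cfg q z =>
    simp only [toFx] at hb
    exact ⟨⟨k, r, .cfg ⟨q, by omega⟩ z⟩, rfl⟩

theorem mapEl_inj {R N : ℕ} (a b : El R (Fin N)) (h : mapEl Fin.val a = mapEl Fin.val b) :
    a = b := by
  obtain ⟨k, r, f⟩ := a
  obtain ⟨k', r', f'⟩ := b
  simp only [mapEl, El.mk.injEq] at h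
  obtain ⟨hk, hr, hf⟩ := h
  subst hk hr
  cases f <;> cases f' <;> simp_all [mapSym, Fin.ext_iff]

theorem enc_lt {R N : ℕ} (a : El R (Fin N)) : encN (mapEl Fin.val a) < (N + 1) * CF R := by
  unfold encN
  have h1 : ((eFx R (toFx (mapEl Fin.val a)).1 : Fin (CF R)) : ℕ) < CF R := Fin.isLt _
  have h2 := bound a
  have h3 : CF R * (toFx (mapEl Fin.val a)).2 ≤ CF R * N := Nat.mul_le_mul_left _ h2
  have h4 : (N + 1) * CF R = CF R + CF R * N := by ring
  rw [h4]
  exact Nat.add_lt_add_of_lt_of_le h1 h3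

theorem dec_bound {R N : ℕ} (x : ℕ) (hx : x < (N + 1) * CF R) :
    (toFx (decN (R := R) x)).2 ≤ N := by
  by_contra hcon
  push Not at hcon
  have h1 := encN_decN (R := R) x
  unfold encN at h1
  have h3 : CF R * (N + 1) ≤ CF R * (toFx (decN (R := R) x)).2 := Nat.mul_le_mul_left _ hcon
  have h4 : (N + 1) * CF R = CF R * (N + 1) := by ring
  rw [h4] at hx
  have h5 : CF R * (toFx (decN (R := R) x)).2 ≤ x := by
    rw [← h1]
    conv_lhs => rw [h1]
    exact Nat.le_add_left _ _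
  omega

end DUF3aux

/-- DU-F3. -/
theorem exists_enc (R N : ℕ) : ∃ e : El R (Fin N) ≃ Fin ((N + 1) * CF R),
    ∀ a, (e a : ℕ) = encN (mapEl Fin.val a) := by
  let f : El R (Fin N) → Fin ((N + 1) * CF R) := fun a =>
    ⟨encN (mapEl Fin.val a), DUF3aux.enc_lt a⟩
  have hinj : Function.Injective f := by
    intro a b hab
    have h1 : encN (mapEl Fin.val a) = encN (mapEl Fin.val b) := congrArg Fin.val hab
    have h2 := congrArg (decN (R := R)) h1
    rw [decN_encN, decN_encN] at h2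
    exact DUF3aux.mapEl_inj a b h2
  have hsurj : Function.Surjective f := by
    intro x
    obtain ⟨a, ha⟩ := DUF3aux.pre (decN (R := R) x.1) (DUF3aux.dec_bound x.1 x.2)
    refine ⟨a, Fin.ext ?_⟩
    show encN (mapEl Fin.val a) = x.1
    rw [ha, encN_decN]
  exact ⟨Equiv.ofBijective f ⟨hinj, hsurj⟩, fun a => rfl⟩

end Pool.Agent.Helper70.DU
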