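import Pool.Agent.Helper70.DU.Defs2
import Pool.Agent.Helper70.DU.St.F1

namespace Pool.Agent.Helper70.DU

universe u

namespace DUF4aux

/-- A function of a finite and another argument is primitive recursive if all its slices are. -/
theorem fin_case {α β σ : Type} [Primcodable α] [Finite α] [Primcodable β] [Primcodable σ]
    {f : α → β → σ} (hf : ∀ a, Primrec (f a)) : Primrec (fun p : α × β => f p.1 p.2) := by
  classical
  obtain ⟨n, ⟨e⟩⟩ := Finite.exists_equiv_fin α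
  rw [← Primrec.option_some_iff]
  have h1 : Primrec (fun p : α × β => List.ofFn fun i : Fin n => f (e.symm i) p.2) :=
    (Primrec.list_ofFn fun i => hf (e.symm i)).comp Primrec.snd
  have h2 : Primrec (fun p : α × β => ((e p.1 : Fin n) : ℕ)) :=
    (Primrec.dom_finite (fun a => ((e a : Fin n) : ℕ))).comp Primrec.fst
  refine (Primrec.list_getElem?.comp h1 h2).of_eq fun p => ?_
  rw [List.getElem?_ofFn, dif_pos (e p.1).isLt]
  congr 2
  exact e.symm_apply_apply p.1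

/-- The numbering of the fixed parts as a `Primcodable` instance. -/
noncomputable def pcFx (R : ℕ) : Primcodable (Fx R) := Primcodable.ofEquiv (Fin (CF R)) (eFx R)

attribute [local instance] pcFx

theorem decP_primrec (R : ℕ) : Primrec (fun x : ℕ =>
    ((eFx R).symm ⟨x % CF R, Nat.mod_lt _ (CF_pos R)⟩, x / CF R)) := by
  have h1 : Primrec (fun x : ℕ => (⟨x % CF R, Nat.mod_lt _ (CF_pos R)⟩ : Fin (CF R))) := by
    rw [← Primrec.fin_val_iff]
    exact Primrec.nat_mod.comp Primrec.id (Primrec.const _)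
  have h2 : Primrec (fun i : Fin (CF R) => (eFx R).symm i) := Primrec.dom_finite _
  exact (h2.comp h1).pair (Primrec.nat_div.comp Primrec.id (Primrec.const _))

theorem encP_primrec (R : ℕ) :
    Primrec (fun a : Fx R × ℕ => ((eFx R a.1 : Fin (CF R)) : ℕ) + CF R * a.2) := by
  have h1 : Primrec (fun c : Fx R => ((eFx R c : Fin (CF R)) : ℕ)) := Primrec.dom_finite _
  exact Primrec.nat_add.comp (h1.comp Primrec.fst)
    (Primrec.nat_mul.comp (Primrec.const _) Primrec.snd)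

/-- Reduction: it is enough to show that for fixed fixed parts the coded result is primitive
recursive in `n` and the four state numbers. -/
theorem numOp_primrec_of (L : List FI) (r : ℕ) (o : Op (r + 1) (MI L.length))
    (h : ∀ ca cb cc cd : Fx (r + 1), Primrec (fun p : ℕ × ℕ × ℕ × ℕ × ℕ =>
      toFx (opM (machN L r p.1) o (ofFx (ca, p.2.1)) (ofFx (cb, p.2.2.1))
        (ofFx (cc, p.2.2.2.1)) (ofFx (cd, p.2.2.2.2))))) :
    Primrec (fun p : ℕ × ℕ × ℕ × ℕ × ℕ =>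
      numOp L r p.1 o p.2.1 p.2.2.1 p.2.2.2.1 p.2.2.2.2) := by
  have h1 : Primrec (fun p : (Fx (r + 1) × Fx (r + 1) × Fx (r + 1) × Fx (r + 1)) ×
      (ℕ × ℕ × ℕ × ℕ × ℕ) =>
      toFx (opM (machN L r p.2.1) o (ofFx (p.1.1, p.2.2.1)) (ofFx (p.1.2.1, p.2.2.2.1))
        (ofFx (p.1.2.2.1, p.2.2.2.2.1)) (ofFx (p.1.2.2.2, p.2.2.2.2.2)))) :=
    fin_case (f := fun (c : Fx (r + 1) × Fx (r + 1) × Fx (r + 1) × Fx (r + 1))
      (p : ℕ × ℕ × ℕ × ℕ × ℕ) =>
      toFx (opM (machN L r p.1) o (ofFx (c.1, p.2.1)) (ofFx (c.2.1, p.2.2.1))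
        (ofFx (c.2.2.1, p.2.2.2.1)) (ofFx (c.2.2.2, p.2.2.2.2))))
      fun c => h c.1 c.2.1 c.2.2.1 c.2.2.2
  have hx := Primrec.fst.comp (Primrec.snd (α := ℕ) (β := ℕ × ℕ × ℕ × ℕ))
  have hy := Primrec.fst.comp (Primrec.snd.comp (Primrec.snd (α := ℕ) (β := ℕ × ℕ × ℕ × ℕ)))
  have hz := Primrec.fst.comp (Primrec.snd.comp
    (Primrec.snd.comp (Primrec.snd (α := ℕ) (β := ℕ × ℕ × ℕ × ℕ))))
  have ht := Primrec.snd.comp (Primrec.snd.comp
    (Primrec.snd.comp (Primrec.snd (α := ℕ) (β := ℕ × ℕ × ℕ × ℕ))))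
  have dx := (decP_primrec (r + 1)).comp hx
  have dy := (decP_primrec (r + 1)).comp hy
  have dz := (decP_primrec (r + 1)).comp hz
  have dt := (decP_primrec (r + 1)).comp ht
  have h2 := ((Primrec.fst.comp dx).pair ((Primrec.fst.comp dy).pair
    ((Primrec.fst.comp dz).pair (Primrec.fst.comp dt)))).pair
    ((Primrec.fst (α := ℕ) (β := ℕ × ℕ × ℕ × ℕ)).pair ((Primrec.snd.comp dx).pair
      ((Primrec.snd.comp dy).pair ((Primrec.snd.comp dz).pair (Primrec.snd.comp dt)))))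
  exact (encP_primrec (r + 1)).comp (h1.comp h2)

theorem ofFx_k {R : ℕ} (c : Fx R) (s : ℕ) : (ofFx (c, s)).k = c.1 := by
  obtain ⟨k, r, z⟩ := c
  cases s <;> cases z <;> rfl

theorem ofFx_r {R : ℕ} (c : Fx R) (s : ℕ) : (ofFx (c, s)).r = c.2.1 := by
  obtain ⟨k, r, z⟩ := c
  cases s <;> cases z <;> rfl

theorem toFx_f {R : ℕ} (k : K3) (r : Reg R → K3) (c : Fx R) (s : ℕ) :
    toFx ⟨k, r, (ofFx (c, s)).f⟩ = ((k, r, c.2.2), s) := by
  obtain ⟨k', r', z⟩ := c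
  cases s <;> cases z <;> rfl

end DUF4aux

open DUF4aux

attribute [local instance] DUF4aux.pcFx

/-- DU-F4. -/
theorem numOp_primrec_easy (L : List FI) (r : ℕ) (o : Op (r + 1) (MI L.length))
    (ho : o = .comb ∨ o = .inf ∨ o = .sup ∨ (∃ i, o = .pr i) ∨ o = .g ∨ (∃ i, o = .fix i) ∨
      o = .init) :
    Primrec (fun p : ℕ × ℕ × ℕ × ℕ × ℕ =>
      numOp L r p.1 o p.2.1 p.2.2.1 p.2.2.2.1 p.2.2.2.2) := by
  refine numOp_primrec_of L r o fun ca cb cc cd => ?_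
  have hx := Primrec.fst.comp (Primrec.snd (α := ℕ) (β := ℕ × ℕ × ℕ × ℕ))
  have hy := Primrec.fst.comp (Primrec.snd.comp (Primrec.snd (α := ℕ) (β := ℕ × ℕ × ℕ × ℕ)))
  have hc : ∀ {s : ℕ × ℕ × ℕ × ℕ × ℕ → ℕ}, Primrec s → ∀ c : Fx (r + 1),
      Primrec (fun p => (c, s p)) := fun hs c => (Primrec.const c).pair hs
  rcases ho with rfl | rfl | rfl | ⟨i, rfl⟩ | rfl | ⟨i, rfl⟩ | rfl
  · refine (hc hy (ca.1, cb.2.1, cb.2.2)).of_eq fun p => ?_
    show _ = toFx ⟨(ofFx (ca, p.2.1)).k, (ofFx (cb, p.2.2.1)).r, (ofFx (cb, p.2.2.1)).f⟩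
    rw [ofFx_k, ofFx_r, toFx_f]
  · refine (hc hx (ca.1.inf cb.1, ca.2.1, ca.2.2)).of_eq fun p => ?_
    show _ = toFx ⟨(ofFx (ca, p.2.1)).k.inf (ofFx (cb, p.2.2.1)).k, (ofFx (ca, p.2.1)).r,
      (ofFx (ca, p.2.1)).f⟩
    rw [ofFx_k, ofFx_k, ofFx_r, toFx_f]
  · refine (hc hx (ca.1.sup cb.1, ca.2.1, ca.2.2)).of_eq fun p => ?_
    show _ = toFx ⟨(ofFx (ca, p.2.1)).k.sup (ofFx (cb, p.2.2.1)).k, (ofFx (ca, p.2.1)).r,
      (ofFx (ca, p.2.1)).f⟩
    rw [ofFx_k, ofFx_k, ofFx_r, toFx_f]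
  · refine (hc hx (ca.2.1 i, ca.2.1, ca.2.2)).of_eq fun p => ?_
    show _ = toFx ⟨(ofFx (ca, p.2.1)).r i, (ofFx (ca, p.2.1)).r, (ofFx (ca, p.2.1)).f⟩
    rw [ofFx_r, toFx_f]
  · refine (hc (Primrec.const 0)
      (ca.1, ca.2.1, if cb.1 = .st then Flag.und else Flag.pas)).of_eq fun p => ?_
    show _ = toFx ⟨(ofFx (ca, p.2.1)).k, (ofFx (ca, p.2.1)).r,
      if (ofFx (cb, p.2.2.1)).k = .st then .bot else .dlt⟩
    rw [ofFx_k, ofFx_k, ofFx_r]
    split_ifs <;> rfl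
  · by_cases hi : ca.2.1 i = cb.1
    · refine (hc hx (ca.1, Function.update ca.2.1 i cb.1, ca.2.2)).of_eq fun p => ?_
      show _ = toFx ⟨(ofFx (ca, p.2.1)).k,
        Function.update (ofFx (ca, p.2.1)).r i (ofFx (cb, p.2.2.1)).k,
        if (ofFx (ca, p.2.1)).r i = (ofFx (cb, p.2.2.1)).k then (ofFx (ca, p.2.1)).f else .bot⟩
      rw [ofFx_k, ofFx_k, ofFx_r, if_pos hi, toFx_f]
    · refine (hc (Primrec.const 0)
        (ca.1, Function.update ca.2.1 i cb.1, Flag.und)).of_eq fun p => ?_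
      show _ = toFx ⟨(ofFx (ca, p.2.1)).k,
        Function.update (ofFx (ca, p.2.1)).r i (ofFx (cb, p.2.2.1)).k,
        if (ofFx (ca, p.2.1)).r i = (ofFx (cb, p.2.2.1)).k then (ofFx (ca, p.2.1)).f else .bot⟩
      rw [ofFx_k, ofFx_k, ofFx_r, if_neg hi]
      rfl
  · have hn : Primrec (fun p : ℕ × ℕ × ℕ × ℕ × ℕ => L.length + 1 + p.1 + 1) :=
      Primrec.succ.comp (Primrec.nat_add.comp (Primrec.const _) Primrec.fst)
    refine (hc hn (ca.1, (fun _ => ca.1), if ca.1 = .st then Flag.act else Flag.und)).of_eq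
      fun p => ?_
    show _ = toFx ⟨(ofFx (ca, p.2.1)).k, fun _ => (ofFx (ca, p.2.1)).k,
      .cfg (L.length + 1 + p.1) (if (ofFx (ca, p.2.1)).k = .st then .act else .und)⟩
    rw [ofFx_k]
    rfl

end Pool.Agent.Helper70.DU
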