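import Pool.Agent.Helper70.DU.Defs2
import Pool.Agent.Helper70.DU.St.F1
import Pool.Agent.Helper70.DU.St.F4

namespace Pool.Agent.Helper70.DU

universe u

namespace DUF5aux

theorem ofFx_f_inj {R : ℕ} (c c' : Fx R) (s s' : ℕ) :
    (ofFx (c, s)).f = (ofFx (c', s')).f ↔ c.2.2 = c'.2.2 ∧ s = s' := by
  obtain ⟨k, r, z⟩ := c
  obtain ⟨k', r', z'⟩ := c'
  cases s <;> cases s' <;> cases z <;> cases z' <;> simp [ofFx]

theorem ofFx_f_acc {R : ℕ} (c : Fx R) (s : ℕ) :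
    (ofFx (c, s)).f = .acc ↔ c.2.2 = .act ∧ s = 0 := by
  obtain ⟨k, r, z⟩ := c
  cases s <;> cases z <;> simp [ofFx]

theorem toFx_bot {R : ℕ} (k : K3) (r : Reg R → K3) :
    toFx (⟨k, r, .bot⟩ : El R ℕ) = ((k, r, .und), 0) := rfl

end DUF5aux

open DUF4aux DUF5aux

attribute [local instance] DUF4aux.pcFx

/-- DU-F5. -/
theorem numOp_primrec_lab (L : List FI) (r : ℕ) (o : Op (r + 1) (MI L.length))
    (ho : (∃ z v w, o = .lab z v w) ∨ o = .merge) :
    Primrec (fun p : ℕ × ℕ × ℕ × ℕ × ℕ =>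
      numOp L r p.1 o p.2.1 p.2.2.1 p.2.2.2.1 p.2.2.2.2) := by
  refine numOp_primrec_of L r o fun ca cb cc cd => ?_
  have hx := Primrec.fst.comp (Primrec.snd (α := ℕ) (β := ℕ × ℕ × ℕ × ℕ))
  have hy := Primrec.fst.comp (Primrec.snd.comp (Primrec.snd (α := ℕ) (β := ℕ × ℕ × ℕ × ℕ)))
  have ht := Primrec.snd.comp (Primrec.snd.comp
    (Primrec.snd.comp (Primrec.snd (α := ℕ) (β := ℕ × ℕ × ℕ × ℕ))))
  have hc : ∀ {s : ℕ × ℕ × ℕ × ℕ × ℕ → ℕ}, Primrec s → ∀ c : Fx (r + 1),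
      Primrec (fun p => (c, s p)) := fun hs c => (Primrec.const c).pair hs
  -- the three kinds of values
  have hA : Primrec (fun p : ℕ × ℕ × ℕ × ℕ × ℕ =>
      toFx (⟨ca.1, ca.2.1, (ofFx (ca, p.2.1)).f⟩ : El (r + 1) ℕ)) := by
    refine (hc hx (ca.1, ca.2.1, ca.2.2)).of_eq fun p => ?_
    rw [toFx_f]
  have hB : Primrec (fun p : ℕ × ℕ × ℕ × ℕ × ℕ =>
      toFx (⟨ca.1, ca.2.1, (ofFx (cb, p.2.2.1)).f⟩ : El (r + 1) ℕ)) := by
    refine (hc hy (ca.1, ca.2.1, cb.2.2)).of_eq fun p => ?_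
    rw [toFx_f]
  have hbot : Primrec (fun _ : ℕ × ℕ × ℕ × ℕ × ℕ =>
      toFx (⟨ca.1, ca.2.1, .bot⟩ : El (r + 1) ℕ)) := Primrec.const _
  have hB' : Primrec (fun p : ℕ × ℕ × ℕ × ℕ × ℕ =>
      toFx (⟨ca.1, ca.2.1, if ca.2.1 = cb.2.1 then (ofFx (cb, p.2.2.1)).f else .bot⟩ :
        El (r + 1) ℕ)) := by
    by_cases h : ca.2.1 = cb.2.1
    · refine hB.of_eq fun p => ?_
      rw [if_pos h]
    · refine hbot.of_eq fun p => ?_
      rw [if_neg h]
  have hM : Primrec (fun p : ℕ × ℕ × ℕ × ℕ × ℕ =>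
      toFx (⟨ca.1, ca.2.1, if ca.2.1 = cb.2.1 then
        fmeet (ofFx (ca, p.2.1)).f (ofFx (cb, p.2.2.1)).f else .bot⟩ : El (r + 1) ℕ)) := by
    by_cases h : ca.2.1 = cb.2.1 ∧ ca.2.2 = cb.2.2
    · have hE : PrimrecPred (fun p : ℕ × ℕ × ℕ × ℕ × ℕ => p.2.1 = p.2.2.1) :=
        Primrec.eq.comp hx hy
      refine (Primrec.ite hE hA hbot).of_eq fun p => ?_
      rw [if_pos h.1]
      unfold fmeet
      by_cases hs : p.2.1 = p.2.2.1
      · rw [if_pos hs, if_pos ((ofFx_f_inj _ _ _ _).2 ⟨h.2, hs⟩)]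
      · rw [if_neg hs, if_neg (fun h' => hs ((ofFx_f_inj _ _ _ _).1 h').2)]
    · refine hbot.of_eq fun p => ?_
      by_cases h1 : ca.2.1 = cb.2.1
      · rw [if_pos h1]
        unfold fmeet
        rw [if_neg (fun h' => h ⟨h1, ((ofFx_f_inj _ _ _ _).1 h').1⟩)]
      · rw [if_neg h1]
  rcases ho with ⟨z, v, w, rfl⟩ | rfl
  · cases hl : lam z v w (cc.1, cd.1) with
    | L =>
      refine hA.of_eq fun p => ?_
      show _ = toFx ⟨(ofFx (ca, p.2.1)).k, (ofFx (ca, p.2.1)).r,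
        match lam z v w ((ofFx (cc, p.2.2.2.1)).k, (ofFx (cd, p.2.2.2.2)).k) with
        | .L => (ofFx (ca, p.2.1)).f
        | .R => if (ofFx (ca, p.2.1)).r = (ofFx (cb, p.2.2.1)).r then
            (ofFx (cb, p.2.2.1)).f else .bot
        | .B => if (ofFx (ca, p.2.1)).r = (ofFx (cb, p.2.2.1)).r then
            fmeet (ofFx (ca, p.2.1)).f (ofFx (cb, p.2.2.1)).f else .bot
        | .N => .bot⟩
      simp only [ofFx_k, ofFx_r, hl]
    | R =>
      refine hB'.of_eq fun p => ?_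
      show _ = toFx ⟨(ofFx (ca, p.2.1)).k, (ofFx (ca, p.2.1)).r,
        match lam z v w ((ofFx (cc, p.2.2.2.1)).k, (ofFx (cd, p.2.2.2.2)).k) with
        | .L => (ofFx (ca, p.2.1)).f
        | .R => if (ofFx (ca, p.2.1)).r = (ofFx (cb, p.2.2.1)).r then
            (ofFx (cb, p.2.2.1)).f else .bot
        | .B => if (ofFx (ca, p.2.1)).r = (ofFx (cb, p.2.2.1)).r then
            fmeet (ofFx (ca, p.2.1)).f (ofFx (cb, p.2.2.1)).f else .bot
        | .N => .bot⟩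
      simp only [ofFx_k, ofFx_r, hl]
    | B =>
      refine hM.of_eq fun p => ?_
      show _ = toFx ⟨(ofFx (ca, p.2.1)).k, (ofFx (ca, p.2.1)).r,
        match lam z v w ((ofFx (cc, p.2.2.2.1)).k, (ofFx (cd, p.2.2.2.2)).k) with
        | .L => (ofFx (ca, p.2.1)).f
        | .R => if (ofFx (ca, p.2.1)).r = (ofFx (cb, p.2.2.1)).r then
            (ofFx (cb, p.2.2.1)).f else .bot
        | .B => if (ofFx (ca, p.2.1)).r = (ofFx (cb, p.2.2.1)).r then
            fmeet (ofFx (ca, p.2.1)).f (ofFx (cb, p.2.2.1)).f else .bot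
        | .N => .bot⟩
      simp only [ofFx_k, ofFx_r, hl]
    | N =>
      refine hbot.of_eq fun p => ?_
      show _ = toFx ⟨(ofFx (ca, p.2.1)).k, (ofFx (ca, p.2.1)).r,
        match lam z v w ((ofFx (cc, p.2.2.2.1)).k, (ofFx (cd, p.2.2.2.2)).k) with
        | .L => (ofFx (ca, p.2.1)).f
        | .R => if (ofFx (ca, p.2.1)).r = (ofFx (cb, p.2.2.1)).r then
            (ofFx (cb, p.2.2.1)).f else .bot
        | .B => if (ofFx (ca, p.2.1)).r = (ofFx (cb, p.2.2.1)).r then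
            fmeet (ofFx (ca, p.2.1)).f (ofFx (cb, p.2.2.1)).f else .bot
        | .N => .bot⟩
      simp only [ofFx_k, ofFx_r, hl]
  · -- merge
    have hin : Primrec (fun p : ℕ × ℕ × ℕ × ℕ × ℕ =>
        toFx (⟨ca.1, ca.2.1, if cc.1 = .st then
          (if ca.2.1 = cb.2.1 then (ofFx (cb, p.2.2.1)).f else .bot)
          else (ofFx (ca, p.2.1)).f⟩ : El (r + 1) ℕ)) := by
      by_cases h : cc.1 = .st
      · refine hB'.of_eq fun p => ?_
        rw [if_pos h]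
      · refine hA.of_eq fun p => ?_
        rw [if_neg h]
    have hE : PrimrecPred (fun p : ℕ × ℕ × ℕ × ℕ × ℕ => p.2.2.2.2 = 0) :=
      Primrec.eq.comp ht (Primrec.const 0)
    by_cases hd : cd.2.2 = .act
    · refine (Primrec.ite hE hin hbot).of_eq fun p => ?_
      show _ = toFx ⟨(ofFx (ca, p.2.1)).k, (ofFx (ca, p.2.1)).r,
        if (ofFx (cd, p.2.2.2.2)).f = .acc then
          if (ofFx (cc, p.2.2.2.1)).k = .st then
            (if (ofFx (ca, p.2.1)).r = (ofFx (cb, p.2.2.1)).r then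
              (ofFx (cb, p.2.2.1)).f else .bot) else (ofFx (ca, p.2.1)).f
        else .bot⟩
      by_cases hs : p.2.2.2.2 = 0
      · rw [if_pos hs, if_pos ((ofFx_f_acc _ _).2 ⟨hd, hs⟩)]
        simp only [ofFx_k, ofFx_r]
      · rw [if_neg hs, if_neg (fun h' => hs ((ofFx_f_acc _ _).1 h').2)]
        simp only [ofFx_k, ofFx_r]
    · refine hbot.of_eq fun p => ?_
      show _ = toFx ⟨(ofFx (ca, p.2.1)).k, (ofFx (ca, p.2.1)).r,
        if (ofFx (cd, p.2.2.2.2)).f = .acc then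
          if (ofFx (cc, p.2.2.2.1)).k = .st then
            (if (ofFx (ca, p.2.1)).r = (ofFx (cb, p.2.2.1)).r then
              (ofFx (cb, p.2.2.1)).f else .bot) else (ofFx (ca, p.2.1)).f
        else .bot⟩
      rw [if_neg (fun h' => hd ((ofFx_f_acc _ _).1 h').1)]
      simp only [ofFx_k, ofFx_r]

end Pool.Agent.Helper70.DU
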