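import Pool.Agent.Helper70.DU.Defs2
import Pool.Agent.Helper70.DU.St.F1

namespace Pool.Agent.Helper70.DU

universe u

namespace DUF6aux

theorem ofFx_k {R : ℕ} (x : Fx R × ℕ) : (ofFx x).k = x.1.1 := by
  obtain ⟨⟨k, ρ, z⟩, s⟩ := x
  cases z <;> cases s <;> rfl

theorem ofFx_r {R : ℕ} (x : Fx R × ℕ) : (ofFx x).r = x.1.2.1 := by
  obtain ⟨⟨k, ρ, z⟩, s⟩ := x
  cases z <;> cases s <;> rfl

theorem ofFx_succ {R : ℕ} (x : Fx R) (s : ℕ) : ofFx (x, s + 1) = ⟨x.1, x.2.1, .cfg s x.2.2⟩ := by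
  obtain ⟨k, ρ, z⟩ := x
  cases z <;> rfl

theorem ofFx_zero {R : ℕ} (x : Fx R) :
    (ofFx (x, 0)).f = .bot ∨ (ofFx (x, 0)).f = .dlt ∨ (ofFx (x, 0)).f = .acc := by
  obtain ⟨k, ρ, z⟩ := x
  cases z
  · exact Or.inl rfl
  · exact Or.inr (Or.inl rfl)
  · exact Or.inr (Or.inr rfl)

theorem encN_bot {R : ℕ} (k : K3) (ρ : Reg R → K3) :
    encN (⟨k, ρ, .bot⟩ : El R ℕ) = (eFx R (k, ρ, .und) : ℕ) := by
  simp [encN, toFx]

theorem encN_acc {R : ℕ} (k : K3) (ρ : Reg R → K3) :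
    encN (⟨k, ρ, .acc⟩ : El R ℕ) = (eFx R (k, ρ, .act) : ℕ) := by
  simp [encN, toFx]

theorem encN_cfg {R : ℕ} (k : K3) (ρ : Reg R → K3) (q : ℕ) (z : Flag) :
    encN (⟨k, ρ, .cfg q z⟩ : El R ℕ) = (eFx R (k, ρ, z) : ℕ) + CF R * (q + 1) := by
  simp [encN, toFx]

/-- general form -/
theorem prim_form (K : ℕ) (hK : 0 < K) (A B C : Fin K × Fin K → ℕ) (P : ℕ → Prop)
    [DecidablePred P] (hP : PrimrecPred P) :
    Primrec (fun p : ℕ × ℕ × ℕ × ℕ × ℕ =>
      if P (p.2.1 / K) then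
        A ((⟨p.2.1 % K, Nat.mod_lt _ hK⟩ : Fin K), (⟨p.2.2.1 % K, Nat.mod_lt _ hK⟩ : Fin K))
      else B ((⟨p.2.1 % K, Nat.mod_lt _ hK⟩ : Fin K), (⟨p.2.2.1 % K, Nat.mod_lt _ hK⟩ : Fin K)) +
        C ((⟨p.2.1 % K, Nat.mod_lt _ hK⟩ : Fin K), (⟨p.2.2.1 % K, Nat.mod_lt _ hK⟩ : Fin K)) *
          (p.2.1 / K)) := by
  have hx : Primrec (fun p : ℕ × ℕ × ℕ × ℕ × ℕ => p.2.1) := Primrec.fst.comp Primrec.snd
  have hy : Primrec (fun p : ℕ × ℕ × ℕ × ℕ × ℕ => p.2.2.1) :=
    Primrec.fst.comp (Primrec.snd.comp Primrec.snd)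
  have hcx : Primrec (fun p : ℕ × ℕ × ℕ × ℕ × ℕ =>
      (⟨p.2.1 % K, Nat.mod_lt _ hK⟩ : Fin K)) :=
    Primrec.fin_val_iff.1 (Primrec.nat_mod.comp hx (Primrec.const K))
  have hcy : Primrec (fun p : ℕ × ℕ × ℕ × ℕ × ℕ =>
      (⟨p.2.2.1 % K, Nat.mod_lt _ hK⟩ : Fin K)) :=
    Primrec.fin_val_iff.1 (Primrec.nat_mod.comp hy (Primrec.const K))
  have hs : Primrec (fun p : ℕ × ℕ × ℕ × ℕ × ℕ => p.2.1 / K) :=
    Primrec.nat_div.comp hx (Primrec.const K)
  have hpair := hcx.pair hcy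
  have hA := (Primrec.dom_finite A).comp hpair
  have hB := (Primrec.dom_finite B).comp hpair
  have hC := (Primrec.dom_finite C).comp hpair
  exact Primrec.ite (hP.comp hs) hA (Primrec.nat_add.comp hB (Primrec.nat_mul.comp hC hs))

/-- value if the flat part becomes `bot`, register `t` moved -/
noncomputable def vA (r : ℕ) (x : Fin (CF r) × Fin (CF r)) : ℕ :=
  (eFx r (((eFx r).symm x.1).1, Function.update ((eFx r).symm x.1).2.1 .t ((eFx r).symm x.2).1,
    .und) : ℕ)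

/-- fixed part of the value, register `t` moved with the flag map `w` -/
noncomputable def vB (r : ℕ) (w : K3 → K3 → Flag → Option Flag) (x : Fin (CF r) × Fin (CF r)) :
    ℕ :=
  match w (((eFx r).symm x.1).2.1 .t) ((eFx r).symm x.2).1 ((eFx r).symm x.1).2.2 with
  | some z => (eFx r (((eFx r).symm x.1).1,
      Function.update ((eFx r).symm x.1).2.1 .t ((eFx r).symm x.2).1, z) : ℕ)
  | none => vA r x

/-- factor of the state number -/
noncomputable def vC (r : ℕ) (w : K3 → K3 → Flag → Option Flag) (x : Fin (CF r) × Fin (CF r)) :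
    ℕ :=
  match w (((eFx r).symm x.1).2.1 .t) ((eFx r).symm x.2).1 ((eFx r).symm x.1).2.2 with
  | some _ => CF r
  | none => 0

theorem enc_shift {r : ℕ} (s : ℕ → Option ℕ) (w : K3 → K3 → Flag → Option Flag) (x y : ℕ)
    (P : ℕ → Prop) [DecidablePred P] (h0 : P 0) (h1 : ∀ q, P (q + 1) → s q = none)
    (h2 : ∀ q, ¬ P (q + 1) → s q = some q) :
    encN (⟨(decN (R := r) x).k, Function.update (decN (R := r) x).r .t (decN (R := r) y).k,
      shiftF s (w ((decN (R := r) x).r .t) (decN (R := r) y).k) (decN (R := r) x).f⟩ : El r ℕ) =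
    if P (x / CF r) then
      vA r (⟨x % CF r, Nat.mod_lt _ (CF_pos r)⟩, ⟨y % CF r, Nat.mod_lt _ (CF_pos r)⟩)
    else vB r w (⟨x % CF r, Nat.mod_lt _ (CF_pos r)⟩, ⟨y % CF r, Nat.mod_lt _ (CF_pos r)⟩) +
      vC r w (⟨x % CF r, Nat.mod_lt _ (CF_pos r)⟩, ⟨y % CF r, Nat.mod_lt _ (CF_pos r)⟩) *
        (x / CF r) := by
  unfold decN vB vC vA
  simp only [ofFx_k, ofFx_r]
  generalize (eFx r).symm ⟨x % CF r, Nat.mod_lt _ (CF_pos r)⟩ = fx
  generalize (eFx r).symm ⟨y % CF r, Nat.mod_lt _ (CF_pos r)⟩ = fy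
  generalize x / CF r = n
  obtain ⟨k, ρ, z⟩ := fx
  cases n with
  | zero =>
    rw [if_pos h0]
    have hf : shiftF s (w (ρ .t) fy.1) (ofFx (R := r) ((k, ρ, z), 0)).f = .bot := by
      rcases ofFx_zero (R := r) (k, ρ, z) with h | h | h <;> rw [h] <;> rfl
    simp only [hf, encN_bot]
  | succ q =>
    simp only [ofFx_succ]
    by_cases hP : P (q + 1)
    · rw [if_pos hP]
      have hf : shiftF s (w (ρ .t) fy.1) (.cfg q z) = .bot := by
        simp only [shiftF, h1 q hP]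
      rw [hf, encN_bot]
    · rw [if_neg hP]
      cases hw : w (ρ .t) fy.1 z with
      | none =>
        have hf : shiftF s (w (ρ .t) fy.1) (.cfg q z) = .bot := by
          simp only [shiftF, h2 q hP, hw]
        rw [hf, encN_bot]
        simp
      | some z' =>
        have hf : shiftF s (w (ρ .t) fy.1) (.cfg q z) = .cfg q z' := by
          simp only [shiftF, h2 q hP, hw]
        rw [hf, encN_cfg]

/-- value of `fin` when the state is not the final one -/
noncomputable def wA (r : ℕ) (x : Fin (CF r) × Fin (CF r)) : ℕ :=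
  (eFx r (((eFx r).symm x.1).1, ((eFx r).symm x.1).2.1, .und) : ℕ)

/-- value of `fin` at the final state -/
noncomputable def wB (r : ℕ) (x : Fin (CF r) × Fin (CF r)) : ℕ :=
  if ((eFx r).symm x.1).2.1 .t = ((eFx r).symm x.1).2.1 .b then
    encN (⟨((eFx r).symm x.1).1, ((eFx r).symm x.1).2.1,
      finF 0 (((eFx r).symm x.1).2.1 .t) (.cfg 0 ((eFx r).symm x.1).2.2)⟩ : El r ℕ)
  else wA r x

theorem enc_fin {r : ℕ} (h : ℕ) (x y : ℕ) :
    encN (⟨(decN (R := r) x).k, (decN (R := r) x).r,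
      if (decN (R := r) x).r .t = (decN (R := r) x).r .b then
        finF h ((decN (R := r) x).r .t) (decN (R := r) x).f else .bot⟩ : El r ℕ) =
    if ¬ (x / CF r = h + 1) then
      wA r (⟨x % CF r, Nat.mod_lt _ (CF_pos r)⟩, ⟨y % CF r, Nat.mod_lt _ (CF_pos r)⟩)
    else wB r (⟨x % CF r, Nat.mod_lt _ (CF_pos r)⟩, ⟨y % CF r, Nat.mod_lt _ (CF_pos r)⟩) +
      0 * (x / CF r) := by
  unfold decN wB wA
  simp only [ofFx_k, ofFx_r]
  generalize (eFx r).symm ⟨x % CF r, Nat.mod_lt _ (CF_pos r)⟩ = fx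
  generalize x / CF r = n
  obtain ⟨k, ρ, z⟩ := fx
  cases n with
  | zero =>
    rw [if_pos (show ¬ (0 = h + 1) by omega)]
    have hf : finF h (ρ .t) (ofFx (R := r) ((k, ρ, z), 0)).f = .bot := by
      rcases ofFx_zero (R := r) (k, ρ, z) with h | h | h <;> rw [h] <;> rfl
    simp only [hf, ite_self, encN_bot]
  | succ q =>
    simp only [ofFx_succ]
    by_cases hq : q = h
    · subst hq
      rw [if_neg (show ¬ ¬ (q + 1 = q + 1) by omega)]
      by_cases ht : ρ .t = ρ .b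
      · rw [if_pos ht, if_pos ht, Nat.zero_mul, Nat.add_zero]
        have : finF q (ρ .t) (.cfg q z) = finF 0 (ρ .t) (.cfg 0 z) := by
          simp only [finF, if_true]
        rw [this]
      · rw [if_neg ht, if_neg ht, encN_bot, Nat.zero_mul, Nat.add_zero]
    · rw [if_pos (show ¬ (q + 1 = h + 1) by omega)]
      have hf : finF h (ρ .t) (.cfg q z) = .bot := by
        simp only [finF, if_neg hq]
      simp only [hf, ite_self, encN_bot]

end DUF6aux

open DUF6aux in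
/-- DU-F6. -/
theorem numOp_primrec_top (L : List FI) (r : ℕ) (o : Op (r + 1) (MI L.length))
    (ho : o = .build ∨ o = .unb ∨ o = .fin) :
    Primrec (fun p : ℕ × ℕ × ℕ × ℕ × ℕ =>
      numOp L r p.1 o p.2.1 p.2.2.1 p.2.2.2.1 p.2.2.2.2) := by
  rcases ho with rfl | rfl | rfl
  · refine (prim_form (CF (r + 1)) (CF_pos (r + 1)) (vA (r + 1)) (vB (r + 1) wBuild)
      (vC (r + 1) wBuild) (fun s => s = 0) ?_).of_eq ?_
    · exact Primrec.eq.comp Primrec.id (Primrec.const 0)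
    · intro p
      symm
      exact enc_shift some wBuild p.2.1 p.2.2.1 (fun s => s = 0) rfl
        (fun q h => absurd h (Nat.succ_ne_zero q)) (fun q _ => rfl)
  · refine (prim_form (CF (r + 1)) (CF_pos (r + 1)) (vA (r + 1)) (vB (r + 1) wUnb)
      (vC (r + 1) wUnb) (fun s => ¬ s = L.length + 1) ?_).of_eq ?_
    · exact (Primrec.eq.comp Primrec.id (Primrec.const (L.length + 1))).not
    · intro p
      symm
      refine enc_shift (fun q => if q = L.length then some q else none) wUnb p.2.1 p.2.2.1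
        (fun s => ¬ s = L.length + 1) (by simp) ?_ ?_
      · intro q h
        exact if_neg (by omega)
      · intro q h
        exact if_pos (by omega)
  · refine (prim_form (CF (r + 1)) (CF_pos (r + 1)) (wA (r + 1)) (wB (r + 1))
      (fun _ => 0) (fun s => ¬ s = L.length + 1) ?_).of_eq ?_
    · exact (Primrec.eq.comp Primrec.id (Primrec.const (L.length + 1))).not
    · intro p
      symm
      exact enc_fin L.length p.2.1 p.2.2.1

end Pool.Agent.Helper70.DU
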