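import Pool.Agent.Helper70.DU.Defs2
import Pool.Agent.Helper70.DU.St.F1

namespace Pool.Agent.Helper70.DU

universe u

private theorem nextW_primrec (L : List FI) (w : MI L.length) : Primrec (nextW L w) := by
  cases w with
  | main a z =>
    have h : nextW L (.main a z) = fun s : ℕ => if s = (a : ℕ) then
        nextW L (.main a z) (a : ℕ) else none := by
      funext s
      by_cases hs : s = (a : ℕ)
      · rw [if_pos hs, hs]
      · rw [if_neg hs]
        simp only [nextW]
        rw [if_neg hs]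
    rw [h]
    exact Primrec.ite (Primrec.eq.comp Primrec.id (Primrec.const (a : ℕ)))
      (Primrec.const _) (Primrec.const none)
  | feed =>
    exact Primrec.ite (Primrec.nat_le.comp (Primrec.const (L.length + 2)) Primrec.id)
      (Primrec.option_some.comp (Primrec.nat_sub.comp Primrec.id (Primrec.const 1)))
      (Primrec.const none)
  | go =>
    exact Primrec.ite (Primrec.eq.comp Primrec.id (Primrec.const (L.length + 1)))
      (Primrec.const (some 0)) (Primrec.const none)

private theorem cases_primrec {α : Type*} [Primcodable α] (N : ℕ) (I : α → ℕ) (hI : Primrec I)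
    (hlt : ∀ a, I a < N) (g : ℕ → α → ℕ) (hg : ∀ i, Primrec (g i)) :
    Primrec (fun a => g (I a) a) := by
  have key : ∀ M : ℕ, ∃ H : α → ℕ, Primrec H ∧ ∀ a, I a < M → H a = g (I a) a := by
    intro M
    induction M with
    | zero => exact ⟨fun _ => 0, Primrec.const 0, fun a h => absurd h (Nat.not_lt_zero _)⟩
    | succ M ih =>
      obtain ⟨H, hH, hH2⟩ := ih
      refine ⟨fun a => if I a = M then g M a else H a,
        Primrec.ite (Primrec.eq.comp hI (Primrec.const M)) (hg M) hH, ?_⟩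
      intro a ha
      by_cases h : I a = M
      · simp only [h, if_true]
      · simp only [h, if_false]
        exact hH2 a (by omega)
  obtain ⟨H, hH, hH2⟩ := key N
  have : (fun a => g (I a) a) = H := funext fun a => (hH2 a (hlt a)).symm
  rw [this]
  exact hH

private theorem ofFx_k {R : ℕ} (x : Fx R × ℕ) : (ofFx x).k = x.1.1 := by
  obtain ⟨⟨k, r, z⟩, s⟩ := x
  cases z <;> cases s <;> rfl

private theorem ofFx_r {R : ℕ} (x : Fx R × ℕ) : (ofFx x).r = x.1.2.1 := by
  obtain ⟨⟨k, r, z⟩, s⟩ := x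
  cases z <;> cases s <;> rfl

private theorem shift_zero {R : ℕ} (c : Fx R) (s : ℕ → Option ℕ) (wf : Flag → Option Flag) :
    shiftF s wf (ofFx (c, 0)).f = .bot := by
  obtain ⟨k, r, z⟩ := c
  cases z <;> rfl

private theorem ofFx_succ {R : ℕ} (c : Fx R) (q : ℕ) : (ofFx (c, q + 1)).f = .cfg q c.2.2 := by
  obtain ⟨k, r, z⟩ := c
  cases z <;> rfl

private theorem enc_shift_primrec {R : ℕ} (k : K3) (r' : Reg R → K3) (c : Fx R)
    (s : ℕ → Option ℕ) (hs : Primrec s) (wf : Flag → Option Flag) :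
    Primrec (fun m : ℕ => encN (⟨k, r', shiftF s wf (ofFx (c, m)).f⟩ : El R ℕ)) := by
  cases hz : wf c.2.2 with
  | none =>
    have : (fun m : ℕ => encN (⟨k, r', shiftF s wf (ofFx (c, m)).f⟩ : El R ℕ)) =
        fun _ => encN (⟨k, r', .bot⟩ : El R ℕ) := by
      funext m
      cases m with
      | zero => rw [shift_zero]
      | succ q =>
        rw [ofFx_succ]
        simp only [shiftF, hz]
        cases s q <;> rfl
    rw [this]
    exact Primrec.const _
  | some z' =>
    have : (fun m : ℕ => encN (⟨k, r', shiftF s wf (ofFx (c, m)).f⟩ : El R ℕ)) =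
        fun m => Nat.casesOn m (encN (⟨k, r', .bot⟩ : El R ℕ)) (fun q =>
          Option.casesOn (s q) (encN (⟨k, r', .bot⟩ : El R ℕ)) (fun q' =>
            (eFx R (k, r', z') : ℕ) + CF R * (q' + 1))) := by
      funext m
      cases m with
      | zero => rw [shift_zero]; rfl
      | succ q =>
        rw [ofFx_succ]
        simp only [shiftF, hz]
        cases hq : s q with
        | none => rfl
        | some q' => rfl
    rw [this]
    refine Primrec.nat_casesOn Primrec.id (Primrec.const _) ?_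
    refine Primrec.option_casesOn (hs.comp Primrec.snd) (Primrec.const _) ?_
    exact Primrec.nat_add.comp (Primrec.const _)
      (Primrec.nat_mul.comp (Primrec.const _) (Primrec.succ.comp Primrec.snd))

private theorem instr_congr {R : ℕ} (s : ℕ → Option ℕ) (K : Kind R) (a c c' : El R ℕ)
    (h : c.k = c'.k) : instrOp s K a c = instrOp s K a c' := by
  cases K <;> simp only [instrOp, h]

private theorem enc_instr_primrec {R : ℕ} (K : Kind R) (c1 c2 : Fx R)
    (s : ℕ → Option ℕ) (hs : Primrec s) :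
    Primrec (fun m : ℕ => encN (instrOp s K (ofFx (c1, m)) (ofFx (c2, 0)))) := by
  cases K with
  | inc i =>
    have := enc_shift_primrec c1.1 (Function.update c1.2.1 (.c i) c2.1) c1 s hs
      (wInc (c1.2.1 (.c i)) c2.1)
    refine this.of_eq fun m => ?_
    simp only [instrOp, ofFx_k, ofFx_r]
  | dec i =>
    have := enc_shift_primrec c1.1 (Function.update c1.2.1 (.c i) c2.1) c1 s hs
      (wDec (c1.2.1 (.c i)) c2.1)
    refine this.of_eq fun m => ?_
    simp only [instrOp, ofFx_k, ofFx_r]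
  | zero i =>
    by_cases h : c1.2.1 (.c i) = c1.2.1 .b
    · have := enc_shift_primrec c1.1 c1.2.1 c1 s hs some
      refine this.of_eq fun m => ?_
      simp only [instrOp, ofFx_k, ofFx_r, h, if_true]
    · refine (Primrec.const (encN (⟨c1.1, c1.2.1, .bot⟩ : El R ℕ))).of_eq fun m => ?_
      simp only [instrOp, ofFx_k, ofFx_r, h, if_false]
  | copy i j =>
    have := enc_shift_primrec c1.1 (Function.update c1.2.1 (.c i) (c1.2.1 (.c j))) c1 s hs some
    refine this.of_eq fun m => ?_
    simp only [instrOp, ofFx_k, ofFx_r]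

/-- DU-F7. -/
theorem numOp_primrec_instr (L : List FI) (r : ℕ) (w : MI L.length) :
    Primrec (fun p : ℕ × ℕ × ℕ × ℕ × ℕ =>
      numOp L r p.1 (.instr w) p.2.1 p.2.2.1 p.2.2.2.1 p.2.2.2.2) := by
  classical
  have hC := CF_pos (r + 1)
  let dc : ℕ → Fx (r + 1) := fun i => (eFx (r + 1)).symm ⟨i % CF (r + 1), Nat.mod_lt _ hC⟩
  let G : ℕ → ℕ → ℕ → ℕ := fun i j s =>
    encN (instrOp (nextW L w) (kindW L r w) (ofFx (dc i, s)) (ofFx (dc j, 0)))
  have hG : ∀ i j, Primrec (G i j) := fun i j =>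
    enc_instr_primrec (kindW L r w) (dc i) (dc j) (nextW L w) (nextW_primrec L w)
  have hx : Primrec (fun p : ℕ × ℕ × ℕ × ℕ × ℕ => p.2.1) := Primrec.fst.comp Primrec.snd
  have hy : Primrec (fun p : ℕ × ℕ × ℕ × ℕ × ℕ => p.2.2.1) :=
    Primrec.fst.comp (Primrec.snd.comp Primrec.snd)
  have hxm : Primrec (fun p : ℕ × ℕ × ℕ × ℕ × ℕ => p.2.1 % CF (r + 1)) :=
    Primrec.nat_mod.comp hx (Primrec.const _)
  have hym : Primrec (fun p : ℕ × ℕ × ℕ × ℕ × ℕ => p.2.2.1 % CF (r + 1)) :=
    Primrec.nat_mod.comp hy (Primrec.const _)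
  have hxd : Primrec (fun p : ℕ × ℕ × ℕ × ℕ × ℕ => p.2.1 / CF (r + 1)) :=
    Primrec.nat_div.comp hx (Primrec.const _)
  have h1 : Primrec (fun p : ℕ × ℕ × ℕ × ℕ × ℕ =>
      G (p.2.1 % CF (r + 1)) (p.2.2.1 % CF (r + 1)) (p.2.1 / CF (r + 1))) := by
    refine cases_primrec (CF (r + 1)) (fun p : ℕ × ℕ × ℕ × ℕ × ℕ => p.2.1 % CF (r + 1)) hxm
      (fun p => Nat.mod_lt _ hC)
      (fun i p => G i (p.2.2.1 % CF (r + 1)) (p.2.1 / CF (r + 1))) ?_
    intro i
    refine cases_primrec (CF (r + 1)) (fun p : ℕ × ℕ × ℕ × ℕ × ℕ => p.2.2.1 % CF (r + 1)) hym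
      (fun p => Nat.mod_lt _ hC) (fun j p => G i j (p.2.1 / CF (r + 1))) ?_
    intro j
    exact (hG i j).comp hxd
  refine h1.of_eq fun p => ?_
  have hd : ∀ x : ℕ, (decN x : El (r + 1) ℕ) = ofFx (dc (x % CF (r + 1)), x / CF (r + 1)) := by
    intro x
    simp only [dc, decN, Nat.mod_mod]
  have hop : numOp L r p.1 (.instr w) p.2.1 p.2.2.1 p.2.2.2.1 p.2.2.2.2 =
      encN (instrOp (nextW L w) (kindW L r w) (decN p.2.1) (decN p.2.2.1)) := rfl
  rw [hop, hd p.2.1, hd p.2.2.1]
  simp only [G]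
  congr 1
  apply instr_congr
  rw [ofFx_k, ofFx_k]

end Pool.Agent.Helper70.DU
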