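import Pool.Agent.Helper70.DU.Defs2
import Pool.Agent.Helper70.DU.St.F4
import Pool.Agent.Helper70.DU.St.F5
import Pool.Agent.Helper70.DU.St.F6
import Pool.Agent.Helper70.DU.St.F7

namespace Pool.Agent.Helper70.DU

universe u

namespace DUF8aux

theorem numOp_primrec (L : List FI) (r : ℕ) (o : Op (r + 1) (MI L.length)) :
    Primrec (fun p : ℕ × ℕ × ℕ × ℕ × ℕ =>
      numOp L r p.1 o p.2.1 p.2.2.1 p.2.2.2.1 p.2.2.2.2) := by
  cases o with
  | comb => exact numOp_primrec_easy L r _ (by simp)
  | inf => exact numOp_primrec_easy L r _ (by simp)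
  | sup => exact numOp_primrec_easy L r _ (by simp)
  | pr i => exact numOp_primrec_easy L r _ (by simp)
  | g => exact numOp_primrec_easy L r _ (by simp)
  | lab z v w => exact numOp_primrec_lab L r _ (Or.inl ⟨z, v, w, rfl⟩)
  | fix i => exact numOp_primrec_easy L r _ (by simp)
  | merge => exact numOp_primrec_lab L r _ (Or.inr rfl)
  | init => exact numOp_primrec_easy L r _ (by simp)
  | build => exact numOp_primrec_top L r _ (by simp)
  | instr w => exact numOp_primrec_instr L r w
  | unb => exact numOp_primrec_top L r _ (by simp)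
  | fin => exact numOp_primrec_top L r _ (by simp)

end DUF8aux

open DUF8aux in
/-- DU-F8. -/
theorem codeN_computable (L : List FI) (r p : ℕ) (en : Fin p → Op (r + 1) (MI L.length)) :
    Computable (codeN L r p en) := by
  apply Primrec.to_comp
  have hS : Primrec (fun n : ℕ => (numSt L n + 1) * CF (r + 1)) := by
    unfold numSt
    exact Primrec.nat_mul.comp (Primrec.succ.comp
      (Primrec.nat_add.comp (Primrec.const _) Primrec.id)) (Primrec.const _)
  have hpow : ∀ k : ℕ, Primrec (fun n : ℕ => ((numSt L n + 1) * CF (r + 1)) ^ k) := by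
    intro k
    induction k with
    | zero => simpa using Primrec.const 1
    | succ k ih =>
      simp only [pow_succ]
      exact Primrec.nat_mul.comp ih hS
  unfold codeN
  refine hS.pair (Primrec.list_ofFn fun i => (Primrec.const 4).pair ?_)
  refine Primrec.list_map (Primrec.list_range.comp (hpow 4)) ?_
  have h1 : Primrec (fun q : ℕ × ℕ => (numSt L q.1 + 1) * CF (r + 1)) := hS.comp Primrec.fst
  have hk : ∀ k, Primrec (fun q : ℕ × ℕ =>
      q.2 / ((numSt L q.1 + 1) * CF (r + 1)) ^ k % ((numSt L q.1 + 1) * CF (r + 1))) := by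
    intro k
    exact Primrec.nat_mod.comp (Primrec.nat_div.comp Primrec.snd ((hpow k).comp Primrec.fst)) h1
  have h0 : Primrec (fun q : ℕ × ℕ => q.2 % ((numSt L q.1 + 1) * CF (r + 1))) :=
    Primrec.nat_mod.comp Primrec.snd h1
  have h1' : Primrec (fun q : ℕ × ℕ =>
      q.2 / ((numSt L q.1 + 1) * CF (r + 1)) % ((numSt L q.1 + 1) * CF (r + 1))) :=
    Primrec.nat_mod.comp (Primrec.nat_div.comp Primrec.snd h1) h1
  exact (numOp_primrec L r (en i)).comp
    (Primrec.fst.pair (h0.pair (h1'.pair ((hk 2).pair (hk 3)))))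

end Pool.Agent.Helper70.DU
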