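import Pool.Agent.Helper70.DU.Defs2
import Pool.Agent.Helper70.DU.St.F1
import Pool.Agent.Helper70.DU.St.F2

namespace Pool.Agent.Helper70.DU

universe u

namespace DUF9aux

theorem table_eq {s : ℕ} (f : (Fin 4 → Fin s) → Fin s) (g : ℕ → ℕ → ℕ → ℕ → ℕ)
    (h : ∀ v : Fin 4 → Fin s, (f v : ℕ) = g (v 0) (v 1) (v 2) (v 3)) :
    table f = (List.range (s ^ 4)).map (fun j => g (j % s) (j / s % s) (j / s ^ 2 % s)
      (j / s ^ 3 % s)) := by
  unfold table
  apply List.ext_getElem
  · simp
  · intro k h1 h2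
    rw [List.getElem_ofFn, List.getElem_map, List.getElem_range, h]
    have e : ∀ (j : Fin (s ^ 4)) (i : Fin 4),
        ((finFunctionFinEquiv.symm j i : Fin s) : ℕ) = (j : ℕ) / s ^ (i : ℕ) % s := by
      intro j i
      rfl
    rw [e, e, e, e]
    simp

end DUF9aux

/-- DU-F9. -/
theorem code_algOf (L : List FI) (r p n : ℕ) (hL : FGood L r)
    (en : Fin p → Op (r + 1) (MI L.length)) (hs : 0 < (numSt L n + 1) * CF (r + 1))
    (e : El (r + 1) (Fin (numSt L n)) ≃ Fin ((numSt L n + 1) * CF (r + 1)))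
    (he : ∀ a, (e a : ℕ) = encN (mapEl Fin.val a)) :
    (algOf (machF L r n) hs e en).code = codeN L r p en n := by
  have hdec : ∀ v : Fin ((numSt L n + 1) * CF (r + 1)),
      decN (R := r + 1) (v : ℕ) = mapEl Fin.val (e.symm v) := by
    intro v
    have h1 := he (e.symm v)
    rw [Equiv.apply_symm_apply] at h1
    rw [h1, decN_encN]
  have key : ∀ i : Fin p, table ((algOf (machF L r n) hs e en).op i) =
      (List.range (((numSt L n + 1) * CF (r + 1)) ^ 4)).map (fun j =>
        numOp L r n (en i) (j % ((numSt L n + 1) * CF (r + 1)))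
          (j / ((numSt L n + 1) * CF (r + 1)) % ((numSt L n + 1) * CF (r + 1)))
          (j / ((numSt L n + 1) * CF (r + 1)) ^ 2 % ((numSt L n + 1) * CF (r + 1)))
          (j / ((numSt L n + 1) * CF (r + 1)) ^ 3 % ((numSt L n + 1) * CF (r + 1)))) := by
    intro i
    apply DUF9aux.table_eq (fun v => e (opM (machF L r n) (en i) (e.symm (v 0)) (e.symm (v 1))
      (e.symm (v 2)) (e.symm (v 3)))) (fun x y z t => numOp L r n (en i) x y z t)
    intro v
    rw [he, opM_map L r n hL]
    unfold numOp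
    rw [hdec, hdec, hdec, hdec]
  unfold FinAlg.code codeN
  refine Prod.ext rfl ?_
  change List.ofFn (fun i : Fin p => (4, table ((algOf (machF L r n) hs e en).op i))) = _
  congr 1
  funext i
  rw [key i]

end Pool.Agent.Helper70.DU
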