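import Pool.Agent.Helper70.DU.Defs

namespace Pool.Agent.Helper70.DU

variable {R : ℕ} {Q W : Type} [DecidableEq Q]

namespace DUN2aux

theorem ptr_self {m : ℕ} (j : Fin m) : ptr j j = .st := by
  simp [ptr]

theorem ptr_st {m : ℕ} {j x : Fin m} (h : ptr j x = .st) : x = j := by
  unfold ptr at h
  split_ifs at h with h1 h2
  exact h2

theorem ptr_mono {m : ℕ} {j x y : Fin m} (h : (ptr j x).toNat < (ptr j y).toNat) : x < y := by
  by_contra hxy
  push Not at hxy
  unfold ptr at h
  rcases lt_trichotomy x j with h1 | h1 | h1
  · have h2 : y < j := lt_of_le_of_lt hxy h1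
    simp [h1, h2] at h
  · subst h1
    rcases lt_or_eq_of_le hxy with h2 | h2
    · simp [h2, K3.toNat] at h
    · subst h2
      simp at h
  · have h3 : ¬ x < j := not_lt.2 h1.le
    have h4 : x ≠ j := ne_of_gt h1
    simp only [h3, h4, if_false] at h
    split_ifs at h <;> simp [K3.toNat] at h

theorem val (T : Mach R Q W) (z : Bool) (v w : K3 × K3) (a b c d : El R Q)
    (h : (opM T (.lab z v w) a b c d).f ≠ .bot) :
    (lam z v w (c.k, d.k) = .L ∧ (opM T (.lab z v w) a b c d).f = a.f) ∨
    (lam z v w (c.k, d.k) = .R ∧ a.r = b.r ∧ (opM T (.lab z v w) a b c d).f = b.f) ∨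
    (lam z v w (c.k, d.k) = .B ∧ a.r = b.r ∧ (opM T (.lab z v w) a b c d).f = a.f ∧
      (opM T (.lab z v w) a b c d).f = b.f) := by
  have e : (opM T (.lab z v w) a b c d).f =
      (match lam z v w (c.k, d.k) with
      | .L => a.f
      | .R => if a.r = b.r then b.f else .bot
      | .B => if a.r = b.r then fmeet a.f b.f else .bot
      | .N => .bot) := rfl
  rw [e] at h ⊢
  cases hl : lam z v w (c.k, d.k) with
  | L =>
    left
    simp only [hl] at h ⊢
    exact ⟨trivial, trivial⟩
  | R =>
    right; left
    simp only [hl] at h ⊢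
    by_cases hr : a.r = b.r
    · rw [if_pos hr]
      exact ⟨trivial, hr, rfl⟩
    · rw [if_neg hr] at h
      exact absurd rfl h
  | B =>
    right; right
    simp only [hl] at h ⊢
    by_cases hr : a.r = b.r
    · rw [if_pos hr] at h ⊢
      unfold fmeet at h ⊢
      by_cases hf : a.f = b.f
      · rw [if_pos hf]
        exact ⟨trivial, hr, rfl, hf⟩
      · rw [if_neg hf] at h
        exact absurd rfl h
    · rw [if_neg hr] at h
      exact absurd rfl h
  | N =>
    simp only [hl] at h
    exact absurd rfl h

theorem lam_R {v w u : K3 × K3} (hg : GoodPair false v w) (h : lam false v w u = .R) : u = v := by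
  unfold lam at h
  rw [if_pos hg] at h
  simp only [Bool.false_eq_true, false_and, if_false] at h
  split_ifs at h with h1
  exact h1

theorem lam_L {v w u : K3 × K3} (hg : GoodPair false v w) (h : lam false v w u = .L) : u = w := by
  unfold lam at h
  rw [if_pos hg] at h
  simp only [Bool.false_eq_true, false_and, if_false] at h
  split_ifs at h with h1 h2
  exact h2

theorem noLR {m : ℕ} {v w : K3 × K3} (hg : GoodPair false v w) (j j' x y : Fin m)
    (hx : lam false v w (ptr j x, ptr j' x) = .R) (hy : lam false v w (ptr j y, ptr j' y) = .L) :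
    False := by
  have h1 := lam_R hg hx
  have h2 := lam_L hg hy
  obtain ⟨hne, hg2⟩ := hg
  simp only [Bool.false_eq_true, if_false] at hg2
  rw [← h1, ← h2] at hg2 hne
  simp only at hg2
  rcases hg2 with ⟨h3, h4⟩ | ⟨h3, h4⟩
  · have h5 := ptr_st h3
    have h6 := ptr_st h4
    apply hne
    rw [h5, h6]
  · exact lt_asymm (ptr_mono h3) (ptr_mono h4)

end DUN2aux

open DUN2aux in
/-- DU-N2. Two legitimate pointer words never show both labels `L` and `R` unless they show `N`. -/
theorem Am_lab (T : Mach R Q W) (m : ℕ) (z : Bool) (v w : K3 × K3) :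
    ∀ a ∈ Am T m, ∀ b ∈ Am T m, ∀ c ∈ Am T m, ∀ d ∈ Am T m,
      (fun x => opM T (.lab z v w) (a x) (b x) (c x) (d x)) ∈ Am T m := by
  rintro a ⟨ja, pa, hak, har, haf⟩ b ⟨jb, pb, hbk, hbr, hbf⟩ c ⟨jc, pc, hck, _, _⟩
    d ⟨jd, pd, hdk, _, _⟩
  refine ⟨ja, pa, fun x => hak x, fun x i => har x i, ?_⟩
  by_cases hbot : ∃ x, (opM T (.lab z v w) (a x) (b x) (c x) (d x)).f = .bot
  · exact Or.inl hbot
  right
  push Not at hbot
  have hval := fun x => val T z v w (a x) (b x) (c x) (d x) (hbot x)
  have key : (∀ x, (opM T (.lab z v w) (a x) (b x) (c x) (d x)).f = (a x).f) ∨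
      (∀ x, (a x).r = (b x).r ∧ (opM T (.lab z v w) (a x) (b x) (c x) (d x)).f = (b x).f) := by
    by_cases hg : GoodPair z v w
    · cases z with
      | false =>
        by_cases hR : ∃ x, lam false v w ((c x).k, (d x).k) = .R
        · obtain ⟨x0, hx0⟩ := hR
          right
          intro x
          rcases hval x with h | h | h
          · exfalso
            have h1 := h.1
            rw [hck, hdk] at h1 hx0
            exact noLR hg jc jd x0 x hx0 h1
          · exact h.2
          · exact ⟨h.2.1, h.2.2.2⟩
        · left
          intro x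
          rcases hval x with h | h | h
          · exact h.2
          · exact absurd ⟨x, h.1⟩ hR
          · exact h.2.2.1
      | true =>
        exfalso
        have h1 : lam true v w ((c jc).k, (d jc).k) = .N := by
          rw [hck, ptr_self]
          unfold lam
          rw [if_pos hg]
          simp
        rcases hval jc with h | h | h
        · rw [h1] at h
          exact absurd h.1 (by decide)
        · rw [h1] at h
          exact absurd h.1 (by decide)
        · rw [h1] at h
          exact absurd h.1 (by decide)
    · left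
      have hB : ∀ u, lam z v w u = .B := by
        intro u
        unfold lam
        rw [if_neg hg]
      intro x
      rcases hval x with h | h | h
      · rw [hB] at h
        exact absurd h.1 (by decide)
      · rw [hB] at h
        exact absurd h.1 (by decide)
      · exact h.2.2.1
  rcases key with h | h
  · have e : (fun x => (opM T (.lab z v w) (a x) (b x) (c x) (d x)).f) = fun x => (a x).f :=
      funext h
    have hf : Inv T pa (fun x => (a x).f) := by
      rcases haf with ⟨x, hx⟩ | hI
      · exact absurd ((h x).trans hx) (hbot x)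
      · exact hI
    rw [e]
    exact hf
  · have e : (fun x => (opM T (.lab z v w) (a x) (b x) (c x) (d x)).f) = fun x => (b x).f :=
      funext fun x => (h x).2
    have hf : Inv T pb (fun x => (b x).f) := by
      rcases hbf with ⟨x, hx⟩ | hI
      · exact absurd ((h x).2.trans hx) (hbot x)
      · exact hI
    have hp : pa = pb := by
      funext i
      have h1 : (a (pb i)).r i = (b (pb i)).r i := by rw [(h (pb i)).1]
      rw [har, hbr, ptr_self] at h1
      exact (ptr_st h1).symm
    rw [e, hp]
    exact hf

end Pool.Agent.Helper70.DU
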