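import Pool.Agent.Helper70.DU.Defs

namespace Pool.Agent.Helper70.DU

variable {R : ℕ} {Q W : Type} [DecidableEq Q]

/-- DU-N4.  -/
theorem Am_build (T : Mach R Q W) (m : ℕ) :
    ∀ a ∈ Am T m, ∀ b ∈ Am T m, ∀ c ∈ Am T m, ∀ d ∈ Am T m,
      (fun x => opM T .build (a x) (b x) (c x) (d x)) ∈ Am T m := by
  sorry

end Pool.Agent.Helper70.DU
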