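import Pool.Agent.Helper70.DU.Defs

namespace Pool.Agent.Helper70.DU

variable {R : ℕ} {Q W : Type} [DecidableEq Q]

namespace DUN6aux

theorem wd_mem (T : Mach R Q W) {m : ℕ} (j : Fin m) : wd R Q j ∈ Am T m :=
  ⟨j, fun _ => j, fun _ => rfl, fun _ _ => rfl, Or.inl ⟨j, rfl⟩⟩

end DUN6aux

/-- DU-N6. The `k`-part of the image depends only on the `k`-part. -/
theorem hom_k (T : Mach R Q W) {m : ℕ} (h : (Fin m → El R Q) → El R Q)
    (hA : Closed T (Am T m)) (hh : HomOn T (Am T m) h) (j : Fin m) (a : Fin m → El R Q)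
    (ha : a ∈ Am T m) (hj : ∀ x, (a x).k = ptr j x) : (h a).k = (h (wd R Q j)).k := by
  have hw := DUN6aux.wd_mem T j
  have h1 := hh .comb a ha (wd R Q j) hw (wd R Q j) hw (wd R Q j) hw
  have h2 : (fun x => opM T .comb (a x) (wd R Q j x) (wd R Q j x) (wd R Q j x)) = wd R Q j := by
    funext x
    simp only [opM, wd, hj x]
  rw [h2] at h1
  rw [h1]
  rfl

end Pool.Agent.Helper70.DU
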