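import Pool.Agent.Helper70.DU.Defs

namespace Pool.Agent.Helper70.DU

variable {R : ℕ} {Q W : Type} [DecidableEq Q]

namespace DUN7aux

theorem wd_mem (T : Mach R Q W) {m : ℕ} (j : Fin m) : wd R Q j ∈ Am T m :=
  ⟨j, fun _ => j, fun _ => rfl, fun _ _ => rfl, Or.inl ⟨j, rfl⟩⟩

theorem ptr_eq_st {m : ℕ} (j x : Fin m) : ptr j x = K3.st ↔ x = j := by
  unfold ptr
  by_cases h1 : x < j
  · rw [if_pos h1]
    exact ⟨fun h => absurd h (by decide), fun h => absurd h h1.ne⟩
  · rw [if_neg h1]
    by_cases h2 : x = j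
    · rw [if_pos h2]
      exact ⟨fun _ => h2, fun _ => rfl⟩
    · rw [if_neg h2]
      exact ⟨fun h => absurd h (by decide), fun h => absurd h h2⟩

/-- the word with `f = bot` exactly on `J` -/
def bw (R : ℕ) (Q : Type) {m : ℕ} (j : Fin m) (J : Finset (Fin m)) : Fin m → El R Q :=
  fun x => ⟨ptr j x, fun _ => ptr j x, if x ∈ J then .bot else .dlt⟩

theorem bw_mem (T : Mach R Q W) {m : ℕ} (j : Fin m) (J : Finset (Fin m)) (hJ : J.Nonempty) :
    bw R Q j J ∈ Am T m := by
  obtain ⟨x, hx⟩ := hJ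
  exact ⟨j, fun _ => j, fun _ => rfl, fun _ _ => rfl, Or.inl ⟨x, if_pos hx⟩⟩

theorem h_single (T : Mach R Q W) {m : ℕ} (h : (Fin m → El R Q) → El R Q)
    (hh : HomOn T (Am T m) h) (j0 j : Fin m) :
    h (bw R Q j0 {j}) = ⟨(h (wd R Q j0)).k, (h (wd R Q j0)).r,
      if (h (wd R Q j)).k = .st then .bot else .dlt⟩ := by
  have h1 := hh .g (wd R Q j0) (wd_mem T j0) (wd R Q j) (wd_mem T j) (wd R Q j) (wd_mem T j)
    (wd R Q j) (wd_mem T j)
  have h2 : (fun x => opM T .g (wd R Q j0 x) (wd R Q j x) (wd R Q j x) (wd R Q j x)) =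
      bw R Q j0 {j} := by
    funext x
    simp only [opM, wd, bw, ptr_eq_st, Finset.mem_singleton]
  rw [h2] at h1
  rw [h1]
  rfl

end DUN7aux

open DUN7aux in
/-- DU-N7. Every homomorphism on `Am` takes the value star at some pointer word. Otherwise all `b_j = g(wd j0, wd j)` have `f`-part `dlt` under `h`; the meet (`lab false v v`: label `B` everywhere) of all of them is the word with `f = bot` everywhere, which is `fin (b_j0)`. -/
theorem hom_star (T : Mach R Q W) {m : ℕ} (h : (Fin m → El R Q) → El R Q) (hm : 0 < m)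
    (hA : Closed T (Am T m)) (hh : HomOn T (Am T m) h) : ∃ j, (h (wd R Q j)).k = .st := by
  by_contra hno
  have hno' : ∀ j, (h (wd R Q j)).k ≠ .st := fun j hj => hno ⟨j, hj⟩
  set j0 : Fin m := ⟨0, hm⟩
  have hs : ∀ j, h (bw R Q j0 {j}) = ⟨(h (wd R Q j0)).k, (h (wd R Q j0)).r, .dlt⟩ := by
    intro j
    rw [h_single T h hh j0 j, if_neg (hno' j)]
  have hJ : ∀ J : Finset (Fin m), J.Nonempty →
      h (bw R Q j0 J) = ⟨(h (wd R Q j0)).k, (h (wd R Q j0)).r, .dlt⟩ := by
    intro J hJ
    induction hJ using Finset.Nonempty.cons_induction with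
    | singleton a => exact hs a
    | cons a s ha hsn ih =>
      have h1 := hh (.lab false (K3.st, K3.st) (K3.st, K3.st)) (bw R Q j0 s) (bw_mem T j0 s hsn)
        (bw R Q j0 {a}) (bw_mem T j0 {a} (Finset.singleton_nonempty a))
        (bw R Q j0 s) (bw_mem T j0 s hsn) (bw R Q j0 s) (bw_mem T j0 s hsn)
      have hlam : ∀ u, lam false (K3.st, K3.st) (K3.st, K3.st) u = Label.B := by
        intro u
        unfold lam
        rw [if_neg]
        exact fun hg => hg.1 rfl
      have h2 : (fun x => opM T (.lab false (K3.st, K3.st) (K3.st, K3.st)) (bw R Q j0 s x)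
          (bw R Q j0 {a} x) (bw R Q j0 s x) (bw R Q j0 s x)) = bw R Q j0 (Finset.cons a s ha) := by
        funext x
        simp only [opM, hlam, bw, Finset.mem_singleton, Finset.mem_cons]
        by_cases hx : x = a
        · have hxs : x ∉ s := fun h3 => ha (hx ▸ h3)
          simp [hx, ha, fmeet]
        · by_cases hxs : x ∈ s
          · simp [hx, hxs, fmeet]
          · simp [hx, hxs, fmeet]
      rw [h2, ih, hs a] at h1
      rw [h1]
      simp only [opM, hlam, fmeet, if_true]
  have hall := hJ Finset.univ ⟨j0, Finset.mem_univ _⟩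
  have hwd : bw R Q j0 Finset.univ = wd R Q j0 := by
    funext x
    simp only [bw, wd, Finset.mem_univ, if_true]
  rw [hwd] at hall
  have h1 := hh .fin (wd R Q j0) (wd_mem T j0) (wd R Q j0) (wd_mem T j0) (wd R Q j0) (wd_mem T j0)
    (wd R Q j0) (wd_mem T j0)
  have h2 : (fun x => opM T .fin (wd R Q j0 x) (wd R Q j0 x) (wd R Q j0 x) (wd R Q j0 x)) =
      wd R Q j0 := by
    funext x
    simp only [opM, wd, finF, if_true]
  rw [h2] at h1
  have h3 := congrArg El.f h1
  rw [hall] at h3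
  simp [opM, finF] at h3

end Pool.Agent.Helper70.DU
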