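import Pool.Agent.Helper70.DU.Defs

namespace Pool.Agent.Helper70.DU

variable {R : ℕ} {Q W : Type} [DecidableEq Q]

namespace DUN8aux

theorem wd_mem (T : Mach R Q W) {m : ℕ} (j : Fin m) : wd R Q j ∈ Am T m :=
  ⟨j, fun _ => j, fun _ => rfl, fun _ _ => rfl, Or.inl ⟨j, rfl⟩⟩

theorem ptr_eq_st {m : ℕ} (j x : Fin m) : ptr j x = K3.st ↔ x = j := by
  unfold ptr
  by_cases h1 : x < j
  · rw [if_pos h1]
    exact ⟨fun h => absurd h (by decide), fun h => absurd h h1.ne⟩
  · rw [if_neg h1]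
    by_cases h2 : x = j
    · rw [if_pos h2]
      exact ⟨fun _ => h2, fun _ => rfl⟩
    · rw [if_neg h2]
      exact ⟨fun h => absurd h (by decide), fun h => absurd h h2⟩

theorem ptr_lt {m : ℕ} {j x : Fin m} (h : x < j) : ptr j x = K3.lo := if_pos h

/-- the word with `f = bot` exactly at `k` -/
def bk (R : ℕ) (Q : Type) {m : ℕ} (j k : Fin m) : Fin m → El R Q :=
  fun x => ⟨ptr j x, fun _ => ptr j x, if x = k then .bot else .dlt⟩

theorem bk_mem (T : Mach R Q W) {m : ℕ} (j k : Fin m) : bk R Q j k ∈ Am T m :=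
  ⟨j, fun _ => j, fun _ => rfl, fun _ _ => rfl, Or.inl ⟨k, if_pos rfl⟩⟩

theorem h_single (T : Mach R Q W) {m : ℕ} (h : (Fin m → El R Q) → El R Q)
    (hh : HomOn T (Am T m) h) (j0 j : Fin m) :
    h (bk R Q j0 j) = ⟨(h (wd R Q j0)).k, (h (wd R Q j0)).r,
      if (h (wd R Q j)).k = .st then .bot else .dlt⟩ := by
  have h1 := hh .g (wd R Q j0) (wd_mem T j0) (wd R Q j) (wd_mem T j) (wd R Q j) (wd_mem T j)
    (wd R Q j) (wd_mem T j)
  have h2 : (fun x => opM T .g (wd R Q j0 x) (wd R Q j x) (wd R Q j x) (wd R Q j x)) =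
      bk R Q j0 j := by
    funext x
    simp only [opM, wd, bk, ptr_eq_st]
  rw [h2] at h1
  rw [h1]
  rfl

end DUN8aux

open DUN8aux in
/-- DU-N8. Two stars force all stars. Use `lab false (.st,.st) (.st,.lo) (b_k, b_i, wd i, wd j)` with `i < j`, which equals `b_k` where `b_k = g(wd i, wd k)`. -/
theorem hom_two (T : Mach R Q W) {m : ℕ} (h : (Fin m → El R Q) → El R Q)
    (hA : Closed T (Am T m)) (hh : HomOn T (Am T m) h) (i j : Fin m) (hij : i < j)
    (hi : (h (wd R Q i)).k = .st) (hj : (h (wd R Q j)).k = .st) (k : Fin m) :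
    (h (wd R Q k)).k = .st := by
  by_contra hk
  have hki : k ≠ i := fun h1 => hk (h1 ▸ hi)
  have h1 := hh (.lab false (K3.st, K3.st) (K3.st, K3.lo)) (bk R Q i k) (bk_mem T i k)
    (bk R Q i i) (bk_mem T i i) (wd R Q i) (wd_mem T i) (wd R Q j) (wd_mem T j)
  have hgood : GoodPair false (K3.st, K3.st) (K3.st, K3.lo) := by decide
  have h2 : (fun x => opM T (.lab false (K3.st, K3.st) (K3.st, K3.lo)) (bk R Q i k x)
      (bk R Q i i x) (wd R Q i x) (wd R Q j x)) = bk R Q i k := by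
    funext x
    by_cases hx : x = i
    · subst hx
      have e1 : ptr x x = K3.st := (ptr_eq_st x x).2 rfl
      have e2 : ptr j x = K3.lo := ptr_lt hij
      simp [opM, wd, bk, e1, e2, lam, hgood]
    · have e1 : ptr i x ≠ K3.st := fun h3 => hx ((ptr_eq_st i x).1 h3)
      have e3 : lam false (K3.st, K3.st) (K3.st, K3.lo) (ptr i x, ptr j x) = Label.B := by
        unfold lam
        rw [if_pos hgood, if_neg (by simp), if_neg, if_neg]
        · intro h3
          exact e1 (Prod.mk.inj h3).1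
        · intro h3
          exact e1 (Prod.mk.inj h3).1
      simp only [opM, wd, bk, e3, if_true, if_neg hx]
      by_cases hxk : x = k
      · simp [hxk, fmeet]
      · simp [hxk, fmeet]
  rw [h2, h_single T h hh i k, h_single T h hh i i, if_neg hk, if_pos hi] at h1
  have h3 := congrArg El.f h1
  simp [opM, hi, hj, lam, hgood] at h3

end Pool.Agent.Helper70.DU
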