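import Pool.Agent.Helper70.DU.Defs
import Pool.Agent.Helper70.DU.St.N1
import Pool.Agent.Helper70.DU.St.N2
import Pool.Agent.Helper70.DU.St.N3
import Pool.Agent.Helper70.DU.St.N4
import Pool.Agent.Helper70.DU.St.N5
import Pool.Agent.Helper70.DU.St.N6
import Pool.Agent.Helper70.DU.St.N7
import Pool.Agent.Helper70.DU.St.N8

namespace Pool.Agent.Helper70.DU

variable {R : ℕ} {Q W : Type} [DecidableEq Q]

namespace DUN9aux

theorem closed_Am (T : Mach R Q W) (hT : ¬ Halts T) (m : ℕ) : Closed T (Am T m) := by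
  intro o
  cases o with
  | comb => exact Am_easy T m _ (Or.inl rfl)
  | inf => exact Am_easy T m _ (Or.inr (Or.inl rfl))
  | sup => exact Am_easy T m _ (Or.inr (Or.inr (Or.inl rfl)))
  | pr i => exact Am_easy T m _ (Or.inr (Or.inr (Or.inr (Or.inl ⟨i, rfl⟩))))
  | g => exact Am_easy T m _ (Or.inr (Or.inr (Or.inr (Or.inr (Or.inl rfl)))))
  | lab z v w => exact Am_lab T m z v w
  | fix i => exact Am_easy T m _ (Or.inr (Or.inr (Or.inr (Or.inr (Or.inr (Or.inl ⟨i, rfl⟩))))))
  | merge => exact Am_dead T hT m _ (Or.inl rfl)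
  | init => exact Am_easy T m _ (Or.inr (Or.inr (Or.inr (Or.inr (Or.inr (Or.inr rfl))))))
  | build => exact Am_build T m
  | instr w => exact Am_instr T m w
  | unb => exact Am_dead T hT m _ (Or.inr (Or.inl rfl))
  | fin => exact Am_dead T hT m _ (Or.inr (Or.inr rfl))

end DUN9aux

open DUN8aux DUN9aux in
/-- DU-N9. Assembly of the negative direction (use N6-N8). `bt h = ⟨(h (wd j0)).k, (h (wd j0)).r, bot if all stars, dlt otherwise⟩`. -/
theorem neg_abs (T : Mach R Q W) (hT : ¬ Halts T) (n : ℕ) :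
    ∃ (m : ℕ), (Am T m).Nonempty ∧ Closed T (Am T m) ∧
      ∃ bt : ((Fin m → El R Q) → El R Q) → El R Q,
        (∀ h : Fin n → (Fin m → El R Q) → El R Q, (∀ i, HomOn T (Am T m) (h i)) →
          ∃ a ∈ Am T m, ∀ i, bt (h i) = h i a) ∧
        ¬ ∃ a ∈ Am T m, ∀ j : Fin m, bt (fun a => a j) = a j := by
  classical
  have hcl := closed_Am T hT (n + 2)
  set j0 : Fin (n + 2) := 0 with hj0
  refine ⟨n + 2, ⟨wd R Q j0, wd_mem T j0⟩, hcl,
    fun h => ⟨(h (wd R Q j0)).k, (h (wd R Q j0)).r,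
      if ∀ k, (h (wd R Q k)).k = .st then .bot else .dlt⟩, ?_, ?_⟩
  · intro h hh
    have hst : ∀ i, ∃ j, (h i (wd R Q j)).k = .st := fun i =>
      hom_star T (h i) (Nat.succ_pos _) hcl (hh i)
    choose s hs using hst
    have huniq : ∀ i j, (h i (wd R Q j)).k = .st → j ≠ s i → ∀ k, (h i (wd R Q k)).k = .st := by
      intro i j hj hne k
      rcases lt_or_gt_of_ne hne with hlt | hgt
      · exact hom_two T (h i) hcl (hh i) j (s i) hlt hj (hs i) k
      · exact hom_two T (h i) hcl (hh i) (s i) j hgt (hs i) hj k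
    obtain ⟨j, hj⟩ : ∃ j : Fin (n + 2), j ∉ Finset.univ.image s := by
      by_contra hcon
      push Not at hcon
      have h1 : (Finset.univ : Finset (Fin (n + 2))) ⊆ Finset.univ.image s := fun x _ => hcon x
      have h2 := (Finset.card_le_card h1).trans Finset.card_image_le
      rw [Finset.card_univ, Finset.card_univ, Fintype.card_fin, Fintype.card_fin] at h2
      omega
    refine ⟨bk R Q j0 j, bk_mem T j0 j, fun i => ?_⟩
    rw [h_single T (h i) (hh i) j0 j]
    beta_reduce
    have hji : j ≠ s i := fun h1 => hj (Finset.mem_image.2 ⟨i, Finset.mem_univ _, h1.symm⟩)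
    by_cases hall : ∀ k, (h i (wd R Q k)).k = .st
    · rw [if_pos hall, if_pos (hall j)]
    · rw [if_neg hall, if_neg]
      exact fun h1 => hall (huniq i j h1 hji)
  · rintro ⟨a, ⟨ja, pa, -, -, hfa⟩, hev⟩
    have hdlt : ∀ j, (a j).f = .dlt := by
      intro j
      rw [← hev j]
      beta_reduce
      show (if ∀ k, (wd R Q k j).k = .st then (Sym.bot : Sym Q) else .dlt) = .dlt
      rw [if_neg]
      intro hall
      obtain ⟨k, hk⟩ : ∃ k : Fin (n + 2), k ≠ j := exists_ne j
      exact hk ((ptr_eq_st k j).1 (hall k)).symm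
    rcases hfa with ⟨x, hx⟩ | ⟨q, P, -, -, -, -, -, hf⟩
    · rw [hdlt x] at hx
      exact absurd hx (by simp)
    · have h1 := hf j0
      simp only [hdlt j0] at h1
      exact absurd h1 (by simp)

end Pool.Agent.Helper70.DU
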