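import Pool.Agent.Helper70.DU.Defs

namespace Pool.Agent.Helper70.DU

variable {R : ℕ} {Q W : Type} [DecidableEq Q]

namespace DUP13aux

omit [DecidableEq Q] in
theorem fl_act {X : Type} (ch : ℕ → X → El R Q) (j : ℕ) (s : X)
    (h : ∃ i ≤ j, (ch i s).k = K3.st) : fl ch j s = Flag.act := by
  unfold fl
  rw [if_pos h]

omit [DecidableEq Q] in
theorem fl_pas {X : Type} (ch : ℕ → X → El R Q) (j : ℕ) (s : X)
    (h : ¬ ∃ i ≤ j, (ch i s).k = K3.st) (h1 : (ch 0 s).k = K3.hi) (h2 : (ch j s).k = K3.lo) :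
    fl ch j s = Flag.pas := by
  unfold fl
  rw [if_neg h, if_pos ⟨h1, h2⟩]

omit [DecidableEq Q] in
theorem fl_und {X : Type} (ch : ℕ → X → El R Q) (j : ℕ) (s : X)
    (h : ¬ ∃ i ≤ j, (ch i s).k = K3.st) (h1 : ¬ ((ch 0 s).k = K3.hi ∧ (ch j s).k = K3.lo)) :
    fl ch j s = Flag.und := by
  unfold fl
  rw [if_neg h, if_neg h1]

omit [DecidableEq Q] in
/-- one step of `unb` on the flags -/
theorem step {X : Type} (ch : ℕ → X → El R Q) (κ j : ℕ) (hj : j + 1 ≤ κ) (s : X)
    (hV : ∀ i j, i < j → j ≤ κ → Vw (ch i s).k (ch j s).k) :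
    wUnb (ch (j + 1) s).k (ch j s).k (fl ch (j + 1) s) = some (fl ch j s) := by
  have hex : (ch (j + 1) s).k = K3.lo →
      ((∃ i ≤ j + 1, (ch i s).k = K3.st) ↔ ∃ i ≤ j, (ch i s).k = K3.st) := by
    intro h
    constructor
    · rintro ⟨i, hi, hs⟩
      rcases Nat.lt_or_ge j i with h1 | h1
      · have : i = j + 1 := by omega
        rw [this, h] at hs
        exact absurd hs (by decide)
      · exact ⟨i, h1, hs⟩
    · rintro ⟨i, hi, hs⟩
      exact ⟨i, by omega, hs⟩
  have hhi : (ch j s).k = K3.hi → ∀ i ≤ j, (ch i s).k = K3.hi := by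
    intro h i hi
    rcases Nat.lt_or_ge i j with h1 | h1
    · rcases hV i j h1 (by omega) with h2 | h2
      · exact h2
      · rw [h] at h2
        exact absurd h2 (by decide)
    · have : i = j := by omega
      rw [this]
      exact h
  have hno : (ch j s).k = K3.hi → ¬ ∃ i ≤ j, (ch i s).k = K3.st := by
    rintro h ⟨i, hi, hs⟩
    rw [hhi h i hi] at hs
    exact absurd hs (by decide)
  rcases hV j (j + 1) (Nat.lt_succ_self j) hj with hv | hu
  · -- `ch j = hi`
    have h0 := hhi hv 0 (Nat.zero_le j)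
    have e1 : fl ch j s = Flag.und := by
      refine fl_und ch j s (hno hv) ?_
      rintro ⟨-, h2⟩
      rw [hv] at h2
      exact absurd h2 (by decide)
    rw [e1, hv]
    rcases hu : (ch (j + 1) s).k with _ | _ | _
    · have e2 : fl ch (j + 1) s = Flag.pas :=
        fl_pas ch (j + 1) s (fun h => hno hv ((hex hu).1 h)) h0 hu
      rw [e2]
      rfl
    · have e2 : fl ch (j + 1) s = Flag.act := fl_act ch (j + 1) s ⟨j + 1, le_rfl, hu⟩
      rw [e2]
      rfl
    · have e2 : fl ch (j + 1) s = Flag.und := by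
        refine fl_und ch (j + 1) s ?_ ?_
        · rintro ⟨i, hi, hs⟩
          rcases Nat.lt_or_ge j i with h1 | h1
          · have : i = j + 1 := by omega
            rw [this, hu] at hs
            exact absurd hs (by decide)
          · exact hno hv ⟨i, h1, hs⟩
        · rintro ⟨-, h2⟩
          rw [hu] at h2
          exact absurd h2 (by decide)
      rw [e2]
      rfl
  · -- `ch (j + 1) = lo`
    rw [hu]
    rcases hv : (ch j s).k with _ | _ | _
    · have e1 : fl ch (j + 1) s = fl ch j s := by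
        by_cases h : ∃ i ≤ j, (ch i s).k = K3.st
        · rw [fl_act ch j s h, fl_act ch (j + 1) s ((hex hu).2 h)]
        · have h' : ¬ ∃ i ≤ j + 1, (ch i s).k = K3.st := fun h1 => h ((hex hu).1 h1)
          by_cases h0 : (ch 0 s).k = K3.hi
          · rw [fl_pas ch j s h h0 hv, fl_pas ch (j + 1) s h' h0 hu]
          · rw [fl_und ch j s h (fun h1 => h0 h1.1), fl_und ch (j + 1) s h' (fun h1 => h0 h1.1)]
      rw [e1]
      rfl
    · have e1 : fl ch j s = Flag.act := fl_act ch j s ⟨j, le_rfl, hv⟩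
      have e2 : fl ch (j + 1) s = Flag.act := fl_act ch (j + 1) s ⟨j, by omega, hv⟩
      rw [e1, e2]
      rfl
    · have h0 := hhi hv 0 (Nat.zero_le j)
      have e1 : fl ch j s = Flag.und := by
        refine fl_und ch j s (hno hv) ?_
        rintro ⟨-, h2⟩
        rw [hv] at h2
        exact absurd h2 (by decide)
      have e2 : fl ch (j + 1) s = Flag.pas :=
        fl_pas ch (j + 1) s (fun h => hno hv ((hex hu).1 h)) h0 hu
      rw [e1, e2]
      rfl

end DUP13aux

open DUP13aux in
/-- DU-P13. Removing the tape: `unb` and `fin`. -/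
theorem sim_unb (T : Mach R Q W) {X : Type} (A : Set (X → El R Q)) (hA : Closed T A)
    (S : Finset X) (ch : ℕ → X → El R Q) (κ : ℕ) (hch : ∀ j ≤ κ, ch j ∈ A)
    (hV : ∀ i j, i < j → j ≤ κ → ∀ s ∈ S, Vw (ch i s).k (ch j s).k)
    (e : X → El R Q) (he : e ∈ A)
    (hes : ∀ s ∈ S, (e s).r .b = (ch 0 s).k ∧ (e s).r .t = (ch κ s).k ∧
      (e s).f = .cfg T.qh (fl ch κ s)) :
    ∃ H ∈ A, ∀ s ∈ S, (H s).f = .acc := by
  have key : ∀ d ≤ κ, ∃ e ∈ A, ∀ s ∈ S, (e s).r .b = (ch 0 s).k ∧
      (e s).r .t = (ch (κ - d) s).k ∧ (e s).f = .cfg T.qh (fl ch (κ - d) s) := by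
    intro d
    induction d with
    | zero => intro _; exact ⟨e, he, hes⟩
    | succ d ih =>
      intro hd
      obtain ⟨e', he', hes'⟩ := ih (by omega)
      obtain ⟨j, hj⟩ : ∃ j, κ - (d + 1) = j := ⟨_, rfl⟩
      have hj1 : κ - d = j + 1 := by omega
      rw [hj1] at hes'
      rw [hj]
      have hjA := hch j (by omega)
      refine ⟨_, hA .unb e' he' (ch j) hjA (ch j) hjA (ch j) hjA, ?_⟩
      intro s hs
      obtain ⟨h1, h2, h3⟩ := hes' s hs
      have hst := step ch κ j (by omega) s (fun i j hij hj => hV i j hij hj s hs)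
      refine ⟨?_, ?_, ?_⟩
      · simp only [opM]
        rw [Function.update_of_ne (by simp)]
        exact h1
      · simp only [opM]
        rw [Function.update_self]
      · simp only [opM]
        rw [h3, h2]
        simp only [shiftF, if_true, hst]
  obtain ⟨e', he', hes'⟩ := key κ le_rfl
  rw [Nat.sub_self] at hes'
  refine ⟨_, hA .fin e' he' e' he' e' he' e' he', ?_⟩
  intro s hs
  obtain ⟨h1, h2, h3⟩ := hes' s hs
  simp only [opM]
  rw [h3, h2, h1, if_pos rfl]
  rcases hv : (ch 0 s).k with _ | _ | _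
  · have e1 : fl ch 0 s = Flag.und := by
      refine fl_und ch 0 s ?_ ?_
      · rintro ⟨i, hi, hs⟩
        have : i = 0 := by omega
        rw [this, hv] at hs
        exact absurd hs (by decide)
      · rintro ⟨h4, -⟩
        rw [hv] at h4
        exact absurd h4 (by decide)
    rw [e1]
    simp [finF]
  · have e1 : fl ch 0 s = Flag.act := fl_act ch 0 s ⟨0, le_rfl, hv⟩
    rw [e1]
    simp [finF]
  · have e1 : fl ch 0 s = Flag.und := by
      refine fl_und ch 0 s ?_ ?_
      · rintro ⟨i, hi, hs⟩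
        have : i = 0 := by omega
        rw [this, hv] at hs
        exact absurd hs (by decide)
      · rintro ⟨-, h4⟩
        rw [hv] at h4
        exact absurd h4 (by decide)
    rw [e1]
    simp [finF]

end Pool.Agent.Helper70.DU
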