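import Pool.Agent.Helper70.DU.Defs2
import Pool.Agent.Helper70.DU.St.A7
import Pool.Agent.Helper70.DU.St.B10
import Pool.Agent.Helper70.DU.St.B11
import Pool.Agent.Helper70.DU.St.B12
import Pool.Agent.Helper70.DU.St.F3
import Pool.Agent.Helper70.DU.St.F8
import Pool.Agent.Helper70.DU.St.F9
import Pool.Agent.Helper70.DU.St.F10
import Pool.Agent.Helper70.DU.St.F11

namespace Pool.Agent.Helper70.DU

universe u

namespace DUZaux

/-- No computable function decides a property between the two kinds of dualisability. -/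
theorem part1 (Pr : FinAlg → Prop) (hp1 : ∀ M, FinAlg.FinDualisable.{u} M → Pr M)
    (hp2 : ∀ M, Pr M → FinAlg.Dualisable.{u} M) :
    ¬ ∃ P : ℕ × List (ℕ × List ℕ) → Bool, Computable P ∧
      ∀ M : FinAlg, (P M.code = true ↔ Pr M) := by
  rintro ⟨P, hP, hPM⟩
  obtain ⟨L, r, hG, hU⟩ := flat_undec
  obtain ⟨p, en, hen⟩ := exists_en (r + 1) L.length
  apply hU
  rw [ComputablePred.computable_iff]
  refine ⟨fun n => P (codeN L r p en n), hP.comp (codeN_computable L r p en), ?_⟩
  funext n
  have hs : 0 < (numSt L n + 1) * CF (r + 1) := Nat.mul_pos (Nat.succ_pos _) (CF_pos _)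
  obtain ⟨e, he⟩ := exists_enc (r + 1) (numSt L n)
  have hcode := code_algOf L r p n hG en hs e he
  have h1 := hPM (algOf (machF L r n) hs e en)
  rw [hcode] at h1
  apply propext
  constructor
  · intro h
    exact h1.mpr (hp1 _ (finDualisable_of_halts.{u} (machF L r n) hs e en hen
      (mach_fwd L r n hG h)))
  · intro h
    by_contra hn
    exact not_dualisable_of_not_halts.{u} (machF L r n) hs e en hen
      (fun hh => hn (mach_bwd L r n hG hh)) (hp2 _ (h1.mp h))

end DUZaux

/-- DU-Z. The theorem: every property of finite algebras which holds for all finitely dualisable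
algebras and only for dualisable algebras is undecidable. -/
theorem undecidable (Pr : FinAlg → Prop) (h1 : ∀ M, FinAlg.FinDualisable.{u} M → Pr M)
    (h2 : ∀ M, Pr M → FinAlg.Dualisable.{u} M) :
    (¬ ∃ P : ℕ × List (ℕ × List ℕ) → Bool, Computable P ∧
      ∀ M : FinAlg, (P M.code = true ↔ Pr M)) ∧
    ¬ ComputablePred (fun c : ℕ × List (ℕ × List ℕ) => ∃ M : FinAlg, M.code = c ∧ Pr M) := by
  refine ⟨DUZaux.part1.{u} Pr h1 h2, ?_⟩
  intro h
  rw [ComputablePred.computable_iff] at h
  obtain ⟨f, hf, hfe⟩ := h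
  refine DUZaux.part1.{u} Pr h1 h2 ⟨f, hf, fun M => ?_⟩
  have h3 : (∃ M' : FinAlg, M'.code = M.code ∧ Pr M') = (f M.code = true) :=
    congrFun hfe M.code
  constructor
  · intro h4
    rw [← h3] at h4
    obtain ⟨M', hM, hD⟩ := h4
    rw [← code_injective hM]
    exact hD
  · intro h4
    rw [← h3]
    exact ⟨M, rfl, h4⟩

end Pool.Agent.Helper70.DU
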